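import Pool.Agent.H4.RL.PD

/-! The first deviation from the Sato-Tate values. -/

set_option autoImplicit false

namespace Pool.Agent.H4.RL

section
variable {G : ℤ → ℤ} {M : ℤ}

/-- a long chain is closed only with the root systems of type `A` and `D` -/
lemma chain (h : Pos G) (h1 : G 1 = -1) (hM : 8 ≤ M) (hz : ∀ j : ℤ, 2 ≤ j → j < M → G j = 0)
    (hne : G M ≠ 0) : (G M = -1 ∧ G (M + 1) = 2) ∨ (G M = 1 ∧ G (M + 1) = -2) := by
  have e0 : ∀ j : ℤ, j = 0 → G j = 2 := fun j hj => by rw [hj]; exact h.zero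
  have e1 : ∀ j : ℤ, j = 1 → G j = -1 := fun j hj => by rw [hj]; exact h1
  have e2 : ∀ j : ℤ, 2 ≤ j ∧ j < M → G j = 0 := fun j hj => hz j hj.1 hj.2
  obtain ⟨y, hy⟩ : ∃ y, G M = y := ⟨_, rfl⟩
  obtain ⟨x, hx⟩ : ∃ x, G (M + 1) = x := ⟨_, rfl⟩
  have e3 : ∀ j : ℤ, j = M → G j = y := fun j hj => by rw [hj]; exact hy
  have e4 : ∀ j : ℤ, j = M + 1 → G j = x := fun j hj => by rw [hj]; exact hx
  have b1 := h.le_two M
  have b2 := h.ge_two M
  have b3 := h.le_two (M + 1)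
  have b4 := h.ge_two (M + 1)
  rw [hy] at b1 b2 hne ⊢
  rw [hx] at b3 b4 ⊢
  -- `y = 2`
  have c1 := h.pos [(0, 2), (1, 1), (M, -2)]
  simp (disch := omega) only [Q2, row, e0, e1, e2, e3, e4] at c1
  -- `y = -2`
  have c2 := h.pos [(0, 2), (1, 1), (M, 2)]
  simp (disch := omega) only [Q2, row, e0, e1, e2, e3, e4] at c2
  -- `y = -1`, `x = -2`
  have c3 := h.pos [(0, 2), (M, 1), (M + 1, 2)]
  simp (disch := omega) only [Q2, row, e0, e1, e2, e3, e4] at c3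
  -- `y = -1`, `x = -1`
  have c4 := h.pos [(0, 1), (1, 1), (M, 1), (M + 1, 1)]
  simp (disch := omega) only [Q2, row, e0, e1, e2, e3, e4] at c4
  -- `y = -1`, `x = 0`
  have c5 := h.pos [(0, 2), (1, 2), (2, 1), (M, 2), (M + 1, 2)]
  simp (disch := omega) only [Q2, row, e0, e1, e2, e3, e4] at c5
  -- `y = -1`, `x = 1`
  have c6 := h.pos [(0, 4), (1, 6), (2, 4), (3, 2), (M - 3, 1), (M - 2, 2), (M - 1, 4), (M, 6),
    (M + 1, 4)]
  simp (disch := omega) only [Q2, row, e0, e1, e2, e3, e4] at c6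
  -- `y = 1`, `x = 2`
  have c7 := h.pos [(0, 2), (M, -1), (M + 1, -2)]
  simp (disch := omega) only [Q2, row, e0, e1, e2, e3, e4] at c7
  -- `y = 1`, `x = 1`
  have c8 := h.pos [(0, 1), (1, 1), (M, -1), (M + 1, -1)]
  simp (disch := omega) only [Q2, row, e0, e1, e2, e3, e4] at c8
  -- `y = 1`, `x = 0`
  have c9 := h.pos [(0, 2), (1, 2), (2, 1), (M, -2), (M + 1, -2)]
  simp (disch := omega) only [Q2, row, e0, e1, e2, e3, e4] at c9
  -- `y = 1`, `x = -1`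
  have c10 := h.pos [(0, 4), (1, 6), (2, 4), (3, 2), (M - 3, -1), (M - 2, -2), (M - 1, -4), (M, -6),
    (M + 1, -4)]
  simp (disch := omega) only [Q2, row, e0, e1, e2, e3, e4] at c10
  omega

end

end Pool.Agent.H4.RL
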