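import Pool.Agent.H4.RL.Tree

/-! Sums of squares for the exceptional functions (generated). -/

set_option autoImplicit false

namespace Pool.Agent.H4.RL

/-- `N l_{i - j} = ∑ d h_i h_j` -/
def isFac (N : ℤ) (l : List ℤ) (D : List (ℤ × List ℤ)) : Bool :=
  (D.all fun t => decide (0 ≤ t.1)) && (List.range l.length).all fun i =>
    (List.range l.length).all fun j => N * per l (i + l.length - j) ==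
      (D.map fun t => t.1 * t.2.getD i 0 * t.2.getD j 0).sum

def d1 : List (ℤ × List ℤ) := [
  (210, [2, -1, 0, 0, 0, 0, 1, -1, 0, 0, 1, -1, 1, -1, 0, 1, 0, -1, 1, -1, 1, 0, 0, -1, 1, 0, 0, 0, 0, -1]),
  (70, [0, 3, -2, 0, 0, 0, 1, 1, -2, 0, 1, 1, -1, 1, -2, 1, 2, -1, -1, 1, -1, 2, 0, -1, -1, 2, 0, 0, 0, -1]),
  (35, [0, 0, 4, -3, 0, 0, 1, 1, 1, -3, 1, 1, 2, -2, 1, -2, 2, 2, -1, -2, 2, -1, 3, -1, -1, -1, 3, 0, 0, -1]),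
  (21, [0, 0, 0, 5, -4, 0, 1, 1, 1, 1, -3, 1, 2, 2, -3, 2, -2, 2, 3, -2, -2, 3, -1, 3, -1, -1, -1, 4, 0, -1]),
  (14, [0, 0, 0, 0, 6, -5, 1, 1, 1, 1, 2, -4, 2, 2, 2, -3, 3, -3, 3, 3, -2, -2, 4, -2, 4, -1, -1, -1, 5, -1]),
  (10, [0, 0, 0, 0, 0, 7, -5, 1, 1, 1, 2, 2, -4, 2, 2, 3, -3, 3, -3, 3, 4, -2, -2, 4, -2, 5, -1, -1, -1, 5]),
  (15, [0, 0, 0, 0, 0, 0, 4, -5, 2, 2, -3, 4, -1, -3, 4, -1, 1, -1, 1, -1, 1, 3, -4, 1, 3, -4, 5, -2, -2, 3]),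
  (105, [0, 0, 0, 0, 0, 0, 0, 1, -2, 2, -1, 0, 1, -1, 0, 1, -1, 1, -1, 1, -1, 1, 0, -1, 1, 0, -1, 2, -2, 1])]

lemma fac1 : isFac 420 e1 d1 = true := by decide +kernel

def d2 : List (ℤ × List ℤ) := [
  (30, [2, -1, 0, 0, 0, 1, -1, 0, 0, 1, -1, 0, 0, 0, 1, -2, 1, 0, 0, 0, -1, 1, 0, 0, -1, 1, 0, 0, 0, -1]),
  (10, [0, 3, -2, 0, 0, 1, 1, -2, 0, 1, 1, -2, 0, 0, 1, 0, -3, 2, 0, 0, -1, -1, 2, 0, -1, -1, 2, 0, 0, -1]),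
  (5, [0, 0, 4, -3, 0, 1, 1, 1, -3, 1, 1, 1, -3, 0, 1, 0, 0, -4, 3, 0, -1, -1, -1, 3, -1, -1, -1, 3, 0, -1]),
  (3, [0, 0, 0, 5, -4, 1, 1, 1, 1, -3, 1, 1, 1, -4, 1, 0, 0, 0, -5, 4, -1, -1, -1, -1, 3, -1, -1, -1, 4, -1]),
  (2, [0, 0, 0, 0, 6, -4, 1, 1, 1, 2, -4, 1, 1, 1, -4, 0, 0, 0, 0, -6, 4, -1, -1, -1, -2, 4, -1, -1, -1, 4]),
  (10, [0, 0, 0, 0, 0, 2, -2, 1, 1, -1, 2, -2, 1, 1, -1, 0, 0, 0, 0, 0, -2, 2, -1, -1, 1, -2, 2, -1, -1, 1]),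
  (30, [0, 0, 0, 0, 0, 0, 1, -1, 1, 0, 0, 1, -1, 1, 0, 0, 0, 0, 0, 0, 0, -1, 1, -1, 0, 0, -1, 1, -1, 0]),
  (30, [0, 0, 0, 0, 0, 0, 0, 1, -1, 1, 0, 0, 1, -1, 1, 0, 0, 0, 0, 0, 0, 0, -1, 1, -1, 0, 0, -1, 1, -1])]

lemma fac2 : isFac 60 e2 d2 = true := by decide +kernel

def d3 : List (ℤ × List ℤ) := [
  (30, [2, -1, 0, 0, 0, 1, -1, 0, 1, -1, 1, -1, 1, 0, -1, 1, 0, 0, 0, -1]),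
  (10, [0, 3, -2, 0, 0, 1, 1, -2, 1, 1, -1, 1, -1, 2, -1, -1, 2, 0, 0, -1]),
  (5, [0, 0, 4, -3, 0, 1, 1, 1, -2, 1, 2, -2, 2, -1, 2, -1, -1, 3, 0, -1]),
  (3, [0, 0, 0, 5, -4, 1, 1, 1, 2, -3, 2, 2, -2, 3, -2, 3, -1, -1, 4, -1]),
  (2, [0, 0, 0, 0, 6, -4, 1, 1, 2, 2, -3, 2, 3, -2, 3, -2, 4, -1, -1, 4]),
  (10, [0, 0, 0, 0, 0, 2, -2, 1, -1, 2, 0, -1, 0, 1, 0, 1, -2, 2, -1, 1]),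
  (30, [0, 0, 0, 0, 0, 0, 1, -1, 0, 0, 1, 0, -1, 0, 1, 0, 0, -1, 1, 0]),
  (30, [0, 0, 0, 0, 0, 0, 0, 1, -1, 0, 0, 1, 0, -1, 0, 1, 0, 0, -1, 1])]

lemma fac3 : isFac 60 e3 d3 = true := by decide +kernel

def d4 : List (ℤ × List ℤ) := [
  (30, [2, -1, 0, 0, 1, -1, 0, 0, 1, -2, 1, 0, 0, -1, 1, 0, 0, -1]),
  (10, [0, 3, -2, 0, 1, 1, -2, 0, 1, 0, -3, 2, 0, -1, -1, 2, 0, -1]),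
  (5, [0, 0, 4, -3, 1, 1, 1, -3, 1, 0, 0, -4, 3, -1, -1, -1, 3, -1]),
  (3, [0, 0, 0, 5, -3, 1, 1, 1, -3, 0, 0, 0, -5, 3, -1, -1, -1, 3]),
  (3, [0, 0, 0, 0, 4, -3, 2, 2, -1, 0, 0, 0, 0, -4, 3, -2, -2, 1]),
  (5, [0, 0, 0, 0, 0, 3, -2, 2, 1, 0, 0, 0, 0, 0, -3, 2, -2, -1]),
  (40, [0, 0, 0, 0, 0, 0, 1, -1, 1, 0, 0, 0, 0, 0, 0, -1, 1, -1])]

lemma fac4 : isFac 60 e4 d4 = true := by decide +kernel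

def d5 : List (ℤ × List ℤ) := [
  (30, [2, -1, 0, 0, 1, -1, 0, 1, -1, 0, 0, 1, -2, 1, 0, 0, -1, 1, 0, -1, 1, 0, 0, -1]),
  (10, [0, 3, -2, 0, 1, 1, -2, 1, 1, -2, 0, 1, 0, -3, 2, 0, -1, -1, 2, -1, -1, 2, 0, -1]),
  (5, [0, 0, 4, -3, 1, 1, 1, -2, 1, 1, -3, 1, 0, 0, -4, 3, -1, -1, -1, 2, -1, -1, 3, -1]),
  (3, [0, 0, 0, 5, -3, 1, 1, 2, -3, 1, 1, -3, 0, 0, 0, -5, 3, -1, -1, -2, 3, -1, -1, 3]),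
  (3, [0, 0, 0, 0, 4, -3, 2, -1, 4, -3, 2, -1, 0, 0, 0, 0, -4, 3, -2, 1, -4, 3, -2, 1]),
  (5, [0, 0, 0, 0, 0, 3, -2, 1, 0, 3, -2, 1, 0, 0, 0, 0, 0, -3, 2, -1, 0, -3, 2, -1]),
  (10, [0, 0, 0, 0, 0, 0, 2, -1, 0, 0, 2, -1, 0, 0, 0, 0, 0, 0, -2, 1, 0, 0, -2, 1]),
  (30, [0, 0, 0, 0, 0, 0, 0, 1, 0, 0, 0, 1, 0, 0, 0, 0, 0, 0, 0, -1, 0, 0, 0, -1])]

lemma fac5 : isFac 60 e5 d5 = true := by decide +kernel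

def d6 : List (ℤ × List ℤ) := [
  (30, [2, -1, 0, 0, 1, -1, 0, 1, 0, -1, 1, 0, 0, -1]),
  (10, [0, 3, -2, 0, 1, 1, -2, 1, 2, -1, -1, 2, 0, -1]),
  (5, [0, 0, 4, -3, 1, 1, 1, -2, 2, 2, -1, -1, 3, -1]),
  (3, [0, 0, 0, 5, -3, 1, 1, 2, -2, 2, 3, -1, -1, 3]),
  (3, [0, 0, 0, 0, 4, -3, 2, -1, 1, -1, 1, 3, -2, 1]),
  (5, [0, 0, 0, 0, 0, 3, -2, 1, -1, 1, -1, 1, 2, -1]),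
  (10, [0, 0, 0, 0, 0, 0, 2, -1, 1, -1, 1, -1, 1, 1]),
  (30, [0, 0, 0, 0, 0, 0, 0, 1, -1, 1, -1, 1, -1, 1])]

lemma fac6 : isFac 60 e6 d6 = true := by decide +kernel

def d7 : List (ℤ × List ℤ) := [
  (30, [2, -1, 0, 0, 1, -1, 1, -1, 1, 0, 0, -1]),
  (10, [0, 3, -2, 0, 1, 1, -1, 1, -1, 2, 0, -1]),
  (5, [0, 0, 4, -3, 1, 1, 2, -2, 2, -1, 3, -1]),
  (3, [0, 0, 0, 5, -3, 1, 2, 2, -2, 3, -1, 3]),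
  (3, [0, 0, 0, 0, 4, -3, -1, 4, 1, -4, 3, 1]),
  (45, [0, 0, 0, 0, 0, 1, -1, 0, 1, 0, -1, 1])]

lemma fac7 : isFac 60 e7 d7 = true := by decide +kernel

def d8 : List (ℤ × List ℤ) := [
  (6, [2, -1, 0, 1, -1, 0, 0, 0, -1, 1, 0, -1]),
  (2, [0, 3, -2, 1, 1, -2, 0, 0, -1, -1, 2, -1]),
  (1, [0, 0, 4, -2, 1, 1, -3, 0, -1, -1, -1, 2]),
  (3, [0, 0, 0, 2, -1, 1, 1, -2, 1, -1, -1, 0]),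
  (3, [0, 0, 0, 0, 2, -1, 1, 1, -2, 1, -1, -1]),
  (9, [0, 0, 0, 0, 0, 1, -1, 1, 0, -1, 1, -1])]

lemma fac8 : isFac 12 e8 d8 = true := by decide +kernel

def d9 : List (ℤ × List ℤ) := [
  (6, [2, -1, 0, 1, -1, 0, 1, -2, 1, 0, -1, 1, 0, -1]),
  (2, [0, 3, -2, 1, 1, -2, 1, 0, -3, 2, -1, -1, 2, -1]),
  (1, [0, 0, 4, -2, 1, 1, -2, 0, 0, -4, 2, -1, -1, 2]),
  (3, [0, 0, 0, 2, -1, 1, 0, 0, 0, 0, -2, 1, -1, 0]),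
  (3, [0, 0, 0, 0, 2, -1, 1, 0, 0, 0, 0, -2, 1, -1]),
  (1, [0, 0, 0, 0, 0, 3, -1, 0, 0, 0, 0, 0, -3, 1]),
  (8, [0, 0, 0, 0, 0, 0, 1, 0, 0, 0, 0, 0, 0, -1])]

lemma fac9 : isFac 12 e9 d9 = true := by decide +kernel

def d10 : List (ℤ × List ℤ) := [
  (6, [2, -1, 0, 1, -1, 0, 1, -1, 0, 1, -2, 1, 0, -1, 1, 0, -1, 1, 0, -1]),
  (2, [0, 3, -2, 1, 1, -2, 1, 1, -2, 1, 0, -3, 2, -1, -1, 2, -1, -1, 2, -1]),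
  (1, [0, 0, 4, -2, 1, 1, -2, 1, 1, -2, 0, 0, -4, 2, -1, -1, 2, -1, -1, 2]),
  (3, [0, 0, 0, 2, -1, 1, 0, -1, 1, 0, 0, 0, 0, -2, 1, -1, 0, 1, -1, 0]),
  (3, [0, 0, 0, 0, 2, -1, 1, 0, -1, 1, 0, 0, 0, 0, -2, 1, -1, 0, 1, -1]),
  (1, [0, 0, 0, 0, 0, 3, -1, 2, -1, -1, 0, 0, 0, 0, 0, -3, 1, -2, 1, 1]),
  (2, [0, 0, 0, 0, 0, 0, 2, -1, 2, -1, 0, 0, 0, 0, 0, 0, -2, 1, -2, 1]),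
  (6, [0, 0, 0, 0, 0, 0, 0, 1, 0, 1, 0, 0, 0, 0, 0, 0, 0, -1, 0, -1])]

lemma fac10 : isFac 12 e10 d10 = true := by decide +kernel

def d11 : List (ℤ × List ℤ) := [
  (6, [2, -1, 0, 1, -1, 0, 1, -1, 1, 0, 0, 0, 0, 0, 0, 0, 1, -1, 1, 0, -1, 1, 0, -1]),
  (2, [0, 3, -2, 1, 1, -2, 1, 1, -1, 2, 0, 0, 0, 0, 0, 0, 1, 1, -1, 2, -1, -1, 2, -1]),
  (1, [0, 0, 4, -2, 1, 1, -2, 1, 2, -1, 3, 0, 0, 0, 0, 0, 1, 1, 2, -1, 2, -1, -1, 2]),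
  (3, [0, 0, 0, 2, -1, 1, 0, -1, 0, 1, -1, 2, 0, 0, 0, 0, -1, 1, 0, 1, 0, 1, -1, 0]),
  (3, [0, 0, 0, 0, 2, -1, 1, 0, -1, 0, 1, -1, 2, 0, 0, 0, 0, -1, 1, 0, 1, 0, 1, -1]),
  (1, [0, 0, 0, 0, 0, 3, -1, 2, 1, -2, 1, 1, -2, 4, 0, 0, 2, -1, -1, 2, -1, 2, 1, 1]),
  (2, [0, 0, 0, 0, 0, 0, 2, -1, 1, 1, -2, 1, 1, -2, 3, 0, -1, 2, -1, -1, 2, -1, 1, 1]),
  (6, [0, 0, 0, 0, 0, 0, 0, 1, -1, 1, 0, -1, 1, 0, -1, 2, -1, 0, 1, -1, 0, 1, -1, 1])]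

lemma fac11 : isFac 12 e11 d11 = true := by decide +kernel

def d12 : List (ℤ × List ℤ) := [
  (6, [2, -1, 0, 1, -1, 1, -1, 0, 1, -2, 1, 0, -1, 1, -1, 1, 0, -1]),
  (2, [0, 3, -2, 1, 1, -1, 1, -2, 1, 0, -3, 2, -1, -1, 1, -1, 2, -1]),
  (1, [0, 0, 4, -2, 1, 2, -2, 1, -2, 0, 0, -4, 2, -1, -2, 2, -1, 2]),
  (3, [0, 0, 0, 2, -1, 0, 2, -1, 0, 0, 0, 0, -2, 1, 0, -2, 1, 0]),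
  (3, [0, 0, 0, 0, 2, -1, 0, 2, -1, 0, 0, 0, 0, -2, 1, 0, -2, 1]),
  (9, [0, 0, 0, 0, 0, 1, 0, 0, 1, 0, 0, 0, 0, 0, -1, 0, 0, -1])]

lemma fac12 : isFac 12 e12 d12 = true := by decide +kernel

def d13 : List (ℤ × List ℤ) := [
  (6, [2, -1, 0, 1, -1, 1, 0, -1, 1, 0, -1, 1, -1, 0, 1, -2, 1, 0, -1, 1, -1, 0, 1, -1, 0, 1, -1, 1, 0, -1]),
  (2, [0, 3, -2, 1, 1, -1, 2, -1, -1, 2, -1, -1, 1, -2, 1, 0, -3, 2, -1, -1, 1, -2, 1, 1, -2, 1, 1, -1, 2, -1]),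
  (1, [0, 0, 4, -2, 1, 2, -1, 2, -1, -1, 2, -1, -2, 1, -2, 0, 0, -4, 2, -1, -2, 1, -2, 1, 1, -2, 1, 2, -1, 2]),
  (3, [0, 0, 0, 2, -1, 0, 1, 0, 1, -1, 0, 1, 0, -1, 0, 0, 0, 0, -2, 1, 0, -1, 0, -1, 1, 0, -1, 0, 1, 0]),
  (3, [0, 0, 0, 0, 2, -1, 0, 1, 0, 1, -1, 0, 1, 0, -1, 0, 0, 0, 0, -2, 1, 0, -1, 0, -1, 1, 0, -1, 0, 1]),
  (1, [0, 0, 0, 0, 0, 3, -2, 1, 2, -1, 3, -2, 1, 2, -1, 0, 0, 0, 0, 0, -3, 2, -1, -2, 1, -3, 2, -1, -2, 1]),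
  (2, [0, 0, 0, 0, 0, 0, 2, -1, 1, 1, 0, 2, -1, 1, 1, 0, 0, 0, 0, 0, 0, -2, 1, -1, -1, 0, -2, 1, -1, -1]),
  (6, [0, 0, 0, 0, 0, 0, 0, 1, -1, 1, 0, 0, 1, -1, 1, 0, 0, 0, 0, 0, 0, 0, -1, 1, -1, 0, 0, -1, 1, -1])]

lemma fac13 : isFac 12 e13 d13 = true := by decide +kernel

def d14 : List (ℤ × List ℤ) := [
  (6, [2, -1, 0, 1, -1, 1, 0, -1]),
  (2, [0, 3, -2, 1, 1, -1, 2, -1]),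
  (1, [0, 0, 4, -2, 1, 2, -1, 2]),
  (3, [0, 0, 0, 2, -1, 0, 1, 0]),
  (3, [0, 0, 0, 0, 2, -1, 0, 1]),
  (1, [0, 0, 0, 0, 0, 3, -2, 1]),
  (2, [0, 0, 0, 0, 0, 0, 2, -1]),
  (6, [0, 0, 0, 0, 0, 0, 0, 1])]

lemma fac14 : isFac 12 e14 d14 = true := by decide +kernel

def d15 : List (ℤ × List ℤ) := [
  (6, [2, -1, 0, 1, -1, 1, 0, 0, 0, 0, 1, -1, 1, 0, -1]),
  (2, [0, 3, -2, 1, 1, -1, 2, 0, 0, 0, 1, 1, -1, 2, -1]),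
  (1, [0, 0, 4, -2, 1, 2, -1, 3, 0, 0, 1, 1, 2, -1, 2]),
  (3, [0, 0, 0, 2, -1, 0, 1, -1, 2, 0, -1, 1, 0, 1, 0]),
  (3, [0, 0, 0, 0, 2, -1, 0, 1, -1, 2, 0, -1, 1, 0, 1]),
  (1, [0, 0, 0, 0, 0, 3, -2, -1, 3, -2, 2, 1, -3, 2, 1]),
  (8, [0, 0, 0, 0, 0, 0, 1, -1, 0, 1, -1, 1, 0, -1, 1])]

lemma fac15 : isFac 12 e15 d15 = true := by decide +kernel

def d16 : List (ℤ × List ℤ) := [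
  (3, [2, -1, 0, 1, 0, -1]),
  (1, [0, 3, -2, 1, 2, -1]),
  (2, [0, 0, 2, -1, 1, 1]),
  (6, [0, 0, 0, 1, -1, 1])]

lemma fac16 : isFac 6 e16 d16 = true := by decide +kernel

end Pool.Agent.H4.RL
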