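import Pool.Agent.H70.CS.Defs

/-! The definitions for the orders of the symmetric power L-functions of `GL(2)` at `s = 1`. -/

set_option autoImplicit false

namespace Pool.Agent.H4.RL

open Pool.Agent.H70.CS

/-- `L(s, Sym^k ⊗ ω) = ∏_p ∏_{j ≤ k} (1 - α_p^j β_p^{k-j} ω(p) p^{-s})⁻¹` -/
noncomputable def LS (α β ω : Nat.Primes → Circle) (k : ℕ) (s : ℂ) : ℂ :=
  ∏' p : Nat.Primes, ∏ j ∈ Finset.range (k + 1),
    (1 - ((α p ^ j * β p ^ (k - j) * ω p : Circle) : ℂ) * ((p : ℕ) : ℂ) ^ (-s))⁻¹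

/-- the twisted product `L(s, (Sym^k ⊗ ω) × B)` -/
noncomputable def LST (α β ω : Nat.Primes → Circle) {d : ℕ} (B : Nat.Primes → Fin d → ℂ) (k : ℕ)
    (s : ℂ) : ℂ :=
  ∏' p : Nat.Primes, ∏ j ∈ Finset.range (k + 1), ∏ i,
    (1 - ((α p ^ j * β p ^ (k - j) * ω p : Circle) : ℂ) * B p i * ((p : ℕ) : ℂ) ^ (-s))⁻¹

/-! ### the list -/

/-- the root system `A_{N-1}` -/
def patA (N m : ℕ) : ℤ := if m % N = 0 then 2 else if m % N = 1 ∨ m % N = N - 1 then -1 else 0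

/-- the root system `D_N` -/
def patD (N m : ℕ) : ℤ :=
  (-1) ^ (m / N) * if m % N = 0 then 2 else if m % N = 1 then -1 else if m % N = N - 1 then 1 else 0

/-- the periodic function with the values `l` -/
def per (l : List ℤ) (m : ℕ) : ℤ := l.getD (m % l.length) 0

/-- the sequence with the differences `l` -/
def psum (l : List ℤ) (m : ℕ) : ℤ := 1 + ∑ j ∈ Finset.range m, per l (j + 1)

/-- period 30, rank 8 -/
def e1 : List ℤ :=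
  [2, -1, 0, 0, 0, 0, 1, -1, 0, 0, 1, -1, 1, -1, 0, 1, 0, -1, 1, -1, 1, 0, 0, -1, 1, 0, 0, 0, 0, -1]

/-- period 30, rank 8 -/
def e2 : List ℤ :=
  [2, -1, 0, 0, 0, 1, -1, 0, 0, 1, -1, 0, 0, 0, 1, -2, 1, 0, 0, 0, -1, 1, 0, 0, -1, 1, 0, 0, 0, -1]

/-- period 20, rank 8 -/
def e3 : List ℤ :=
  [2, -1, 0, 0, 0, 1, -1, 0, 1, -1, 1, -1, 1, 0, -1, 1, 0, 0, 0, -1]

/-- period 18, rank 7 -/
def e4 : List ℤ :=
  [2, -1, 0, 0, 1, -1, 0, 0, 1, -2, 1, 0, 0, -1, 1, 0, 0, -1]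

/-- period 24, rank 8 -/
def e5 : List ℤ :=
  [2, -1, 0, 0, 1, -1, 0, 1, -1, 0, 0, 1, -2, 1, 0, 0, -1, 1, 0, -1, 1, 0, 0, -1]

/-- period 14, rank 8 -/
def e6 : List ℤ :=
  [2, -1, 0, 0, 1, -1, 0, 1, 0, -1, 1, 0, 0, -1]

/-- period 12, rank 6 -/
def e7 : List ℤ :=
  [2, -1, 0, 0, 1, -1, 1, -1, 1, 0, 0, -1]

/-- period 12, rank 6 -/
def e8 : List ℤ :=
  [2, -1, 0, 1, -1, 0, 0, 0, -1, 1, 0, -1]

/-- period 14, rank 7 -/
def e9 : List ℤ :=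
  [2, -1, 0, 1, -1, 0, 1, -2, 1, 0, -1, 1, 0, -1]

/-- period 20, rank 8 -/
def e10 : List ℤ :=
  [2, -1, 0, 1, -1, 0, 1, -1, 0, 1, -2, 1, 0, -1, 1, 0, -1, 1, 0, -1]

/-- period 24, rank 8 -/
def e11 : List ℤ :=
  [2, -1, 0, 1, -1, 0, 1, -1, 1, 0, 0, 0, 0, 0, 0, 0, 1, -1, 1, 0, -1, 1, 0, -1]

/-- period 18, rank 6 -/
def e12 : List ℤ :=
  [2, -1, 0, 1, -1, 1, -1, 0, 1, -2, 1, 0, -1, 1, -1, 1, 0, -1]

/-- period 30, rank 8 -/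
def e13 : List ℤ :=
  [2, -1, 0, 1, -1, 1, 0, -1, 1, 0, -1, 1, -1, 0, 1, -2, 1, 0, -1, 1, -1, 0, 1, -1, 0, 1, -1, 1, 0, -1]

/-- period 8, rank 8 -/
def e14 : List ℤ :=
  [2, -1, 0, 1, -1, 1, 0, -1]

/-- period 15, rank 7 -/
def e15 : List ℤ :=
  [2, -1, 0, 1, -1, 1, 0, 0, 0, 0, 1, -1, 1, 0, -1]

/-- period 6, rank 4 -/
def e16 : List ℤ :=
  [2, -1, 0, 1, 0, -1]

/-- the exceptional functions -/
def exc : List (List ℤ) := [e1, e2, e3, e4, e5, e6, e7, e8, e9, e10, e11, e12, e13, e14, e15, e16]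

/-- the exceptional functions without negative orders -/
def excPos : List (List ℤ) := [e1, e3, e6, e7, e11, e14, e15, e16]

/-- the list of all sequences of orders with `K 1 = K 2 = 0` -/
def Listed (K : ℕ → ℤ) : Prop :=
  K 0 = 1 ∧ ((∀ m, 1 ≤ m → K m = 0) ∨
    (∃ N, 4 ≤ N ∧ ∀ m, K (m + 1) - K m = patA N (m + 1)) ∨
    (∃ N, 4 ≤ N ∧ ∀ m, K (m + 1) - K m = patD N (m + 1)) ∨
    ∃ l ∈ exc, ∀ m, K (m + 1) - K m = per l (m + 1))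

/-- the order of `Sym^k ⊗ det^a` for the sequence `K` -/
def ordK (K : ℕ → ℤ) (k : ℕ) (a : ℤ) : ℤ := if (k : ℤ) + 2 * a = 0 then K (k / 2) else 0

/-- the conclusion of the existence theorem: all L-functions of a family -/
def OccursAll (K : ℕ → ℤ) : Prop :=
  ∀ (ι : Type) [Countable ι] (d : ι → ℕ) (B : ∀ i, Nat.Primes → Fin (d i) → ℂ),
    (∀ i p j, ‖B i p j‖ ≤ 1) → ∃ α β : Nat.Primes → Circle, ∀ (k : ℕ) (a : ℤ),
      (∃ g : ℂ → ℂ, DifferentiableOn ℂ g (HP (1 / 2)) ∧ ∀ s : ℂ, 1 < s.re →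
        LS α β (fun p => (α p * β p) ^ a) k s = riemannZeta s ^ ordK K k a * Complex.exp (g s)) ∧
      ∀ i, ∃ g : ℂ → ℂ, DifferentiableOn ℂ g (HP (1 / 2)) ∧ ∀ s : ℂ, 1 < s.re →
        LST α β (fun p => (α p * β p) ^ a) (B i) k s = LEuler (B i) s ^ ordK K k a * Complex.exp (g s)

end Pool.Agent.H4.RL
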