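import Pool.Agent.H4.RL.Mean
import Pool.Agent.H4.ST.Pos

/-! Existence of families with given orders. -/

set_option autoImplicit false

namespace Pool.Agent.H4.RL

open Pool.Agent.H70.CS Pool.Agent.H4.ST Filter Topology MeasureTheory Pool.Agent.H4.Coset
  ComplexConjugate

variable {n : ℕ}

/-- the measure with the density of a piece -/
lemma exists_measure_piece (P : Piece (Weight n)) (hpos : ∀ y ∈ ann P.Λ, 0 ≤ (den P y).re)
    (hev : ∀ l, P.val (-l) = P.val l) {c : ℝ} (hc : 0 < c) (h0 : (P.val 0 : ℝ) = c) :
    ∃ μ : Measure (Torus n), IsProbabilityMeasure μ ∧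
      ∀ l, ∫ y, (chr y l : ℂ) ∂μ = (P.val l : ℂ) / c := by
  have hrc : Continuous fun y : Torus n => (den P y).re / c :=
    (Complex.continuous_re.comp (continuous_den P)).div_const _
  have hrc' : Continuous fun y : ann P.Λ => (den P y).re / c := hrc.comp continuous_subtype_val
  have hr0 : ∀ y : ann P.Λ, 0 ≤ (den P y).re / c := fun y => div_nonneg (hpos y y.2) hc.le
  have hint : Integrable (fun y : ann P.Λ => (den P y).re / c) (hm P.Λ) := by
    have hcc : Continuous fun y : Torus n => (((den P y).re / c : ℝ) : ℂ) :=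
      Complex.continuous_ofReal.comp hrc
    exact (integrable_ann P.Λ hcc).re.congr (Eventually.of_forall fun y => Complex.ofReal_re _)
  have h1 : ∫ y : ann P.Λ, (den P y).re / c ∂(hm P.Λ) = 1 := by
    have h2 := integral_re_den P 1 0
    simp only [one_mul] at h2
    have e : ∀ y : ann P.Λ, ((chr (y : Torus n) (0 : Weight n) : ℂ) * den P y).re = (den P y).re := by
      intro y
      rw [chr_zero, Circle.coe_one, one_mul]
    simp only [e] at h2
    rw [integral_div, h2, Complex.intCast_re, h0, div_self hc.ne']
  set ν : Measure (ann P.Λ) :=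
    (hm P.Λ).withDensity fun y => ENNReal.ofReal ((den P y).re / c) with hν
  have hνp : IsProbabilityMeasure ν := ⟨by
    rw [hν, withDensity_apply _ MeasurableSet.univ, Measure.restrict_univ,
      ← ofReal_integral_eq_lintegral_ofReal hint (Eventually.of_forall hr0), h1, ENNReal.ofReal_one]⟩
  have hmv : Measurable (Subtype.val : ann P.Λ → Torus n) := measurable_subtype_coe
  refine ⟨ν.map Subtype.val, Measure.isProbabilityMeasure_map hmv.aemeasurable, fun l => ?_⟩
  have hsm : AEStronglyMeasurable (fun y : Torus n => (chr y l : ℂ)) (ν.map Subtype.val) :=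
    (chC l).continuous.aestronglyMeasurable
  have hmeas : Measurable fun y : ann P.Λ => ENNReal.ofReal ((den P y).re / c) :=
    ENNReal.measurable_ofReal.comp hrc'.measurable
  rw [integral_map hmv.aemeasurable hsm, hν, integral_withDensity_eq_integral_toReal_smul hmeas
    (Eventually.of_forall fun y => ENNReal.ofReal_lt_top)]
  have e1 : ∀ y : ann P.Λ, (ENNReal.ofReal ((den P y).re / c)).toReal • (chr (y : Torus n) l : ℂ) =
      (1 / (2 * c) : ℂ) * ((chr (y : Torus n) l : ℂ) * den P y) +
      (1 / (2 * c) : ℂ) * conj ((chr (y : Torus n) (-l) : ℂ) * den P y) := by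
    intro y
    rw [ENNReal.toReal_ofReal (hr0 y), chr_neg, map_mul, Circle.coe_inv_eq_conj, Complex.conj_conj,
      Complex.real_smul]
    have h3 : (((den P y).re / c : ℝ) : ℂ) = (1 / (2 * c) : ℂ) * (den P y + conj (den P y)) := by
      rw [Complex.add_conj]
      push_cast
      have : (c : ℂ) ≠ 0 := by exact_mod_cast hc.ne'
      field_simp
    rw [h3]
    ring
  simp only [e1]
  have hcon : ∀ l : Weight n, Continuous fun y : Torus n => (chr y l : ℂ) * den P y := fun l =>
    (chC l).continuous.mul (continuous_den P)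
  have hcon2 : Continuous fun y : Torus n => conj ((chr y (-l) : ℂ) * den P y) :=
    Complex.continuous_conj.comp (hcon (-l))
  rw [integral_add ((integrable_ann P.Λ (hcon l)).const_mul _)
    ((integrable_ann P.Λ hcon2).const_mul _), integral_const_mul, integral_const_mul, integral_conj,
    integral_den, integral_den, hev]
  have : conj (P.val l : ℂ) = (P.val l : ℂ) := map_intCast _ _
  rw [this]
  have : (c : ℂ) ≠ 0 := by exact_mod_cast hc.ne'
  field_simp
  ring

/-- there is a probability measure on the torus with the moments given by `K` -/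
def Occurs (K : ℕ → ℤ) : Prop :=
  ∃ μ : Measure (Torus 1), IsProbabilityMeasure μ ∧
    ∀ l : Weight 1, ∫ y, (chr y l : ℂ) ∂μ = if l.1 = 0 then (gg K (l.2 0) : ℂ) / 2 else 0

open scoped Classical in
/-- families from densities -/
theorem occurs_of_density {K : ℕ → ℤ} (R : ℕ) (L : List (ℤ × ℤ))
    (hval : ∀ m : ℤ, (L.map fun t => if (R : ℤ) ∣ m - t.2 then t.1 else 0).sum = gg K m)
    (hpos : ∀ z : Circle, z ^ R = 1 →
      0 ≤ ((L.map fun t => (t.1 : ℂ) * conj ((z ^ t.2 : Circle) : ℂ)).sum).re) : Occurs K := by
  let P : Piece (Weight 1) := ⟨AddSubgroup.zmultiples (wt R), L.map fun t => (t.1, wt t.2)⟩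
  have hmem : ∀ l : Weight 1, l ∈ AddSubgroup.zmultiples (wt R) ↔ l.1 = 0 ∧ (R : ℤ) ∣ l.2 0 := by
    intro l
    rw [AddSubgroup.mem_zmultiples_iff]
    constructor
    · rintro ⟨k, rfl⟩
      refine ⟨by simp [wt], ⟨k, ?_⟩⟩
      simp [wt, mul_comm]
    · rintro ⟨h1, k, hk⟩
      refine ⟨k, ?_⟩
      ext i
      · simp [wt, h1]
      · have : i = 0 := Subsingleton.elim _ _
        subst this
        simp [wt, hk, mul_comm]
  have hPval : ∀ l : Weight 1, P.val l = if l.1 = 0 then gg K (l.2 0) else 0 := by
    intro l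
    unfold Piece.val
    simp only [P, List.map_map, Function.comp_def, hmem]
    by_cases h1 : l.1 = 0
    · rw [if_pos h1, ← hval]
      congr 1
      apply List.map_congr_left
      intro t _
      simp [wt, h1]
    · rw [if_neg h1]
      apply List.sum_eq_zero
      intro x hx
      rw [List.mem_map] at hx
      obtain ⟨t, -, rfl⟩ := hx
      rw [if_neg]
      simp [wt, h1]
  have hev : ∀ l, P.val (-l) = P.val l := by
    intro l
    rw [hPval, hPval]
    simp [gg]
  obtain ⟨μ, hμ, hint⟩ := exists_measure_piece P (fun y hy => by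
    have hz : (y.2 0) ^ R = 1 := by
      have := hy (wt R) (AddSubgroup.mem_zmultiples _)
      rw [chr_wt] at this
      exact_mod_cast this
    have := hpos (y.2 0) hz
    unfold den
    simp only [P, List.map_map, Function.comp_def, chr_wt]
    exact this) hev (c := 2) (by norm_num) (by rw [hPval]; simp [gg])
  refine ⟨μ, hμ, fun l => ?_⟩
  rw [hint, hPval]
  split_ifs <;> simp

end Pool.Agent.H4.RL
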