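import Pool.Agent.H4.RL.Occ

/-! Final forms: low orders, and the groups `A₄`, `S₄`, `A₅`. -/

set_option autoImplicit false

namespace Pool.Agent.H4.RL

open Real

lemma listed_of_psum {l : List ℤ} (hl : l ∈ exc) {K : ℕ → ℤ} (h0 : K 0 = 1)
    (h : ∀ m, K m = psum l m) : Listed K := by
  refine ⟨h0, Or.inr (Or.inr (Or.inr ⟨l, hl, fun m => ?_⟩))⟩
  rw [h, h, psum, psum, Finset.sum_range_succ]
  ring

lemma excPos_subset : ∀ l ∈ excPos, l ∈ exc := by decide +kernel

/-- **No zeros.** -/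
theorem nonneg_iff (K : ℕ → ℤ) : (Listed K ∧ ∀ m, 0 ≤ K m) ↔
    K 0 = 1 ∧ ((∀ m, 1 ≤ m → K m = 0) ∨ ∃ l ∈ excPos, ∀ m, K m = psum l m) := by
  constructor
  · rintro ⟨h, hn⟩
    exact ⟨h.1, nonneg_list h hn⟩
  · rintro ⟨h0, h | ⟨l, hl, h⟩⟩
    · refine ⟨⟨h0, Or.inl h⟩, fun m => ?_⟩
      rcases Nat.eq_zero_or_pos m with rfl | hm
      · rw [h0]; norm_num
      · rw [h m hm]
    · refine ⟨listed_of_psum (excPos_subset l hl) h0 h, fun m => ?_⟩
      rw [h]
      exact excPos_nonneg l hl m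

/-- **No poles up to `Sym¹²`.** -/
theorem six {K : ℕ → ℤ} (h : Listed K) (hn : ∀ m, 0 ≤ K m) (h3 : K 3 = 0) (h4 : K 4 = 0)
    (h5 : K 5 = 0) (h6 : K 6 = 0) (m : ℕ) (hm : 1 ≤ m) : K m = 0 := by
  rcases nonneg_list h hn with hc | ⟨l, hl, hc⟩
  · exact hc m hm
  · exfalso
    rcases excPos_six l hl with h' | h' | h' | h'
    · exact h' (by rw [← hc, h3])
    · exact h' (by rw [← hc, h4])
    · exact h' (by rw [← hc, h5])
    · exact h' (by rw [← hc, h6])

lemma exc_four : ∀ l ∈ exc, psum l 3 = 0 → psum l 4 = 0 → l = e1 ∨ l = e2 ∨ l = e3 := by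
  decide +kernel

/-- **The case `K 3 = K 4 = 0`.** -/
theorem four {K : ℕ → ℤ} (h : Listed K) (h3 : K 3 = 0) (h4 : K 4 = 0) :
    (∀ m, 1 ≤ m → K m = 0) ∨ (∃ N, 6 ≤ N ∧ ∀ m, K (m + 1) - K m = patA N (m + 1)) ∨
    (∃ N, 6 ≤ N ∧ ∀ m, K (m + 1) - K m = patD N (m + 1)) ∨
    ∃ l, (l = e1 ∨ l = e2 ∨ l = e3) ∧ ∀ m, K m = psum l m := by
  obtain ⟨h0, h | ⟨N, hN, h⟩ | ⟨N, hN, h⟩ | ⟨l, hl, h⟩⟩ := h
  · exact Or.inl h
  · refine Or.inr (Or.inl ⟨N, ?_, h⟩)
    have := patA_neg hN h0 h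
    by_contra hlt
    have : N = 4 ∨ N = 5 := by omega
    rcases this with rfl | rfl
    · norm_num at this; omega
    · norm_num at this; omega
  · refine Or.inr (Or.inr (Or.inl ⟨N, ?_, h⟩))
    have h1 := patD_neg hN h0 h
    have h2 := h (N - 1)
    have e3 : N - 1 + 1 = N := by omega
    rw [e3, patD_eq hN, Nat.mod_eq_of_lt (by omega : N < 2 * N), if_neg (by omega),
      if_neg (by omega), if_pos rfl, h1] at h2
    by_contra hlt
    have : N = 4 ∨ N = 5 := by omega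
    rcases this with rfl | rfl
    · norm_num at h2; omega
    · norm_num at h2; omega
  · refine Or.inr (Or.inr (Or.inr ⟨l, exc_four l hl ?_ ?_, eq_psum h0 h⟩))
    · rw [← eq_psum h0 h, h3]
    · rw [← eq_psum h0 h, h4]

/-! ### the finite groups -/

lemma cos_two (m : ℕ) : cos (π * m) = if m % 2 = 0 then 1 else -1 := by
  rw [mul_comm, cos_nat_mul_pi]
  split_ifs with h
  · exact Even.neg_one_pow (Nat.even_iff.2 h)
  · exact Odd.neg_one_pow (Nat.odd_iff.2 (by omega))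

lemma cos_red (a : ℕ) (b m : ℕ) (hb : 0 < b) : cos (2 * π * a / b * m) =
    cos (2 * π * a / b * (m % b : ℕ)) := by
  have hb' : (b : ℝ) ≠ 0 := by exact_mod_cast hb.ne'
  have h1 : (m : ℝ) = (m % b : ℕ) + b * (m / b : ℕ) := by
    exact_mod_cast (Nat.mod_add_div m b).symm
  have h2 : 2 * π * a / b * m = 2 * π * a / b * (m % b : ℕ) + (a * (m / b) : ℕ) * (2 * π) := by
    rw [h1]
    push_cast
    field_simp
  rw [h2, cos_add_nat_mul_two_pi]

lemma cos_three (m : ℕ) : cos (2 * π / 3 * m) = if m % 3 = 0 then 1 else -1 / 2 := by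
  have h := cos_red 1 3 m (by norm_num)
  norm_num at h
  rw [h]
  have hlt : m % 3 < 3 := Nat.mod_lt _ (by norm_num)
  have c1 : cos (2 * π / 3) = -1 / 2 := by
    rw [show 2 * π / 3 = π - π / 3 by ring, cos_pi_sub, cos_pi_div_three]; norm_num
  generalize m % 3 = r at *
  interval_cases r
  · simp
  · simp only [Nat.cast_one, mul_one, c1]; norm_num
  · rw [show 2 * π / 3 * ((2 : ℕ) : ℝ) = 2 * (2 * π / 3) by push_cast; ring, cos_two_mul, c1]
    norm_num

lemma cos_four (m : ℕ) : cos (π / 2 * m) =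
    if m % 4 = 0 then 1 else if m % 4 = 2 then -1 else 0 := by
  have h := cos_red 1 4 m (by norm_num)
  norm_num at h
  have e : π / 2 * (m : ℝ) = 2 * π / 4 * m := by ring
  rw [e, h]
  have hlt : m % 4 < 4 := Nat.mod_lt _ (by norm_num)
  generalize m % 4 = r at *
  interval_cases r
  · simp
  · rw [show 2 * π / 4 * ((1 : ℕ) : ℝ) = π / 2 by push_cast; ring, cos_pi_div_two]; norm_num
  · rw [show 2 * π / 4 * ((2 : ℕ) : ℝ) = π by push_cast; ring, cos_pi]; norm_num
  · rw [show 2 * π / 4 * ((3 : ℕ) : ℝ) = π + π / 2 by push_cast; ring, cos_add]; norm_num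

lemma cos_five (m : ℕ) : cos (2 * π / 5 * m) + cos (4 * π / 5 * m) =
    if m % 5 = 0 then 2 else -1 / 2 := by
  have h := cos_red 1 5 m (by norm_num)
  have h' := cos_red 2 5 m (by norm_num)
  norm_num at h h'
  have e' : 4 * π / 5 * (m : ℝ) = 2 * π * 2 / 5 * m := by ring
  rw [e', h, h']
  have hlt : m % 5 < 5 := Nat.mod_lt _ (by norm_num)
  -- `x = cos (2π/5)`, `y = cos (4π/5)`
  set x := cos (2 * π / 5) with hx
  set y := cos (2 * π * 2 / 5) with hy
  have hy1 : y = 2 * x ^ 2 - 1 := by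
    rw [hy, hx, ← cos_two_mul]; congr 1; ring
  have hx1 : x = 2 * y ^ 2 - 1 := by
    rw [hy, hx, ← cos_two_mul, ← cos_two_pi_sub]; congr 1; ring
  have hne : x ≠ y := by
    intro he
    have h1 := strictAntiOn_cos (a := 2 * π / 5) (b := 2 * π * 2 / 5)
      ⟨by positivity, by linarith [pi_pos]⟩ ⟨by positivity, by linarith [pi_pos]⟩
      (by linarith [pi_pos])
    rw [← hx, ← hy] at h1
    linarith
  have hsum : x + y = -1 / 2 := by
    have h1 : (x - y) * (2 * (x + y) + 1) = 0 := by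
      linear_combination hx1 - hy1
    rcases mul_eq_zero.1 h1 with h2 | h2
    · exact absurd (sub_eq_zero.1 h2) hne
    · linarith
  generalize m % 5 = r at *
  interval_cases r
  · norm_num
  · simp only [Nat.cast_one, mul_one]
    rw [← hx, ← hy, hsum]; norm_num
  · have e1 : cos (2 * π / 5 * ((2 : ℕ) : ℝ)) = y := by rw [hy]; congr 1; push_cast; ring
    have e2 : cos (2 * π * 2 / 5 * ((2 : ℕ) : ℝ)) = x := by
      rw [hx, ← cos_two_pi_sub]; congr 1; push_cast; ring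
    rw [e1, e2, add_comm, hsum]; norm_num
  · have e1 : cos (2 * π / 5 * ((3 : ℕ) : ℝ)) = y := by
      rw [hy, ← cos_two_pi_sub]; congr 1; push_cast; ring
    have e2 : cos (2 * π * 2 / 5 * ((3 : ℕ) : ℝ)) = x := by
      rw [hx, ← cos_add_two_pi (2 * π / 5)]; congr 1; push_cast; ring
    rw [e1, e2, add_comm, hsum]; norm_num
  · have e1 : cos (2 * π / 5 * ((4 : ℕ) : ℝ)) = x := by
      rw [hx, ← cos_two_pi_sub]; congr 1; push_cast; ring
    have e2 : cos (2 * π * 2 / 5 * ((4 : ℕ) : ℝ)) = y := by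
      rw [hy, ← cos_two_pi_sub, ← cos_add_two_pi]; congr 1; push_cast; ring
    rw [e1, e2, hsum]; norm_num

lemma per_eq {l : List ℤ} {m r : ℕ} (h : m % l.length = r) : per l m = l.getD r 0 := by
  rw [per, h]

/-- `A₄` has one rotation by `0`, three by `π` and eight by `2π/3` -/
theorem group_A4 (m : ℕ) : (12 : ℝ) * (per e16 m : ℤ) =
    2 * (1 + 3 * cos (π * m) + 8 * cos (2 * π / 3 * m)) := by
  rw [cos_two, cos_three]
  have hlt : m % 6 < 6 := Nat.mod_lt _ (by norm_num)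
  have h2 : m % 2 = m % 6 % 2 := by omega
  have h3 : m % 3 = m % 6 % 3 := by omega
  rw [per_eq (l := e16) (r := m % 6) rfl, h2, h3]
  generalize m % 6 = r at *
  interval_cases r <;> norm_num [e16]

/-- `S₄` has one rotation by `0`, nine by `π`, eight by `2π/3` and six by `π/2` -/
theorem group_S4 (m : ℕ) : (24 : ℝ) * (per e7 m : ℤ) =
    2 * (1 + 9 * cos (π * m) + 8 * cos (2 * π / 3 * m) + 6 * cos (π / 2 * m)) := by
  rw [cos_two, cos_three, cos_four]
  have hlt : m % 12 < 12 := Nat.mod_lt _ (by norm_num)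
  have h2 : m % 2 = m % 12 % 2 := by omega
  have h3 : m % 3 = m % 12 % 3 := by omega
  have h4 : m % 4 = m % 12 % 4 := by omega
  rw [per_eq (l := e7) (r := m % 12) rfl, h2, h3, h4]
  generalize m % 12 = r at *
  interval_cases r <;> norm_num [e7]

/-- `A₅` has one rotation by `0`, `15` by `π`, `20` by `2π/3`, `12` by `2π/5` and `12` by `4π/5` -/
theorem group_A5 (m : ℕ) : (60 : ℝ) * (per e1 m : ℤ) =
    2 * (1 + 15 * cos (π * m) + 20 * cos (2 * π / 3 * m) +
      12 * (cos (2 * π / 5 * m) + cos (4 * π / 5 * m))) := by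
  rw [cos_two, cos_three, cos_five]
  have hlt : m % 30 < 30 := Nat.mod_lt _ (by norm_num)
  have h2 : m % 2 = m % 30 % 2 := by omega
  have h3 : m % 3 = m % 30 % 3 := by omega
  have h5 : m % 5 = m % 30 % 5 := by omega
  rw [per_eq (l := e1) (r := m % 30) rfl, h2, h3, h5]
  generalize m % 30 = r at *
  interval_cases r <;> norm_num [e1]

end Pool.Agent.H4.RL
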