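import Pool.Agent.H4.RL.PDM
import Pool.Agent.H4.RL.Tree

/-! The classification on an interval (generated). -/

set_option autoImplicit false
set_option linter.unusedSimpArgs false
set_option linter.unusedVariables false

namespace Pool.Agent.H4.RL

/-- the conclusion of the classification on an interval -/
def ConclM (G : ℤ → ℤ) (M : ℕ) : Prop :=
  (∀ m : ℕ, 2 ≤ m → m ≤ M → G m = 0) ∨ (∃ N, 4 ≤ N ∧ ∀ m : ℕ, m ≤ M → G m = patA N m) ∨
    (∃ N, 4 ≤ N ∧ ∀ m : ℕ, m ≤ M → G m = patD N m) ∨ ∃ l ∈ exc, ∀ m : ℕ, m ≤ M → G m = per l m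

lemma zerosM {G : ℤ → ℤ} {M : ℕ} (h : PosM G M) (hM : 7 ≤ M) (h1 : G 1 = -1) (h2 : G 2 = 0)
    (h3 : G 3 = 0) (h4 : G 4 = 0) (h5 : G 5 = 0) (h6 : G 6 = 0) (h7 : G 7 = 0) : ConclM G M := by
  by_cases ha : ∀ m : ℕ, 2 ≤ m → m ≤ M → G m = 0
  · exact Or.inl ha
  · push Not at ha
    obtain ⟨d, ⟨hd2, hdM, hdne⟩, hmin⟩ : ∃ d : ℕ, (2 ≤ d ∧ d ≤ M ∧ G d ≠ 0) ∧
        ∀ j : ℕ, 2 ≤ j → j < d → G j = 0 := by
      classical
      exact ⟨Nat.find ha, Nat.find_spec ha, fun j hj hj2 => by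
        by_contra hne
        exact Nat.find_min ha hj2 ⟨hj, by have := (Nat.find_spec ha).2.1; omega, hne⟩⟩
    clear ha
    have hd : 8 ≤ d := by
      by_contra hlt
      have : d < 8 := by omega
      interval_cases d <;> simp_all
    have hz : ∀ j : ℤ, 2 ≤ j → j < d → G j = 0 := fun j hj hj2 => by
      obtain ⟨i, rfl⟩ : ∃ i : ℕ, j = i := ⟨j.toNat, by omega⟩
      exact hmin i (by omega) (by omega)
    have hcase : (G d = -1 ∧ (d + 1 ≤ M → G (d + 1) = 2)) ∨ (G d = 1 ∧ (d + 1 ≤ M → G (d + 1) = -2)) := by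
      by_cases hlast : d = M
      · subst hlast
        rcases h.last h1 (by omega) hz hdne with hc | hc
        · exact Or.inl ⟨hc, fun h => by omega⟩
        · exact Or.inr ⟨hc, fun h => by omega⟩
      · rcases h.chain h1 hd hz hdne (by omega) with hc | hc
        · exact Or.inl ⟨hc.1, fun _ => hc.2⟩
        · exact Or.inr ⟨hc.1, fun _ => hc.2⟩
    rcases hcase with hc | hc
    · refine Or.inr (Or.inl ⟨d + 1, by omega, h.patA_of h1 (by omega)
        (fun j hj hj2 _ => hmin j hj (by omega)) (fun _ => ?_) (fun hN => ?_)⟩)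
      · rw [Nat.add_sub_cancel]; exact hc.1
      · push_cast; exact hc.2 hN
    · refine Or.inr (Or.inr (Or.inl ⟨d + 1, by omega, h.patD_of h1 (by omega)
        (fun j hj hj2 _ => hmin j hj (by omega)) (fun _ => ?_) (fun hN => ?_)⟩))
      · rw [Nat.add_sub_cancel]; exact hc.1
      · push_cast; exact hc.2 hN

lemma f_0_0_0_0_0_1 {G : ℤ → ℤ} {M : ℕ} (h : PosM G M) (hM8 : M ≠ 8) (hM : 7 ≤ M) (h1 : G 1 = -1) (h2 : G 2 = 0) (h3 : G 3 = 0) (h4 : G 4 = 0) (h5 : G 5 = 0) (h6 : G 6 = 0) (h7 : G 7 = 1) : ConclM G M := by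
  by_cases hs : M = 7
  · subst hs
    refine Or.inr (Or.inr (Or.inl ⟨8, by norm_num, fun j hj => ?_⟩))
    interval_cases j <;> simp [patD, h.zero, h1, h2, h3, h4, h5, h6, h7]
  have hu := h.Q_nonneg [2, 3, 2, 1, 0, -1, -2, -3, -2] (by simp only [List.length_cons, List.length_nil]; omega)
  have hl := h.Q_nonneg [1, 0, 0, 0, 0, 0, 0, 0, 1] (by simp only [List.length_cons, List.length_nil]; omega)
  simp only [Q, lin, Int.reduceAdd, h.zero, h1, h2, h3, h4, h5, h6, h7] at hu hl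
  have h8 : G 8 = -2 ∨ G 8 = -1 := by omega
  rcases h8 with h8 | h8
  · refine Or.inr (Or.inr (Or.inl ⟨8, by norm_num, h.patD_of h1 (by norm_num) (fun j hj hj2 _ => ?_) (fun _ => ?_)
      (fun hN => ?_)⟩))
    · have : j ≤ 6 := by omega
      interval_cases j <;> assumption
    · exact h7
    · exact h8
  · exfalso
    have h0 : Q G [-2, -3, -2, -1, 0, 1, 2, 3, 2] = 0 := by simp only [Q, lin, Int.reduceAdd, h.zero, h1, h2, h3, h4, h5, h6, h7, h8]; norm_num
    have r1 := h.lin_eq_zero h0 1 (by simp only [List.length_cons, List.length_nil]; omega)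
    simp only [Nat.cast_one, lin, Int.reduceAdd, h1, h2, h3, h4, h5, h6, h7, h8] at r1
    omega

lemma f_0_0_0_0_0 {G : ℤ → ℤ} {M : ℕ} (h : PosM G M) (hM8 : M ≠ 8) (hM : 6 ≤ M) (h1 : G 1 = -1) (h2 : G 2 = 0) (h3 : G 3 = 0) (h4 : G 4 = 0) (h5 : G 5 = 0) (h6 : G 6 = 0) : ConclM G M := by
  by_cases hs : M = 6
  · subst hs
    exact Or.inl fun j hj hj2 => by interval_cases j <;> assumption
  have hu := h.Q_nonneg [7, 5, 3, 1, -1, -3, -5, -7] (by simp only [List.length_cons, List.length_nil]; omega)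
  have hl := h.Q_nonneg [1, 1, 1, 1, 1, 1, 1, 1] (by simp only [List.length_cons, List.length_nil]; omega)
  simp only [Q, lin, Int.reduceAdd, h.zero, h1, h2, h3, h4, h5, h6] at hu hl
  have h7 : G 7 = -1 ∨ G 7 = 0 ∨ G 7 = 1 := by omega
  rcases h7 with h7 | h7 | h7
  · have h0 : Q G [1, 1, 1, 1, 1, 1, 1, 1] = 0 := by simp only [Q, lin, Int.reduceAdd, h.zero, h1, h2, h3, h4, h5, h6, h7]; norm_num
    refine Or.inr (Or.inl ⟨8, by norm_num, h.patA_of h1 (by norm_num) (fun j hj hj2 _ => ?_) (fun _ => ?_)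
      (fun hN => ?_)⟩)
    · have : j ≤ 6 := by omega
      interval_cases j <;> assumption
    · exact h7
    · have r1 := h.lin_eq_zero h0 1 (by simp only [List.length_cons, List.length_nil]; omega)
      simp only [Nat.cast_one, lin, Int.reduceAdd, h1, h2, h3, h4, h5, h6, h7] at r1
      push_cast
      omega
  · exact zerosM h (by omega) h1 h2 h3 h4 h5 h6 h7
  · exact f_0_0_0_0_0_1 h hM8 (by omega) h1 h2 h3 h4 h5 h6 h7

lemma f_0_0_0_0_1_m1 {G : ℤ → ℤ} {M : ℕ} (h : PosM G M) (hM8 : M ≠ 8) (hM : 7 ≤ M) (h1 : G 1 = -1) (h2 : G 2 = 0) (h3 : G 3 = 0) (h4 : G 4 = 0) (h5 : G 5 = 0) (h6 : G 6 = 1) (h7 : G 7 = -1) : ConclM G M := by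
  by_cases hs : M = 7
  · subst hs
    refine Or.inr (Or.inr (Or.inr ⟨e1, by simp [exc], fun j hj => ?_⟩))
    interval_cases j <;> simp [per, e1, h.zero, h1, h2, h3, h4, h5, h6, h7]
  have hu := h.Q_nonneg [1, 2, 2, 1, 0, -1, -2, -2, -1] (by simp only [List.length_cons, List.length_nil]; omega)
  have hl := h.Q_nonneg [2, 1, -1, -1, -1, -1, -1, 1, 2] (by simp only [List.length_cons, List.length_nil]; omega)
  simp only [Q, lin, Int.reduceAdd, h.zero, h1, h2, h3, h4, h5, h6, h7] at hu hl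
  have h8 : G 8 = 0 := by omega
  · have h0 : Q G ([-1, -2, -2, -1, 0, 1, 2, 2] ++ [1]) = 0 := by simp only [List.cons_append, List.nil_append, Q, lin, Int.reduceAdd, h.zero, h1, h2, h3, h4, h5, h6, h7, h8]; norm_num
    refine Or.inr (Or.inr (Or.inr ⟨e1, by simp [exc], h.per_of h0 (by decide) (by decide) ?_⟩))
    intro j hj _
    simp only [List.length_cons, List.length_nil] at hj
    interval_cases j <;> simp [per, e1, h.zero, h1, h2, h3, h4, h5, h6, h7, h8]

lemma f_0_0_0_0_1 {G : ℤ → ℤ} {M : ℕ} (h : PosM G M) (hM8 : M ≠ 8) (hM : 6 ≤ M) (h1 : G 1 = -1) (h2 : G 2 = 0) (h3 : G 3 = 0) (h4 : G 4 = 0) (h5 : G 5 = 0) (h6 : G 6 = 1) : ConclM G M := by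
  by_cases hs : M = 6
  · subst hs
    refine Or.inr (Or.inr (Or.inl ⟨7, by norm_num, fun j hj => ?_⟩))
    interval_cases j <;> simp [patD, h.zero, h1, h2, h3, h4, h5, h6]
  have hu := h.Q_nonneg [7, 10, 6, 2, -2, -6, -10, -7] (by simp only [List.length_cons, List.length_nil]; omega)
  have hl := h.Q_nonneg [1, 0, 0, 0, 0, 0, 0, 1] (by simp only [List.length_cons, List.length_nil]; omega)
  simp only [Q, lin, Int.reduceAdd, h.zero, h1, h2, h3, h4, h5, h6] at hu hl
  have h7 : G 7 = -2 ∨ G 7 = -1 := by omega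
  rcases h7 with h7 | h7
  · refine Or.inr (Or.inr (Or.inl ⟨7, by norm_num, h.patD_of h1 (by norm_num) (fun j hj hj2 _ => ?_) (fun _ => ?_)
      (fun hN => ?_)⟩))
    · have : j ≤ 5 := by omega
      interval_cases j <;> assumption
    · exact h6
    · exact h7
  · exact f_0_0_0_0_1_m1 h hM8 (by omega) h1 h2 h3 h4 h5 h6 h7

lemma f_0_0_0_0 {G : ℤ → ℤ} {M : ℕ} (h : PosM G M) (hM8 : M ≠ 8) (hM : 5 ≤ M) (h1 : G 1 = -1) (h2 : G 2 = 0) (h3 : G 3 = 0) (h4 : G 4 = 0) (h5 : G 5 = 0) : ConclM G M := by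
  by_cases hs : M = 5
  · subst hs
    exact Or.inl fun j hj hj2 => by interval_cases j <;> assumption
  have hu := h.Q_nonneg [3, 2, 1, 0, -1, -2, -3] (by simp only [List.length_cons, List.length_nil]; omega)
  have hl := h.Q_nonneg [1, 1, 1, 1, 1, 1, 1] (by simp only [List.length_cons, List.length_nil]; omega)
  simp only [Q, lin, Int.reduceAdd, h.zero, h1, h2, h3, h4, h5] at hu hl
  have h6 : G 6 = -1 ∨ G 6 = 0 ∨ G 6 = 1 := by omega
  rcases h6 with h6 | h6 | h6
  · have h0 : Q G [1, 1, 1, 1, 1, 1, 1] = 0 := by simp only [Q, lin, Int.reduceAdd, h.zero, h1, h2, h3, h4, h5, h6]; norm_num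
    refine Or.inr (Or.inl ⟨7, by norm_num, h.patA_of h1 (by norm_num) (fun j hj hj2 _ => ?_) (fun _ => ?_)
      (fun hN => ?_)⟩)
    · have : j ≤ 5 := by omega
      interval_cases j <;> assumption
    · exact h6
    · have r1 := h.lin_eq_zero h0 1 (by simp only [List.length_cons, List.length_nil]; omega)
      simp only [Nat.cast_one, lin, Int.reduceAdd, h1, h2, h3, h4, h5, h6] at r1
      push_cast
      omega
  · exact f_0_0_0_0_0 h hM8 (by omega) h1 h2 h3 h4 h5 h6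
  · exact f_0_0_0_0_1 h hM8 (by omega) h1 h2 h3 h4 h5 h6

lemma f_0_0_0_1_m1_0 {G : ℤ → ℤ} {M : ℕ} (h : PosM G M) (hM8 : M ≠ 8) (hM : 7 ≤ M) (h1 : G 1 = -1) (h2 : G 2 = 0) (h3 : G 3 = 0) (h4 : G 4 = 0) (h5 : G 5 = 1) (h6 : G 6 = -1) (h7 : G 7 = 0) : ConclM G M := by
  by_cases hs : M = 7
  · subst hs
    refine Or.inr (Or.inr (Or.inr ⟨e2, by simp [exc], fun j hj => ?_⟩))
    interval_cases j <;> simp [per, e2, h.zero, h1, h2, h3, h4, h5, h6, h7]
  have hu := h.Q_nonneg [1, 1, 1, 1, 0, -1, -1, -1, -1] (by simp only [List.length_cons, List.length_nil]; omega)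
  have hl := h.Q_nonneg [1, 1, 0, -1, -1, -1, 0, 1, 1] (by simp only [List.length_cons, List.length_nil]; omega)
  simp only [Q, lin, Int.reduceAdd, h.zero, h1, h2, h3, h4, h5, h6, h7] at hu hl
  have h8 : G 8 = 0 ∨ G 8 = 1 := by omega
  rcases h8 with h8 | h8
  · have h0 : Q G ([1, 1, 0, -1, -1, -1, 0, 1] ++ [1]) = 0 := by simp only [List.cons_append, List.nil_append, Q, lin, Int.reduceAdd, h.zero, h1, h2, h3, h4, h5, h6, h7, h8]; norm_num
    refine Or.inr (Or.inr (Or.inr ⟨e2, by simp [exc], h.per_of h0 (by decide) (by decide) ?_⟩))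
    intro j hj _
    simp only [List.length_cons, List.length_nil] at hj
    interval_cases j <;> simp [per, e2, h.zero, h1, h2, h3, h4, h5, h6, h7, h8]
  · have h0 : Q G ([-1, -1, -1, -1, 0, 1, 1, 1] ++ [1]) = 0 := by simp only [List.cons_append, List.nil_append, Q, lin, Int.reduceAdd, h.zero, h1, h2, h3, h4, h5, h6, h7, h8]; norm_num
    refine Or.inr (Or.inr (Or.inr ⟨e3, by simp [exc], h.per_of h0 (by decide) (by decide) ?_⟩))
    intro j hj _
    simp only [List.length_cons, List.length_nil] at hj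
    interval_cases j <;> simp [per, e3, h.zero, h1, h2, h3, h4, h5, h6, h7, h8]

lemma f_0_0_0_1_m1 {G : ℤ → ℤ} {M : ℕ} (h : PosM G M) (hM8 : M ≠ 8) (hM : 6 ≤ M) (h1 : G 1 = -1) (h2 : G 2 = 0) (h3 : G 3 = 0) (h4 : G 4 = 0) (h5 : G 5 = 1) (h6 : G 6 = -1) : ConclM G M := by
  by_cases hs : M = 6
  · subst hs
    refine Or.inr (Or.inr (Or.inr ⟨e2, by simp [exc], fun j hj => ?_⟩))
    interval_cases j <;> simp [per, e2, h.zero, h1, h2, h3, h4, h5, h6]
  have hu := h.Q_nonneg [2, 3, 3, 1, -1, -3, -3, -2] (by simp only [List.length_cons, List.length_nil]; omega)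
  have hl := h.Q_nonneg [2, 1, -1, -1, -1, -1, 1, 2] (by simp only [List.length_cons, List.length_nil]; omega)
  simp only [Q, lin, Int.reduceAdd, h.zero, h1, h2, h3, h4, h5, h6] at hu hl
  have h7 : G 7 = 0 := by omega
  · exact f_0_0_0_1_m1_0 h hM8 (by omega) h1 h2 h3 h4 h5 h6 h7

lemma f_0_0_0_1 {G : ℤ → ℤ} {M : ℕ} (h : PosM G M) (hM8 : M ≠ 8) (hM : 5 ≤ M) (h1 : G 1 = -1) (h2 : G 2 = 0) (h3 : G 3 = 0) (h4 : G 4 = 0) (h5 : G 5 = 1) : ConclM G M := by
  by_cases hs : M = 5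
  · subst hs
    refine Or.inr (Or.inr (Or.inl ⟨6, by norm_num, fun j hj => ?_⟩))
    interval_cases j <;> simp [patD, h.zero, h1, h2, h3, h4, h5]
  have hu := h.Q_nonneg [3, 4, 2, 0, -2, -4, -3] (by simp only [List.length_cons, List.length_nil]; omega)
  have hl := h.Q_nonneg [1, 0, 0, 0, 0, 0, 1] (by simp only [List.length_cons, List.length_nil]; omega)
  simp only [Q, lin, Int.reduceAdd, h.zero, h1, h2, h3, h4, h5] at hu hl
  have h6 : G 6 = -2 ∨ G 6 = -1 := by omega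
  rcases h6 with h6 | h6
  · refine Or.inr (Or.inr (Or.inl ⟨6, by norm_num, h.patD_of h1 (by norm_num) (fun j hj hj2 _ => ?_) (fun _ => ?_)
      (fun hN => ?_)⟩))
    · have : j ≤ 4 := by omega
      interval_cases j <;> assumption
    · exact h5
    · exact h6
  · exact f_0_0_0_1_m1 h hM8 (by omega) h1 h2 h3 h4 h5 h6

lemma f_0_0_0 {G : ℤ → ℤ} {M : ℕ} (h : PosM G M) (hM8 : M ≠ 8) (hM : 4 ≤ M) (h1 : G 1 = -1) (h2 : G 2 = 0) (h3 : G 3 = 0) (h4 : G 4 = 0) : ConclM G M := by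
  by_cases hs : M = 4
  · subst hs
    exact Or.inl fun j hj hj2 => by interval_cases j <;> assumption
  have hu := h.Q_nonneg [5, 3, 1, -1, -3, -5] (by simp only [List.length_cons, List.length_nil]; omega)
  have hl := h.Q_nonneg [1, 1, 1, 1, 1, 1] (by simp only [List.length_cons, List.length_nil]; omega)
  simp only [Q, lin, Int.reduceAdd, h.zero, h1, h2, h3, h4] at hu hl
  have h5 : G 5 = -1 ∨ G 5 = 0 ∨ G 5 = 1 := by omega
  rcases h5 with h5 | h5 | h5
  · have h0 : Q G [1, 1, 1, 1, 1, 1] = 0 := by simp only [Q, lin, Int.reduceAdd, h.zero, h1, h2, h3, h4, h5]; norm_num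
    refine Or.inr (Or.inl ⟨6, by norm_num, h.patA_of h1 (by norm_num) (fun j hj hj2 _ => ?_) (fun _ => ?_)
      (fun hN => ?_)⟩)
    · have : j ≤ 4 := by omega
      interval_cases j <;> assumption
    · exact h5
    · have r1 := h.lin_eq_zero h0 1 (by simp only [List.length_cons, List.length_nil]; omega)
      simp only [Nat.cast_one, lin, Int.reduceAdd, h1, h2, h3, h4, h5] at r1
      push_cast
      omega
  · exact f_0_0_0_0 h hM8 (by omega) h1 h2 h3 h4 h5
  · exact f_0_0_0_1 h hM8 (by omega) h1 h2 h3 h4 h5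

lemma f_0_0_1_m1_0_1 {G : ℤ → ℤ} {M : ℕ} (h : PosM G M) (hM8 : M ≠ 8) (hM : 7 ≤ M) (h1 : G 1 = -1) (h2 : G 2 = 0) (h3 : G 3 = 0) (h4 : G 4 = 1) (h5 : G 5 = -1) (h6 : G 6 = 0) (h7 : G 7 = 1) : ConclM G M := by
  by_cases hs : M = 7
  · subst hs
    refine Or.inr (Or.inr (Or.inr ⟨e5, by simp [exc], fun j hj => ?_⟩))
    interval_cases j <;> simp [per, e5, h.zero, h1, h2, h3, h4, h5, h6, h7]
  have hu := h.Q_nonneg [1, 1, 0, 0, 0, 0, 0, -1, -1] (by simp only [List.length_cons, List.length_nil]; omega)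
  have hl := h.Q_nonneg [1, 0, 0, 0, -1, 0, 0, 0, 1] (by simp only [List.length_cons, List.length_nil]; omega)
  simp only [Q, lin, Int.reduceAdd, h.zero, h1, h2, h3, h4, h5, h6, h7] at hu hl
  have h8 : G 8 = -1 ∨ G 8 = 0 := by omega
  rcases h8 with h8 | h8
  · have h0 : Q G ([1, 0, 0, 0, -1, 0, 0, 0] ++ [1]) = 0 := by simp only [List.cons_append, List.nil_append, Q, lin, Int.reduceAdd, h.zero, h1, h2, h3, h4, h5, h6, h7, h8]; norm_num
    refine Or.inr (Or.inr (Or.inr ⟨e5, by simp [exc], h.per_of h0 (by decide) (by decide) ?_⟩))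
    intro j hj _
    simp only [List.length_cons, List.length_nil] at hj
    interval_cases j <;> simp [per, e5, h.zero, h1, h2, h3, h4, h5, h6, h7, h8]
  · have h0 : Q G ([-1, -1, 0, 0, 0, 0, 0, 1] ++ [1]) = 0 := by simp only [List.cons_append, List.nil_append, Q, lin, Int.reduceAdd, h.zero, h1, h2, h3, h4, h5, h6, h7, h8]; norm_num
    refine Or.inr (Or.inr (Or.inr ⟨e6, by simp [exc], h.per_of h0 (by decide) (by decide) ?_⟩))
    intro j hj _
    simp only [List.length_cons, List.length_nil] at hj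
    interval_cases j <;> simp [per, e6, h.zero, h1, h2, h3, h4, h5, h6, h7, h8]

lemma f_0_0_1_m1_0 {G : ℤ → ℤ} {M : ℕ} (h : PosM G M) (hM8 : M ≠ 8) (hM : 6 ≤ M) (h1 : G 1 = -1) (h2 : G 2 = 0) (h3 : G 3 = 0) (h4 : G 4 = 1) (h5 : G 5 = -1) (h6 : G 6 = 0) : ConclM G M := by
  by_cases hs : M = 6
  · subst hs
    refine Or.inr (Or.inr (Or.inr ⟨e4, by simp [exc], fun j hj => ?_⟩))
    interval_cases j <;> simp [per, e4, h.zero, h1, h2, h3, h4, h5, h6]
  have hu := h.Q_nonneg [3, 1, 0, 1, -1, 0, -1, -3] (by simp only [List.length_cons, List.length_nil]; omega)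
  have hl := h.Q_nonneg [1, 1, 0, -1, -1, 0, 1, 1] (by simp only [List.length_cons, List.length_nil]; omega)
  simp only [Q, lin, Int.reduceAdd, h.zero, h1, h2, h3, h4, h5, h6] at hu hl
  have h7 : G 7 = 0 ∨ G 7 = 1 := by omega
  rcases h7 with h7 | h7
  · have h0 : Q G ([1, 1, 0, -1, -1, 0, 1] ++ [1]) = 0 := by simp only [List.cons_append, List.nil_append, Q, lin, Int.reduceAdd, h.zero, h1, h2, h3, h4, h5, h6, h7]; norm_num
    refine Or.inr (Or.inr (Or.inr ⟨e4, by simp [exc], h.per_of h0 (by decide) (by decide) ?_⟩))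
    intro j hj _
    simp only [List.length_cons, List.length_nil] at hj
    interval_cases j <;> simp [per, e4, h.zero, h1, h2, h3, h4, h5, h6, h7]
  · exact f_0_0_1_m1_0_1 h hM8 (by omega) h1 h2 h3 h4 h5 h6 h7

lemma f_0_0_1_m1 {G : ℤ → ℤ} {M : ℕ} (h : PosM G M) (hM8 : M ≠ 8) (hM : 5 ≤ M) (h1 : G 1 = -1) (h2 : G 2 = 0) (h3 : G 3 = 0) (h4 : G 4 = 1) (h5 : G 5 = -1) : ConclM G M := by
  by_cases hs : M = 5
  · subst hs
    refine Or.inr (Or.inr (Or.inr ⟨e4, by simp [exc], fun j hj => ?_⟩))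
    interval_cases j <;> simp [per, e4, h.zero, h1, h2, h3, h4, h5]
  have hu := h.Q_nonneg [1, 1, 1, 0, -1, -1, -1] (by simp only [List.length_cons, List.length_nil]; omega)
  have hl := h.Q_nonneg [2, 1, -1, -1, -1, 1, 2] (by simp only [List.length_cons, List.length_nil]; omega)
  simp only [Q, lin, Int.reduceAdd, h.zero, h1, h2, h3, h4, h5] at hu hl
  have h6 : G 6 = 0 ∨ G 6 = 1 := by omega
  rcases h6 with h6 | h6
  · exact f_0_0_1_m1_0 h hM8 (by omega) h1 h2 h3 h4 h5 h6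
  · have h0 : Q G ([-1, -1, -1, 0, 1, 1] ++ [1]) = 0 := by simp only [List.cons_append, List.nil_append, Q, lin, Int.reduceAdd, h.zero, h1, h2, h3, h4, h5, h6]; norm_num
    refine Or.inr (Or.inr (Or.inr ⟨e7, by simp [exc], h.per_of h0 (by decide) (by decide) ?_⟩))
    intro j hj _
    simp only [List.length_cons, List.length_nil] at hj
    interval_cases j <;> simp [per, e7, h.zero, h1, h2, h3, h4, h5, h6]

lemma f_0_0_1 {G : ℤ → ℤ} {M : ℕ} (h : PosM G M) (hM8 : M ≠ 8) (hM : 4 ≤ M) (h1 : G 1 = -1) (h2 : G 2 = 0) (h3 : G 3 = 0) (h4 : G 4 = 1) : ConclM G M := by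
  by_cases hs : M = 4
  · subst hs
    refine Or.inr (Or.inr (Or.inl ⟨5, by norm_num, fun j hj => ?_⟩))
    interval_cases j <;> simp [patD, h.zero, h1, h2, h3, h4]
  have hu := h.Q_nonneg [5, 6, 2, -2, -6, -5] (by simp only [List.length_cons, List.length_nil]; omega)
  have hl := h.Q_nonneg [1, 0, 0, 0, 0, 1] (by simp only [List.length_cons, List.length_nil]; omega)
  simp only [Q, lin, Int.reduceAdd, h.zero, h1, h2, h3, h4] at hu hl
  have h5 : G 5 = -2 ∨ G 5 = -1 := by omega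
  rcases h5 with h5 | h5
  · refine Or.inr (Or.inr (Or.inl ⟨5, by norm_num, h.patD_of h1 (by norm_num) (fun j hj hj2 _ => ?_) (fun _ => ?_)
      (fun hN => ?_)⟩))
    · have : j ≤ 3 := by omega
      interval_cases j <;> assumption
    · exact h4
    · exact h5
  · exact f_0_0_1_m1 h hM8 (by omega) h1 h2 h3 h4 h5

lemma f_0_0 {G : ℤ → ℤ} {M : ℕ} (h : PosM G M) (hM8 : M ≠ 8) (hM : 3 ≤ M) (h1 : G 1 = -1) (h2 : G 2 = 0) (h3 : G 3 = 0) : ConclM G M := by
  by_cases hs : M = 3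
  · subst hs
    exact Or.inl fun j hj hj2 => by interval_cases j <;> assumption
  have hu := h.Q_nonneg [2, 1, 0, -1, -2] (by simp only [List.length_cons, List.length_nil]; omega)
  have hl := h.Q_nonneg [1, 1, 1, 1, 1] (by simp only [List.length_cons, List.length_nil]; omega)
  simp only [Q, lin, Int.reduceAdd, h.zero, h1, h2, h3] at hu hl
  have h4 : G 4 = -1 ∨ G 4 = 0 ∨ G 4 = 1 := by omega
  rcases h4 with h4 | h4 | h4
  · have h0 : Q G [1, 1, 1, 1, 1] = 0 := by simp only [Q, lin, Int.reduceAdd, h.zero, h1, h2, h3, h4]; norm_num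
    refine Or.inr (Or.inl ⟨5, by norm_num, h.patA_of h1 (by norm_num) (fun j hj hj2 _ => ?_) (fun _ => ?_)
      (fun hN => ?_)⟩)
    · have : j ≤ 3 := by omega
      interval_cases j <;> assumption
    · exact h4
    · have r1 := h.lin_eq_zero h0 1 (by simp only [List.length_cons, List.length_nil]; omega)
      simp only [Nat.cast_one, lin, Int.reduceAdd, h1, h2, h3, h4] at r1
      push_cast
      omega
  · exact f_0_0_0 h hM8 (by omega) h1 h2 h3 h4
  · exact f_0_0_1 h hM8 (by omega) h1 h2 h3 h4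

lemma f_0_1_m1_0_1_m1 {G : ℤ → ℤ} {M : ℕ} (h : PosM G M) (hM8 : M ≠ 8) (hM : 7 ≤ M) (h1 : G 1 = -1) (h2 : G 2 = 0) (h3 : G 3 = 1) (h4 : G 4 = -1) (h5 : G 5 = 0) (h6 : G 6 = 1) (h7 : G 7 = -1) : ConclM G M := by
  by_cases hs : M = 7
  · subst hs
    refine Or.inr (Or.inr (Or.inr ⟨e10, by simp [exc], fun j hj => ?_⟩))
    interval_cases j <;> simp [per, e10, h.zero, h1, h2, h3, h4, h5, h6, h7]
  have hu := h.Q_nonneg [1, 1, 0, -1, 0, 1, 0, -1, -1] (by simp only [List.length_cons, List.length_nil]; omega)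
  have hl := h.Q_nonneg [1, 0, -1, 0, 1, 0, -1, 0, 1] (by simp only [List.length_cons, List.length_nil]; omega)
  simp only [Q, lin, Int.reduceAdd, h.zero, h1, h2, h3, h4, h5, h6, h7] at hu hl
  have h8 : G 8 = 0 ∨ G 8 = 1 := by omega
  rcases h8 with h8 | h8
  · have h0 : Q G ([1, 0, -1, 0, 1, 0, -1, 0] ++ [1]) = 0 := by simp only [List.cons_append, List.nil_append, Q, lin, Int.reduceAdd, h.zero, h1, h2, h3, h4, h5, h6, h7, h8]; norm_num
    refine Or.inr (Or.inr (Or.inr ⟨e10, by simp [exc], h.per_of h0 (by decide) (by decide) ?_⟩))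
    intro j hj _
    simp only [List.length_cons, List.length_nil] at hj
    interval_cases j <;> simp [per, e10, h.zero, h1, h2, h3, h4, h5, h6, h7, h8]
  · have h0 : Q G ([-1, -1, 0, 1, 0, -1, 0, 1] ++ [1]) = 0 := by simp only [List.cons_append, List.nil_append, Q, lin, Int.reduceAdd, h.zero, h1, h2, h3, h4, h5, h6, h7, h8]; norm_num
    refine Or.inr (Or.inr (Or.inr ⟨e11, by simp [exc], h.per_of h0 (by decide) (by decide) ?_⟩))
    intro j hj _
    simp only [List.length_cons, List.length_nil] at hj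
    interval_cases j <;> simp [per, e11, h.zero, h1, h2, h3, h4, h5, h6, h7, h8]

lemma f_0_1_m1_0_1 {G : ℤ → ℤ} {M : ℕ} (h : PosM G M) (hM8 : M ≠ 8) (hM : 6 ≤ M) (h1 : G 1 = -1) (h2 : G 2 = 0) (h3 : G 3 = 1) (h4 : G 4 = -1) (h5 : G 5 = 0) (h6 : G 6 = 1) : ConclM G M := by
  by_cases hs : M = 6
  · subst hs
    refine Or.inr (Or.inr (Or.inr ⟨e9, by simp [exc], fun j hj => ?_⟩))
    interval_cases j <;> simp [per, e9, h.zero, h1, h2, h3, h4, h5, h6]
  have hu := h.Q_nonneg [3, 2, -2, -2, 2, 2, -2, -3] (by simp only [List.length_cons, List.length_nil]; omega)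
  have hl := h.Q_nonneg [1, 0, 0, 0, 0, 0, 0, 1] (by simp only [List.length_cons, List.length_nil]; omega)
  simp only [Q, lin, Int.reduceAdd, h.zero, h1, h2, h3, h4, h5, h6] at hu hl
  have h7 : G 7 = -2 ∨ G 7 = -1 := by omega
  rcases h7 with h7 | h7
  · have h0 : Q G ([1, 0, 0, 0, 0, 0, 0] ++ [1]) = 0 := by simp only [List.cons_append, List.nil_append, Q, lin, Int.reduceAdd, h.zero, h1, h2, h3, h4, h5, h6, h7]; norm_num
    refine Or.inr (Or.inr (Or.inr ⟨e9, by simp [exc], h.per_of h0 (by decide) (by decide) ?_⟩))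
    intro j hj _
    simp only [List.length_cons, List.length_nil] at hj
    interval_cases j <;> simp [per, e9, h.zero, h1, h2, h3, h4, h5, h6, h7]
  · exact f_0_1_m1_0_1_m1 h hM8 (by omega) h1 h2 h3 h4 h5 h6 h7

lemma f_0_1_m1_0 {G : ℤ → ℤ} {M : ℕ} (h : PosM G M) (hM8 : M ≠ 8) (hM : 5 ≤ M) (h1 : G 1 = -1) (h2 : G 2 = 0) (h3 : G 3 = 1) (h4 : G 4 = -1) (h5 : G 5 = 0) : ConclM G M := by
  by_cases hs : M = 5
  · subst hs
    refine Or.inr (Or.inr (Or.inr ⟨e8, by simp [exc], fun j hj => ?_⟩))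
    interval_cases j <;> simp [per, e8, h.zero, h1, h2, h3, h4, h5]
  have hu := h.Q_nonneg [2, 0, -1, 0, 1, 0, -2] (by simp only [List.length_cons, List.length_nil]; omega)
  have hl := h.Q_nonneg [1, 1, 0, -1, 0, 1, 1] (by simp only [List.length_cons, List.length_nil]; omega)
  simp only [Q, lin, Int.reduceAdd, h.zero, h1, h2, h3, h4, h5] at hu hl
  have h6 : G 6 = 0 ∨ G 6 = 1 := by omega
  rcases h6 with h6 | h6
  · have h0 : Q G ([1, 1, 0, -1, 0, 1] ++ [1]) = 0 := by simp only [List.cons_append, List.nil_append, Q, lin, Int.reduceAdd, h.zero, h1, h2, h3, h4, h5, h6]; norm_num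
    refine Or.inr (Or.inr (Or.inr ⟨e8, by simp [exc], h.per_of h0 (by decide) (by decide) ?_⟩))
    intro j hj _
    simp only [List.length_cons, List.length_nil] at hj
    interval_cases j <;> simp [per, e8, h.zero, h1, h2, h3, h4, h5, h6]
  · exact f_0_1_m1_0_1 h hM8 (by omega) h1 h2 h3 h4 h5 h6

lemma f_0_1_m1_1_0_m1 {G : ℤ → ℤ} {M : ℕ} (h : PosM G M) (hM8 : M ≠ 8) (hM : 7 ≤ M) (h1 : G 1 = -1) (h2 : G 2 = 0) (h3 : G 3 = 1) (h4 : G 4 = -1) (h5 : G 5 = 1) (h6 : G 6 = 0) (h7 : G 7 = -1) : ConclM G M := by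
  by_cases hs : M = 7
  · subst hs
    refine Or.inr (Or.inr (Or.inr ⟨e13, by simp [exc], fun j hj => ?_⟩))
    interval_cases j <;> simp [per, e13, h.zero, h1, h2, h3, h4, h5, h6, h7]
  have hu := h.Q_nonneg [1, 0, 0, 0, 0, 0, 0, 0, -1] (by simp only [List.length_cons, List.length_nil]; omega)
  have hl := h.Q_nonneg [1, 1, 0, -1, -1, -1, 0, 1, 1] (by simp only [List.length_cons, List.length_nil]; omega)
  simp only [Q, lin, Int.reduceAdd, h.zero, h1, h2, h3, h4, h5, h6, h7] at hu hl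
  have h8 : G 8 = 1 ∨ G 8 = 2 := by omega
  rcases h8 with h8 | h8
  · have h0 : Q G ([1, 1, 0, -1, -1, -1, 0, 1] ++ [1]) = 0 := by simp only [List.cons_append, List.nil_append, Q, lin, Int.reduceAdd, h.zero, h1, h2, h3, h4, h5, h6, h7, h8]; norm_num
    refine Or.inr (Or.inr (Or.inr ⟨e13, by simp [exc], h.per_of h0 (by decide) (by decide) ?_⟩))
    intro j hj _
    simp only [List.length_cons, List.length_nil] at hj
    interval_cases j <;> simp [per, e13, h.zero, h1, h2, h3, h4, h5, h6, h7, h8]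
  · have h0 : Q G ([-1, 0, 0, 0, 0, 0, 0, 0] ++ [1]) = 0 := by simp only [List.cons_append, List.nil_append, Q, lin, Int.reduceAdd, h.zero, h1, h2, h3, h4, h5, h6, h7, h8]; norm_num
    refine Or.inr (Or.inr (Or.inr ⟨e14, by simp [exc], h.per_of h0 (by decide) (by decide) ?_⟩))
    intro j hj _
    simp only [List.length_cons, List.length_nil] at hj
    interval_cases j <;> simp [per, e14, h.zero, h1, h2, h3, h4, h5, h6, h7, h8]

lemma f_0_1_m1_1_0 {G : ℤ → ℤ} {M : ℕ} (h : PosM G M) (hM8 : M ≠ 8) (hM : 6 ≤ M) (h1 : G 1 = -1) (h2 : G 2 = 0) (h3 : G 3 = 1) (h4 : G 4 = -1) (h5 : G 5 = 1) (h6 : G 6 = 0) : ConclM G M := by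
  by_cases hs : M = 6
  · subst hs
    refine Or.inr (Or.inr (Or.inr ⟨e13, by simp [exc], fun j hj => ?_⟩))
    interval_cases j <;> simp [per, e13, h.zero, h1, h2, h3, h4, h5, h6]
  have hu := h.Q_nonneg [1, 1, 1, 0, 0, -1, -1, -1] (by simp only [List.length_cons, List.length_nil]; omega)
  have hl := h.Q_nonneg [3, 1, -1, -2, -2, -1, 1, 3] (by simp only [List.length_cons, List.length_nil]; omega)
  simp only [Q, lin, Int.reduceAdd, h.zero, h1, h2, h3, h4, h5, h6] at hu hl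
  have h7 : G 7 = -1 ∨ G 7 = 0 := by omega
  rcases h7 with h7 | h7
  · exact f_0_1_m1_1_0_m1 h hM8 (by omega) h1 h2 h3 h4 h5 h6 h7
  · have h0 : Q G ([-1, -1, -1, 0, 0, 1, 1] ++ [1]) = 0 := by simp only [List.cons_append, List.nil_append, Q, lin, Int.reduceAdd, h.zero, h1, h2, h3, h4, h5, h6, h7]; norm_num
    refine Or.inr (Or.inr (Or.inr ⟨e15, by simp [exc], h.per_of h0 (by decide) (by decide) ?_⟩))
    intro j hj _
    simp only [List.length_cons, List.length_nil] at hj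
    interval_cases j <;> simp [per, e15, h.zero, h1, h2, h3, h4, h5, h6, h7]

lemma f_0_1_m1_1 {G : ℤ → ℤ} {M : ℕ} (h : PosM G M) (hM8 : M ≠ 8) (hM : 5 ≤ M) (h1 : G 1 = -1) (h2 : G 2 = 0) (h3 : G 3 = 1) (h4 : G 4 = -1) (h5 : G 5 = 1) : ConclM G M := by
  by_cases hs : M = 5
  · subst hs
    refine Or.inr (Or.inr (Or.inr ⟨e12, by simp [exc], fun j hj => ?_⟩))
    interval_cases j <;> simp [per, e12, h.zero, h1, h2, h3, h4, h5]
  have hu := h.Q_nonneg [2, 2, 1, 0, -1, -2, -2] (by simp only [List.length_cons, List.length_nil]; omega)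
  have hl := h.Q_nonneg [1, 0, 0, -1, 0, 0, 1] (by simp only [List.length_cons, List.length_nil]; omega)
  simp only [Q, lin, Int.reduceAdd, h.zero, h1, h2, h3, h4, h5] at hu hl
  have h6 : G 6 = -1 ∨ G 6 = 0 := by omega
  rcases h6 with h6 | h6
  · have h0 : Q G ([1, 0, 0, -1, 0, 0] ++ [1]) = 0 := by simp only [List.cons_append, List.nil_append, Q, lin, Int.reduceAdd, h.zero, h1, h2, h3, h4, h5, h6]; norm_num
    refine Or.inr (Or.inr (Or.inr ⟨e12, by simp [exc], h.per_of h0 (by decide) (by decide) ?_⟩))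
    intro j hj _
    simp only [List.length_cons, List.length_nil] at hj
    interval_cases j <;> simp [per, e12, h.zero, h1, h2, h3, h4, h5, h6]
  · exact f_0_1_m1_1_0 h hM8 (by omega) h1 h2 h3 h4 h5 h6

lemma f_0_1_m1 {G : ℤ → ℤ} {M : ℕ} (h : PosM G M) (hM8 : M ≠ 8) (hM : 4 ≤ M) (h1 : G 1 = -1) (h2 : G 2 = 0) (h3 : G 3 = 1) (h4 : G 4 = -1) : ConclM G M := by
  by_cases hs : M = 4
  · subst hs
    refine Or.inr (Or.inr (Or.inr ⟨e8, by simp [exc], fun j hj => ?_⟩))
    interval_cases j <;> simp [per, e8, h.zero, h1, h2, h3, h4]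
  have hu := h.Q_nonneg [2, 1, 1, -1, -1, -2] (by simp only [List.length_cons, List.length_nil]; omega)
  have hl := h.Q_nonneg [2, 1, -1, -1, 1, 2] (by simp only [List.length_cons, List.length_nil]; omega)
  simp only [Q, lin, Int.reduceAdd, h.zero, h1, h2, h3, h4] at hu hl
  have h5 : G 5 = 0 ∨ G 5 = 1 := by omega
  rcases h5 with h5 | h5
  · exact f_0_1_m1_0 h hM8 (by omega) h1 h2 h3 h4 h5
  · exact f_0_1_m1_1 h hM8 (by omega) h1 h2 h3 h4 h5

lemma f_0_1 {G : ℤ → ℤ} {M : ℕ} (h : PosM G M) (hM8 : M ≠ 8) (hM : 3 ≤ M) (h1 : G 1 = -1) (h2 : G 2 = 0) (h3 : G 3 = 1) : ConclM G M := by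
  by_cases hs : M = 3
  · subst hs
    refine Or.inr (Or.inr (Or.inl ⟨4, by norm_num, fun j hj => ?_⟩))
    interval_cases j <;> simp [patD, h.zero, h1, h2, h3]
  have hu := h.Q_nonneg [1, 1, 0, -1, -1] (by simp only [List.length_cons, List.length_nil]; omega)
  have hl := h.Q_nonneg [1, 0, 0, 0, 1] (by simp only [List.length_cons, List.length_nil]; omega)
  simp only [Q, lin, Int.reduceAdd, h.zero, h1, h2, h3] at hu hl
  have h4 : G 4 = -2 ∨ G 4 = -1 ∨ G 4 = 0 := by omega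
  rcases h4 with h4 | h4 | h4
  · refine Or.inr (Or.inr (Or.inl ⟨4, by norm_num, h.patD_of h1 (by norm_num) (fun j hj hj2 _ => ?_) (fun _ => ?_)
      (fun hN => ?_)⟩))
    · have : j ≤ 2 := by omega
      interval_cases j <;> assumption
    · exact h3
    · exact h4
  · exact f_0_1_m1 h hM8 (by omega) h1 h2 h3 h4
  · have h0 : Q G ([-1, -1, 0, 1] ++ [1]) = 0 := by simp only [List.cons_append, List.nil_append, Q, lin, Int.reduceAdd, h.zero, h1, h2, h3, h4]; norm_num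
    refine Or.inr (Or.inr (Or.inr ⟨e16, by simp [exc], h.per_of h0 (by decide) (by decide) ?_⟩))
    intro j hj _
    simp only [List.length_cons, List.length_nil] at hj
    interval_cases j <;> simp [per, e16, h.zero, h1, h2, h3, h4]

lemma f_0 {G : ℤ → ℤ} {M : ℕ} (h : PosM G M) (hM8 : M ≠ 8) (hM : 2 ≤ M) (h1 : G 1 = -1) (h2 : G 2 = 0) : ConclM G M := by
  by_cases hs : M = 2
  · subst hs
    exact Or.inl fun j hj hj2 => by interval_cases j <;> assumption
  have hu := h.Q_nonneg [3, 1, -1, -3] (by simp only [List.length_cons, List.length_nil]; omega)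
  have hl := h.Q_nonneg [1, 1, 1, 1] (by simp only [List.length_cons, List.length_nil]; omega)
  simp only [Q, lin, Int.reduceAdd, h.zero, h1, h2] at hu hl
  have h3 : G 3 = -1 ∨ G 3 = 0 ∨ G 3 = 1 := by omega
  rcases h3 with h3 | h3 | h3
  · have h0 : Q G [1, 1, 1, 1] = 0 := by simp only [Q, lin, Int.reduceAdd, h.zero, h1, h2, h3]; norm_num
    refine Or.inr (Or.inl ⟨4, by norm_num, h.patA_of h1 (by norm_num) (fun j hj hj2 _ => ?_) (fun _ => ?_)
      (fun hN => ?_)⟩)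
    · have : j ≤ 2 := by omega
      interval_cases j <;> assumption
    · exact h3
    · have r1 := h.lin_eq_zero h0 1 (by simp only [List.length_cons, List.length_nil]; omega)
      simp only [Nat.cast_one, lin, Int.reduceAdd, h1, h2, h3] at r1
      push_cast
      omega
  · exact f_0_0 h hM8 (by omega) h1 h2 h3
  · exact f_0_1 h hM8 (by omega) h1 h2 h3

end Pool.Agent.H4.RL
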