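import Pool.Agent.H4.RL.Fin
import Pool.Agent.H4.RL.TreeM

/-! Finitely many symmetric powers. -/

set_option autoImplicit false

namespace Pool.Agent.H4.RL

open Pool.Agent.H70.CS Pool.Agent.H4.ST Filter Topology

theorem mean_ggM {α β : Nat.Primes → Circle} {K : ℕ → ℤ} {M : ℕ} (hK0 : K 0 = 1)
    (h : ∀ m : ℕ, m ≤ M → Mean (fun p => ∑ j ∈ Finset.Icc (-(m : ℤ)) m,
      (((α p / β p) ^ j : Circle) : ℂ).re) (K m : ℤ)) (k : ℤ) (hkM : k.natAbs ≤ M) :
    Mean (fun p => 2 * (((α p / β p) ^ k : Circle) : ℂ).re) (gg K k : ℤ) := by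
  have h1 : ∀ m : ℕ, m + 1 ≤ M → Mean (fun p => 2 * (((α p / β p) ^ ((m + 1 : ℕ) : ℤ) : Circle) : ℂ).re)
      ((K (m + 1) - K m : ℤ)) := by
    intro m hm
    have h2 := (h (m + 1) hm).add ((h m (by omega)).const_mul (-1))
    have e1 : ((K (m + 1) : ℤ) : ℝ) + -1 * ((K m : ℤ) : ℝ) = ((K (m + 1) - K m : ℤ) : ℝ) := by
      push_cast; ring
    rw [e1] at h2
    refine h2.congr fun p => ?_
    rw [Icc_succ, Finset.sum_insert, Finset.sum_insert]
    · have e2 : (((α p / β p) ^ (-((m + 1 : ℕ) : ℤ)) : Circle) : ℂ).re =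
          (((α p / β p) ^ ((m + 1 : ℕ) : ℤ) : Circle) : ℂ).re := by
        rw [zpow_neg, Circle.coe_inv_eq_conj, Complex.conj_re]
      rw [e2]
      ring
    · simp only [Finset.mem_Icc]; omega
    · simp only [Finset.mem_Icc, Finset.mem_insert]; omega
  unfold gg
  split_ifs with hk
  · have h2 := (h 0 (Nat.zero_le _)).const_mul 2
    rw [hK0] at h2
    have e1 : (2 : ℝ) * ((1 : ℤ) : ℝ) = ((2 : ℤ) : ℝ) := by norm_num
    rw [e1] at h2
    refine h2.congr fun p => ?_
    subst hk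
    simp
  · obtain ⟨m, hm⟩ : ∃ m, k.natAbs = m + 1 := ⟨k.natAbs - 1, by omega⟩
    rw [hm, Nat.add_sub_cancel]
    refine (h1 m (by omega)).congr fun p => ?_
    congr 1
    rcases Int.natAbs_eq k with e | e
    · rw [e, hm]
    · rw [e, hm, zpow_neg, Circle.coe_inv_eq_conj, Complex.conj_re]

lemma mean_Q2M {g : Nat.Primes → ℤ → ℝ} {G : ℤ → ℝ} {M : ℕ}
    (h : ∀ k : ℤ, k.natAbs ≤ M → Mean (fun p => g p k) (G k))
    (l : List (ℤ × ℤ)) (hl : ∀ a ∈ l, 0 ≤ a.1 ∧ a.1 ≤ M) :
    Mean (fun p => Q2R (g p) l) (Q2R G l) := by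
  have hrow : ∀ (a : ℤ), 0 ≤ a → a ≤ M → ∀ l : List (ℤ × ℤ), (∀ b ∈ l, 0 ≤ b.1 ∧ b.1 ≤ M) →
      Mean (fun p => rowR (g p) a l) (rowR G a l) := by
    intro a ha1 ha2 l
    induction l with
    | nil => intro _; exact Mean.zero
    | cons b l ih =>
      intro hl
      simp only [rowR]
      have hb := hl b (List.mem_cons_self ..)
      exact ((h _ (by omega)).const_mul _).add (ih fun b' hb' => hl b' (List.mem_cons_of_mem _ hb'))
  induction l with
  | nil => exact Mean.zero
  | cons b l ih =>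
    simp only [Q2R]
    have hb := hl b (List.mem_cons_self ..)
    have hl' : ∀ b' ∈ l, 0 ≤ b'.1 ∧ b'.1 ≤ M := fun b' hb' => hl b' (List.mem_cons_of_mem _ hb')
    exact (((h 0 (by simp)).const_mul _).add ((hrow _ hb.1 hb.2 l hl').const_mul _)).add (ih hl')

theorem posM_of_means {α β : Nat.Primes → Circle} {K : ℕ → ℤ} {M : ℕ} (hK0 : K 0 = 1)
    (h : ∀ m : ℕ, m ≤ M → Mean (fun p => ∑ j ∈ Finset.Icc (-(m : ℤ)) m,
      (((α p / β p) ^ j : Circle) : ℂ).re) (K m : ℤ)) : PosM (gg K) M := by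
  have key := mean_ggM hK0 h
  refine ⟨by simp [gg], fun l hl => ?_⟩
  have h2 := mean_Q2M (g := fun p k => 2 * (((α p / β p) ^ k : Circle) : ℂ).re)
    (G := fun k => (gg K k : ℝ)) key l hl
  have h3 := h2.nonneg fun p => by
    rw [Q2R_circle]
    exact mul_nonneg (by norm_num) (Complex.normSq_nonneg _)
  rw [← cast_Q2] at h3
  exact_mod_cast h3

/-- **The orders of finitely many symmetric powers.** -/
theorem ordersM (M : ℕ) (α β : Nat.Primes → Circle)
    (h : ∀ m : ℕ, m ≤ M → ∃ F : ℂ → ℂ, MeromorphicAt F 1 ∧ ∀ s : ℂ, 1 < s.re → F s = LSym α β m s) :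
    ∃ K : ℕ → ℤ, (∀ m : ℕ, m ≤ M → ∀ F : ℂ → ℂ, MeromorphicAt F 1 →
      (∀ s : ℂ, 1 < s.re → F s = LSym α β m s) → meromorphicOrderAt F 1 = ((-K m : ℤ) : WithTop ℤ)) ∧
      K 0 = 1 ∧ PosM (gg K) M := by
  classical
  have h' : ∀ m : ℕ, ∃ k : ℤ, m ≤ M → Mean (fun p => ∑ j ∈ Finset.Icc (-(m : ℤ)) m,
      (((α p / β p) ^ j : Circle) : ℂ).re) (-k : ℤ) := by
    intro m
    by_cases hm : m ≤ M
    · obtain ⟨F, hF, hFe⟩ := h m hm
      obtain ⟨k, -, hk⟩ := mean_of_order hF hFe
      exact ⟨k, fun _ => hk⟩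
    · exact ⟨0, fun h => absurd h hm⟩
  choose k hM using h'
  have hK0 : -k 0 = 1 := by
    have h1 := hM 0 (Nat.zero_le _)
    have h2 : Mean (fun _ => (1 : ℝ)) (1 : ℝ) := by
      refine ⟨⟨1, fun p => by simp⟩, ?_⟩
      refine tendsto_const_nhds.congr' ?_
      filter_upwards [self_mem_nhdsWithin] with σ hσ
      have := mn_one (σ := σ) hσ
      push_cast
      exact this.symm
    have h3 := h1.congr (c := fun _ => (1 : ℝ)) fun p => by simp
    have h4 := tendsto_nhds_unique h3.2 h2.2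
    have h5 : (((-k 0 : ℤ) : ℝ)) = 1 := by exact_mod_cast h4
    exact_mod_cast h5
  refine ⟨fun m => -k m, fun m hm F' hF' hFe' => ?_, hK0, posM_of_means hK0 hM⟩
  obtain ⟨k', hk', hM'⟩ := mean_of_order hF' hFe'
  have h4 := tendsto_nhds_unique hM'.2 (hM m hm).2
  have h5 : (((-k' : ℤ) : ℝ)) = ((-k m : ℤ) : ℝ) := by exact_mod_cast h4
  have h6 : -k' = -k m := by exact_mod_cast h5
  rw [hk', neg_neg]
  congr 1
  omega

theorem listedM {K : ℕ → ℤ} {M : ℕ} (hM2 : 2 ≤ M) (hM8 : M ≠ 8) (h : PosM (gg K) M) (h0 : K 0 = 1)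
    (h1 : K 1 = 0) (h2 : K 2 = 0) : ∃ K', Listed K' ∧ ∀ m, m ≤ M → K m = K' m := by
  have g1 : gg K 1 = -1 := by
    have := gg_succ K 0
    rw [zero_add, h0, h1] at this
    simpa using this
  have g2 : gg K 2 = 0 := by
    have := gg_succ K 1
    rw [h1, h2] at this
    simpa using this
  have hgen : ∀ pat : ℕ → ℤ, (∀ m : ℕ, m ≤ M → gg K m = pat m) →
      ∀ m, m ≤ M → K m = 1 + ∑ j ∈ Finset.range m, pat (j + 1) := by
    intro pat hp m
    induction m with
    | zero => intro _; simp [h0]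
    | succ m ih =>
      intro hm
      have h3 := hp (m + 1) hm
      rw [gg_succ] at h3
      rw [Finset.sum_range_succ]
      have := ih (by omega)
      linarith
  have hdiff : ∀ (pat : ℕ → ℤ) (m : ℕ), (1 + ∑ j ∈ Finset.range (m + 1), pat (j + 1)) -
      (1 + ∑ j ∈ Finset.range m, pat (j + 1)) = pat (m + 1) := by
    intro pat m
    rw [Finset.sum_range_succ]
    ring
  rcases f_0 h hM8 hM2 g1 g2 with hc | ⟨N, hN, hc⟩ | ⟨N, hN, hc⟩ | ⟨l, hl, hc⟩
  · refine ⟨fun m => if m = 0 then 1 else 0, ⟨by simp, Or.inl fun m hm => by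
      show (if m = 0 then (1 : ℤ) else 0) = 0
      rw [if_neg (by omega)]⟩, fun m => ?_⟩
    induction m with
    | zero => intro _; simp [h0]
    | succ m ih =>
      intro hm
      show K (m + 1) = if m + 1 = 0 then 1 else 0
      rw [if_neg (by omega)]
      by_cases hm0 : m = 0
      · subst hm0; exact h1
      · have h3 := hc (m + 1) (by omega) hm
        rw [gg_succ] at h3
        have h4 := ih (by omega)
        simp only [hm0, if_false] at h4
        omega
  · exact ⟨fun m => 1 + ∑ j ∈ Finset.range m, patA N (j + 1),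
      ⟨by simp, Or.inr (Or.inl ⟨N, hN, fun m => hdiff _ m⟩)⟩, hgen _ hc⟩
  · exact ⟨fun m => 1 + ∑ j ∈ Finset.range m, patD N (j + 1),
      ⟨by simp, Or.inr (Or.inr (Or.inl ⟨N, hN, fun m => hdiff _ m⟩))⟩, hgen _ hc⟩
  · exact ⟨fun m => 1 + ∑ j ∈ Finset.range m, per l (j + 1),
      ⟨by simp, Or.inr (Or.inr (Or.inr ⟨l, hl, fun m => hdiff _ m⟩))⟩, hgen _ hc⟩

lemma exc_six : ∀ l ∈ exc, psum l 3 ≠ 0 ∨ psum l 4 ≠ 0 ∨ psum l 5 ≠ 0 ∨ psum l 6 ≠ 0 := by
  decide +kernel

/-- **No poles up to `Sym¹²`**, with finitely many non-vanishing hypotheses. -/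
theorem sixM {K : ℕ → ℤ} {M : ℕ} (h : Listed K) (hn : ∀ m, m ≤ M → 0 ≤ K m) (h3 : K 3 = 0)
    (h4 : K 4 = 0) (h5 : K 5 = 0) (h6 : K 6 = 0) (m : ℕ) (hm : 1 ≤ m) (hmM : m < M) : K m = 0 := by
  obtain ⟨h0, h | ⟨N, hN, h⟩ | ⟨N, hN, h⟩ | ⟨l, hl, h⟩⟩ := h
  · exact h m hm
  · have hneg := patA_neg hN h0 h
    have hlt : M < N - 1 := by
      by_contra hle
      have := hn (N - 1) (by omega)
      omega
    have : ∀ j, 1 ≤ j → j ≤ N - 2 → K j = 0 := by
      intro j hj
      induction j, hj using Nat.le_induction with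
      | base =>
        intro _
        have := h 0
        rw [h0, zero_add] at this
        unfold patA at this
        rw [Nat.mod_eq_of_lt (by omega : 1 < N), if_neg (by omega), if_pos (Or.inl rfl)] at this
        linarith
      | succ j hj ih =>
        intro hj2
        have := h j
        rw [ih (by omega)] at this
        unfold patA at this
        rw [Nat.mod_eq_of_lt (by omega : j + 1 < N), if_neg (by omega), if_neg (by omega)] at this
        linarith
    exact this m hm (by omega)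
  · have hneg := patD_neg hN h0 h
    have hlt : M < N := by
      by_contra hle
      have := hn N (by omega)
      omega
    have : ∀ j, 1 ≤ j → j ≤ N - 2 → K j = 0 := by
      intro j hj
      induction j, hj using Nat.le_induction with
      | base =>
        intro _
        have := h 0
        rw [h0, zero_add, patD_eq hN] at this
        rw [Nat.mod_eq_of_lt (by omega : 1 < 2 * N), if_neg (by omega), if_pos (Or.inl rfl)] at this
        linarith
      | succ j hj ih =>
        intro hj2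
        have := h j
        rw [ih (by omega), patD_eq hN] at this
        rw [Nat.mod_eq_of_lt (by omega : j + 1 < 2 * N), if_neg (by omega), if_neg (by omega),
          if_neg (by omega), if_neg (by omega)] at this
        linarith
    exact this m hm (by omega)
  · exfalso
    have hps := eq_psum h0 h
    rcases exc_six l hl with h' | h' | h' | h'
    · exact h' (by rw [← hps, h3])
    · exact h' (by rw [← hps, h4])
    · exact h' (by rw [← hps, h5])
    · exact h' (by rw [← hps, h6])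

end Pool.Agent.H4.RL
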