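import Pool.Agent.H4.RL.PD

/-! Twists: two chains of roots. -/

set_option autoImplicit false

namespace Pool.Agent.H4.RL

section gram
variable {I : Type}

/-- inner product of a vector with a combination -/
def rowI (g : I → I → ℤ) (a : I) : List (I × ℤ) → ℤ
  | [] => 0
  | b :: l => b.2 * g a b.1 + rowI g a l

/-- the square norm of a combination -/
def QI (g : I → I → ℤ) : List (I × ℤ) → ℤ
  | [] => 0
  | a :: l => a.2 ^ 2 * g a.1 a.1 + 2 * a.2 * rowI g a.1 l + QI g l

/-- multiply the coefficients -/
def smulI (t : ℤ) : List (I × ℤ) → List (I × ℤ)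
  | [] => []
  | a :: l => (a.1, t * a.2) :: smulI t l

lemma rowI_smul (g : I → I → ℤ) (t : ℤ) (a : I) (l : List (I × ℤ)) :
    rowI g a (smulI t l) = t * rowI g a l := by
  induction l with
  | nil => simp [rowI, smulI]
  | cons x l ih => rw [smulI, rowI, rowI, ih]; ring

lemma QI_smul (g : I → I → ℤ) (t : ℤ) (l : List (I × ℤ)) : QI g (smulI t l) = t ^ 2 * QI g l := by
  induction l with
  | nil => simp [QI, smulI]
  | cons x l ih =>
    rw [smulI, QI, QI, ih, rowI_smul]
    ring

lemma rowI_eq_zero {g : I → I → ℤ} (h : ∀ l, 0 ≤ QI g l) (h2 : ∀ a, g a a = 2) {l : List (I × ℤ)}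
    (hl : QI g l = 0) (a : I) : rowI g a l = 0 := by
  have h1 := h ((a, 1) :: smulI 2 l)
  have h2' := h ((a, 1) :: smulI (-2) l)
  rw [QI, QI_smul, rowI_smul, hl, h2] at h1 h2'
  simp only at h1 h2'
  omega

/-- consecutive vectors -/
def con (f : ℤ → I) (k : ℤ) : ℕ → List (I × ℤ)
  | 0 => []
  | n + 1 => (f k, 1) :: con f (k + 1) n

lemma rowI_con (g : I → I → ℤ) (a : I) (f : ℤ → I) (k : ℤ) (n : ℕ) :
    rowI g a (con f k n) = ∑ j ∈ Finset.range n, g a (f (k + j)) := by
  induction n generalizing k with
  | zero => simp [con, rowI]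
  | succ n ih =>
    rw [con, rowI, ih, Finset.sum_range_succ', one_mul]
    simp only [Nat.cast_zero, add_zero]
    rw [add_comm]
    congr 1
    refine Finset.sum_congr rfl fun j _ => ?_
    congr 2
    push_cast
    ring

end gram

/-- the two chains -/
abbrev Two := ℤ ⊕ ℤ

/-- the inner products of the vectors `v_i` and `w_k` -/
def gram (G b : ℤ → ℤ) : Two → Two → ℤ
  | Sum.inl i, Sum.inl j => G (i - j)
  | Sum.inr i, Sum.inr j => G (i - j)
  | Sum.inl i, Sum.inr j => b (i - j)
  | Sum.inr i, Sum.inl j => b (j - i)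

/-- **the cross products vanish** -/
theorem cross {G b : ℤ → ℤ} {e : ℤ} (he : e = 0 ∨ e = 1) (hG0 : G 0 = 2) (hG1 : G 1 = -1)
    (hGev : ∀ k, G (-k) = G k) (hG : ∀ k : ℤ, 2 ≤ k → G k = 0) (hb : ∀ i, b (e - i) = b i)
    (heven : e = 0 → ∃ k, b 0 = 2 * k) (h : ∀ l, 0 ≤ QI (gram G b) l) :
    (∀ i, b i = 0) ∨ (e = 0 ∧ ∃ σ : ℤ, σ ^ 2 = 1 ∧ ∀ i, b i = σ * G i) := by
  have h2 : ∀ a, gram G b a a = 2 := by
    rintro (i | i) <;> simp [gram, hG0]
  -- the sum of the inner products in the chain
  have hsum : ∀ n : ℕ, ∑ j ∈ Finset.range (n + 1), G (-(1 + (j : ℤ))) = -1 := by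
    intro n
    induction n with
    | zero => simp [hGev, hG1]
    | succ n ih =>
      rw [Finset.sum_range_succ, ih, hGev, hG _ (by push_cast; omega), add_zero]
  have hQ : ∀ (n : ℕ) (k : ℤ), QI (gram G b) (con Sum.inl k (n + 1)) = 2 := by
    intro n
    induction n with
    | zero => intro k; simp [con, QI, rowI, gram, hG0]
    | succ n ih =>
      intro k
      rw [con, QI, ih, rowI_con]
      simp only [h2]
      have : ∑ j ∈ Finset.range (n + 1), gram G b (Sum.inl k) (Sum.inl (k + 1 + (j : ℤ))) = -1 := by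
        rw [← hsum n]
        refine Finset.sum_congr rfl fun j _ => ?_
        show G (k - (k + 1 + j)) = _
        congr 1
        ring
      rw [this]
      norm_num
  by_cases hall : ∀ i : ℕ, b i = 0
  · left
    intro i
    rcases le_or_gt 0 i with hi | hi
    · obtain ⟨m, rfl⟩ : ∃ m : ℕ, i = m := ⟨i.toNat, by omega⟩
      exact hall m
    · rw [← hb]
      obtain ⟨m, hm⟩ : ∃ m : ℕ, e - i = m := ⟨(e - i).toNat, by omega⟩
      rw [hm]
      exact hall m
  · push Not at hall
    obtain ⟨s, hs, hmin⟩ : ∃ s : ℕ, b s ≠ 0 ∧ ∀ j : ℕ, j < s → b j = 0 := by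
      classical
      exact ⟨Nat.find hall, Nat.find_spec hall, fun j hj => by
        by_contra hne
        exact Nat.find_min hall hj hne⟩
    clear hall
    by_cases hs0 : s = 0
    · subst hs0
      rcases he with he | he
      · -- `w₀ = ± v₀`
        right
        refine ⟨he, ?_⟩
        obtain ⟨k, hk⟩ := heven he
        have p1 := h [(Sum.inl 0, 1), (Sum.inr 0, 1)]
        have p2 := h [(Sum.inl 0, 1), (Sum.inr 0, -1)]
        simp only [QI, rowI, gram, sub_zero, hG0] at p1 p2
        have hs' : b 0 ≠ 0 := by simpa using hs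
        have hk2 : k = 1 ∨ k = -1 := by omega
        have hkk : k ^ 2 = 1 := by rcases hk2 with rfl | rfl <;> norm_num
        have hnull : QI (gram G b) [(Sum.inr 0, 1), (Sum.inl 0, -k)] = 0 := by
          simp only [QI, rowI, gram, sub_zero, hG0, hk]
          nlinarith [hkk]
        refine ⟨k, hkk, fun i => ?_⟩
        have := rowI_eq_zero h h2 hnull (Sum.inl i)
        simp only [rowI, gram, sub_zero] at this
        linarith
      · -- impossible: `b 0 = b 1`, a chain of two
        exfalso
        have hs' : b 0 ≠ 0 := by simpa using hs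
        have h01 : b 1 = b 0 := by have := hb 0; rw [he, sub_zero] at this; exact this
        have p1 := h [(Sum.inr 0, 1), (Sum.inl 0, 1), (Sum.inl 1, 1)]
        have p2 := h [(Sum.inr 0, 1), (Sum.inl 0, -1), (Sum.inl 1, -1)]
        have e1 : G (0 - 1) = -1 := by rw [zero_sub, hGev, hG1]
        simp only [QI, rowI, gram, sub_zero, sub_self, hG0, h01, e1] at p1 p2
        have hσ : b 0 = 1 ∨ b 0 = -1 := by omega
        have hnull : QI (gram G b) [(Sum.inr 0, 1), (Sum.inl 0, -b 0), (Sum.inl 1, -b 0)] = 0 := by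
          simp only [QI, rowI, gram, sub_zero, sub_self, hG0, h01, e1]
          rcases hσ with hσ | hσ <;> rw [hσ] <;> norm_num
        have r1 := rowI_eq_zero h h2 hnull (Sum.inl 2)
        have r2 := rowI_eq_zero h h2 hnull (Sum.inr 1)
        simp only [rowI, gram, sub_zero, sub_self] at r1 r2
        have e2 : G (2 - 1) = -1 := by norm_num [hG1]
        have e3 : G 2 = 0 := hG 2 le_rfl
        have e4 : b (0 - 1) = b 2 := by
          rw [← hb 2, he]; norm_num
        rw [e2, e3] at r1
        rw [hG1, e4] at r2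
        rcases hσ with hσ | hσ <;> rw [hσ] at r1 r2 <;> omega
    · -- the general case
      exfalso
      clear heven
      have hs1 : 1 ≤ s := Nat.one_le_iff_ne_zero.2 hs0
      -- zeros between `e - s` and `s`
      have hz : ∀ i : ℤ, e - s < i → i < s → b i = 0 := by
        intro i hi1 hi2
        rcases le_or_gt 0 i with hi | hi
        · obtain ⟨m, rfl⟩ : ∃ m : ℕ, i = m := ⟨i.toNat, by omega⟩
          exact hmin m (by omega)
        · rw [← hb]
          obtain ⟨m, hm⟩ : ∃ m : ℕ, e - i = m := ⟨(e - i).toNat, by omega⟩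
          rw [hm]
          exact hmin m (by omega)
      obtain ⟨n, hn⟩ : ∃ n : ℕ, (n : ℤ) = 2 * s - e := ⟨(2 * s - e).toNat, by omega⟩
      have hn1 : 1 ≤ n := by omega
      have hbe : b (e - s) = b s := hb s
      have rowb : ∀ c : ℤ, ∑ j ∈ Finset.range (n + 1), b (e - s + j - c) =
          ∑ j ∈ Finset.range (n + 1), gram G b (Sum.inr c) (Sum.inl (e - s + j)) := fun c => rfl
      -- the inner product with `w₀`
      have hrow0 : rowI (gram G b) (Sum.inr 0) (con Sum.inl (e - s) (n + 1)) = 2 * b s := by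
        rw [rowI_con, ← rowb]
        simp only [sub_zero]
        rw [Finset.sum_range_succ, show (e - s + (n : ℤ)) = s by omega]
        obtain ⟨n', rfl⟩ : ∃ n', n = n' + 1 := ⟨n - 1, by omega⟩
        rw [Finset.sum_range_succ']
        have hzero : ∑ j ∈ Finset.range n', b (e - s + ((j + 1 : ℕ) : ℤ)) = 0 := by
          refine Finset.sum_eq_zero fun j hj => hz _ (by push_cast; omega) ?_
          have := Finset.mem_range.1 hj
          push_cast
          push_cast at hn
          omega
        rw [hzero]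
        simp only [Nat.cast_zero, add_zero, zero_add]
        rw [hbe]
        ring
      have p1 := h ((Sum.inr 0, 1) :: con Sum.inl (e - s) (n + 1))
      have p2 := h ((Sum.inr 0, -1) :: con Sum.inl (e - s) (n + 1))
      rw [QI, hQ, hrow0, h2] at p1 p2
      simp only at p1 p2
      have hσ : b s = 1 ∨ b s = -1 := by omega
      have hnull : QI (gram G b) ((Sum.inr 0, -b s) :: con Sum.inl (e - s) (n + 1)) = 0 := by
        rw [QI, hQ, hrow0, h2]
        simp only
        rcases hσ with hσ | hσ <;> rw [hσ] <;> norm_num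
      have r1 := rowI_eq_zero h h2 hnull (Sum.inl (s + 1))
      have r2 := rowI_eq_zero h h2 hnull (Sum.inr 1)
      rw [rowI, rowI_con] at r1 r2
      -- the product with `v_{s+1}`
      have s1 : ∑ j ∈ Finset.range (n + 1), gram G b (Sum.inl ((s : ℤ) + 1)) (Sum.inl (e - s + (j : ℤ))) = -1 := by
        rw [Finset.sum_range_succ]
        have : ∑ j ∈ Finset.range n, gram G b (Sum.inl ((s : ℤ) + 1)) (Sum.inl (e - s + (j : ℤ))) = 0 := by
          refine Finset.sum_eq_zero fun j hj => ?_
          show G ((s : ℤ) + 1 - (e - s + j)) = 0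
          have := Finset.mem_range.1 hj
          exact hG _ (by omega)
        rw [this, zero_add]
        show G ((s : ℤ) + 1 - (e - s + n)) = -1
        rw [show ((s : ℤ) + 1 - (e - s + n)) = 1 by omega, hG1]
      have s2 : ∑ j ∈ Finset.range (n + 1), gram G b (Sum.inr 1) (Sum.inl (e - s + (j : ℤ))) =
          b (s + 1) + b s := by
        rw [← rowb]
        have hm : ∀ j : ℕ, e - s + (j : ℤ) - 1 = e - s - 1 + j := fun j => by ring
        simp only [hm]
        rw [Finset.sum_range_succ']
        obtain ⟨n', rfl⟩ : ∃ n', n = n' + 1 := ⟨n - 1, by omega⟩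
        rw [Finset.sum_range_succ']
        have hzero : ∑ j ∈ Finset.range n', b (e - s - 1 + ((j + 1 + 1 : ℕ) : ℤ)) = 0 := by
          refine Finset.sum_eq_zero fun j hj => hz _ (by push_cast; omega) ?_
          have := Finset.mem_range.1 hj
          push_cast
          push_cast at hn
          omega
        rw [hzero]
        have q1 : b (e - s - 1 + ((0 + 1 : ℕ) : ℤ)) = b s := by
          rw [← hbe]
          congr 1
          push_cast
          ring
        have q2 : b (e - s - 1 + ((0 : ℕ) : ℤ)) = b (s + 1) := by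
          rw [← hb]
          congr 1
          push_cast
          ring
        rw [q1, q2]
        ring
      rw [s1] at r1
      rw [s2] at r2
      simp only [gram, sub_zero] at r1 r2
      rw [hG1] at r2
      rcases hσ with hσ | hσ <;> rw [hσ] at r1 r2 <;> omega

end Pool.Agent.H4.RL
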