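import Pool.Agent.H4.RL.Exist
import Pool.Agent.H4.RL.Data

/-! All functions of the list occur. -/

set_option autoImplicit false

namespace Pool.Agent.H4.RL

open Pool.Agent.H70.CS Pool.Agent.H4.ST Filter Topology ComplexConjugate

lemma list_range_sum {M : Type} [AddCommMonoid M] (f : ℕ → M) (n : ℕ) :
    ((List.range n).map f).sum = ∑ i ∈ Finset.range n, f i := by
  induction n with
  | zero => simp
  | succ n ih => rw [List.range_succ, List.map_append, List.sum_append, ih, Finset.sum_range_succ]; simp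

lemma sum_shift (F : ℕ → ℂ) (P : ℕ) (hF : ∀ k, F (k + P) = F k) (c : ℕ) :
    ∑ i ∈ Finset.range P, F (i + c) = ∑ i ∈ Finset.range P, F i := by
  induction c with
  | zero => simp
  | succ c ih =>
    have h1 := Finset.sum_range_succ (fun i => F (i + c)) P
    have h2 := Finset.sum_range_succ' (fun i => F (i + c)) P
    rw [h1] at h2
    have h3 : F (P + c) = F (0 + c) := by rw [zero_add, add_comm]; exact hF c
    rw [h3] at h2
    have h4 := add_right_cancel h2
    rw [← ih, h4]
    refine Finset.sum_congr rfl fun i _ => ?_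
    congr 1
    ring

lemma sum_fac (P : ℕ) (D : List (ℤ × List ℤ)) (a : ℕ → ℂ) :
    ∑ i ∈ Finset.range P, ∑ j ∈ Finset.range P,
      (((D.map fun t => t.1 * t.2.getD i 0 * t.2.getD j 0).sum : ℤ) : ℂ) * (conj (a i) * a j) =
    (D.map fun t => (t.1 : ℂ) * ((∑ i ∈ Finset.range P, ((t.2.getD i 0 : ℤ) : ℂ) * conj (a i)) *
      ∑ j ∈ Finset.range P, ((t.2.getD j 0 : ℤ) : ℂ) * a j)).sum := by
  induction D with
  | nil => simp
  | cons t D ih =>
    simp only [List.map_cons, List.sum_cons, Int.cast_add, add_mul, Finset.sum_add_distrib]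
    rw [ih]
    congr 1
    rw [Finset.sum_mul_sum, Finset.mul_sum]
    refine Finset.sum_congr rfl fun i _ => ?_
    rw [Finset.mul_sum]
    refine Finset.sum_congr rfl fun j _ => ?_
    push_cast
    ring

lemma re_nonneg_list (P : ℕ) (D : List (ℤ × List ℤ)) (hD : ∀ t ∈ D, 0 ≤ t.1) (a : ℕ → ℂ) :
    0 ≤ ((D.map fun t => (t.1 : ℂ) * ((∑ i ∈ Finset.range P, ((t.2.getD i 0 : ℤ) : ℂ) * conj (a i)) *
      ∑ j ∈ Finset.range P, ((t.2.getD j 0 : ℤ) : ℂ) * a j)).sum).re := by
  induction D with
  | nil => simp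
  | cons t D ih =>
    rw [List.map_cons, List.sum_cons, Complex.add_re]
    refine add_nonneg ?_ (ih fun t ht => hD t (List.mem_cons_of_mem _ ht))
    have e : (∑ i ∈ Finset.range P, ((t.2.getD i 0 : ℤ) : ℂ) * conj (a i)) =
        conj (∑ j ∈ Finset.range P, ((t.2.getD j 0 : ℤ) : ℂ) * a j) := by
      rw [map_sum]
      refine Finset.sum_congr rfl fun i _ => ?_
      rw [map_mul, map_intCast]
    rw [e, mul_comm (conj _), Complex.mul_conj]
    have e2 : ((t.1 : ℤ) : ℂ) = ((t.1 : ℝ) : ℂ) := by push_cast; rfl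
    rw [e2, ← Complex.ofReal_mul, Complex.ofReal_re]
    exact mul_nonneg (by exact_mod_cast hD t (List.mem_cons_self ..)) (Complex.normSq_nonneg _)

lemma nonneg_of_fac {N : ℤ} (hN : 0 < N) {l : List ℤ} {D : List (ℤ × List ℤ)} (hl : 0 < l.length)
    (h : isFac N l D = true) (z : Circle) (hz : z ^ l.length = 1) :
    0 ≤ (∑ j ∈ Finset.range l.length,
      ((l.getD j 0 : ℤ) : ℂ) * conj ((z ^ (j : ℤ) : Circle) : ℂ)).re := by
  set P := l.length with hP
  unfold isFac at h
  rw [Bool.and_eq_true, List.all_eq_true, List.all_eq_true] at h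
  obtain ⟨hD, hf⟩ := h
  have hD' : ∀ t ∈ D, 0 ≤ t.1 := fun t ht => by simpa using hD t ht
  have hf' : ∀ i < P, ∀ j < P, N * per l (i + P - j) =
      (D.map fun t => t.1 * t.2.getD i 0 * t.2.getD j 0).sum := by
    intro i hi j hj
    have := hf i (List.mem_range.2 hi)
    rw [List.all_eq_true] at this
    simpa using this j (List.mem_range.2 hj)
  set a : ℕ → ℂ := fun i => ((z ^ (i : ℤ) : Circle) : ℂ) with ha
  set F : ℕ → ℂ := fun k => ((per l k : ℤ) : ℂ) * conj (a k) with hF
  have hzP : (z : Circle) ^ (P : ℤ) = 1 := by exact_mod_cast hz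
  have haP : ∀ k, a (k + P) = a k := by
    intro k
    simp only [ha]
    push_cast
    rw [← Circle.coe_zpow, ← Circle.coe_zpow, zpow_add, hzP, mul_one]
  have hFper : ∀ k, F (k + P) = F k := by
    intro k
    simp only [hF, haP]
    congr 2
    unfold per
    rw [Nat.add_mod_right]
  have hS : ∑ j ∈ Finset.range P, ((l.getD j 0 : ℤ) : ℂ) * conj ((z ^ (j : ℤ) : Circle) : ℂ) =
      ∑ j ∈ Finset.range P, F j := by
    refine Finset.sum_congr rfl fun j hj => ?_
    simp only [hF, per]
    rw [← hP, Nat.mod_eq_of_lt (Finset.mem_range.1 hj)]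
  have hmain : ∑ i ∈ Finset.range P, ∑ j ∈ Finset.range P,
      (((D.map fun t => t.1 * t.2.getD i 0 * t.2.getD j 0).sum : ℤ) : ℂ) * (conj (a i) * a j) =
      ((N * P : ℤ) : ℂ) * ∑ j ∈ Finset.range P, F j := by
    rw [Finset.sum_comm]
    have : ∀ j ∈ Finset.range P, ∑ i ∈ Finset.range P,
        (((D.map fun t => t.1 * t.2.getD i 0 * t.2.getD j 0).sum : ℤ) : ℂ) * (conj (a i) * a j) =
        (N : ℂ) * ∑ i ∈ Finset.range P, F i := by
      intro j hj
      have hj' := Finset.mem_range.1 hj
      rw [← sum_shift F P hFper (P - j), Finset.mul_sum]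
      refine Finset.sum_congr rfl fun i hi => ?_
      rw [← hf' i (Finset.mem_range.1 hi) j hj']
      have e1 : i + (P - j) = i + P - j := by omega
      have e2 : a i = a (i + (P - j)) * a j := by
        rw [← haP i]
        simp only [ha]
        rw [← Circle.coe_mul, ← zpow_add]
        congr 2
        push_cast
        omega
      have e3 : conj (a j) * a j = 1 := by
        rw [mul_comm, Complex.mul_conj]
        simp only [ha, Circle.normSq_coe, Complex.ofReal_one]
      simp only [hF]
      rw [← e1]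
      push_cast
      rw [e2, map_mul]
      calc (N : ℂ) * (per l (i + (P - j)) : ℂ) * (conj (a (i + (P - j))) * conj (a j) * a j)
          = (N : ℂ) * (per l (i + (P - j)) : ℂ) * conj (a (i + (P - j))) * (conj (a j) * a j) := by
            ring
        _ = _ := by rw [e3]; ring
    rw [Finset.sum_congr rfl this, Finset.sum_const, Finset.card_range, nsmul_eq_mul]
    push_cast
    ring
  have h1 := re_nonneg_list P D hD' a
  rw [← sum_fac, hmain] at h1
  have e2 : (((N * P : ℤ)) : ℂ) = ((((N * P : ℤ)) : ℝ) : ℂ) := by push_cast; rfl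
  rw [e2, Complex.re_ofReal_mul] at h1
  rw [hS]
  have h2 : (0 : ℝ) < ((N * P : ℤ) : ℝ) := by
    exact_mod_cast mul_pos hN (by exact_mod_cast hl)
  exact nonneg_of_mul_nonneg_right h1 h2

lemma sum_ite_dvd (l : List ℤ) (hl : 0 < l.length) (m : ℤ) :
    ∑ j ∈ Finset.range l.length, (if (l.length : ℤ) ∣ m - (j : ℤ) then l.getD j 0 else 0) =
      l.getD (m % l.length).toNat 0 := by
  have hP : (0 : ℤ) < l.length := by exact_mod_cast hl
  have h1 := Int.emod_nonneg m hP.ne'
  have h2 := Int.emod_lt_of_pos m hP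
  have h3 := Int.emod_add_mul_ediv m l.length
  rw [Finset.sum_eq_single (m % l.length).toNat]
  · rw [if_pos]
    refine ⟨m / l.length, ?_⟩
    rw [Int.toNat_of_nonneg h1]
    linarith
  · intro j hj hne
    rw [if_neg]
    intro hd
    apply hne
    have hj' := Finset.mem_range.1 hj
    have h4 : m % l.length = (j : ℤ) % l.length := by
      exact (Int.emod_emod_of_dvd _ (dvd_refl _)).symm.trans (by
        rw [Int.emod_emod_of_dvd _ (dvd_refl _)]
        exact (Int.emod_emod_of_dvd m (dvd_refl _)).symm.trans (by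
          rw [Int.emod_emod_of_dvd _ (dvd_refl _)]
          exact Int.ModEq.symm (Int.modEq_iff_dvd.2 hd)))
    rw [h4, Int.emod_eq_of_lt (by omega) (by exact_mod_cast hj')]
    simp
  · intro hn
    exfalso
    apply hn
    rw [Finset.mem_range]
    omega

/-- the properties of the exceptional lists -/
structure Good (l : List ℤ) : Prop where
  fac : ∃ (N : ℤ) (D : List (ℤ × List ℤ)), 0 < N ∧ isFac N l D = true
  len : 0 < l.length
  zero : l.getD 0 0 = 2
  symm : ∀ j < l.length, l.getD ((l.length - j) % l.length) 0 = l.getD j 0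

theorem occurs_per {l : List ℤ} (h : Good l) {K : ℕ → ℤ} (hK0 : K 0 = 1)
    (hK : ∀ m, K (m + 1) - K m = per l (m + 1)) : Occurs K := by
  obtain ⟨N, D, hN, hD⟩ := h.fac
  refine occurs_of_density l.length ((List.range l.length).map fun j => (l.getD j 0, (j : ℤ)))
    (fun m => ?_) (fun z hz => ?_)
  · rw [List.map_map]
    simp only [Function.comp_def]
    rw [list_range_sum, sum_ite_dvd l h.len]
    have hnat : ∀ k : ℕ, l.getD (((k : ℤ) % l.length).toNat) 0 = gg K k := by
      intro k
      have e : ((k : ℤ) % l.length).toNat = k % l.length := by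
        rw [← Int.natCast_mod, Int.toNat_natCast]
      rw [e]
      unfold gg
      split_ifs with hk
      · have : k = 0 := by exact_mod_cast hk
        subst this
        rw [Nat.zero_mod, h.zero]
      · obtain ⟨i, rfl⟩ : ∃ i, k = i + 1 := ⟨k - 1, by omega⟩
        rw [Int.natAbs_natCast, Nat.add_sub_cancel, hK]
        rfl
    rcases Int.natAbs_eq m with e | e
    · rw [e]; exact hnat _
    · have hsymm : gg K m = gg K (m.natAbs : ℤ) := by
        unfold gg
        simp only [Int.natAbs_natCast]
        by_cases h0 : m = 0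
        · simp [h0]
        · rw [if_neg h0, if_neg (by omega)]
      rw [hsymm, ← hnat]
      have hlt : m.natAbs % l.length < l.length := Nat.mod_lt _ h.len
      have h1 := h.symm _ hlt
      have e3 : (((m.natAbs : ℕ) : ℤ) % l.length).toNat = m.natAbs % l.length := by
        rw [← Int.natCast_mod, Int.toNat_natCast]
      rw [e3, ← h1]
      congr 1
      have hP : (0 : ℤ) < l.length := by exact_mod_cast h.len
      have e4 : m % (l.length : ℤ) = (((l.length - m.natAbs % l.length) % l.length : ℕ) : ℤ) := by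
        rw [Int.natCast_mod, Nat.cast_sub hlt.le, Int.natCast_mod]
        conv_lhs => rw [e]
        rw [Int.sub_emod, Int.emod_self, Int.emod_emod_of_dvd _ (dvd_refl _), ← Int.zero_emod (l.length : ℤ),
          ← Int.sub_emod, zero_sub]
      rw [e4, Int.toNat_natCast]
  · rw [List.map_map]
    simp only [Function.comp_def]
    rw [list_range_sum]
    exact nonneg_of_fac hN h.len hD z hz

lemma good_exc : ∀ l ∈ exc, Good l := by
  intro l hl
  simp only [exc, List.mem_cons, List.not_mem_nil, or_false] at hl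
  rcases hl with rfl | rfl | rfl | rfl | rfl | rfl | rfl | rfl | rfl | rfl | rfl | rfl | rfl | rfl |
    rfl | rfl
  · exact ⟨⟨_, _, by norm_num, fac1⟩, by decide, by decide, by decide⟩
  · exact ⟨⟨_, _, by norm_num, fac2⟩, by decide, by decide, by decide⟩
  · exact ⟨⟨_, _, by norm_num, fac3⟩, by decide, by decide, by decide⟩
  · exact ⟨⟨_, _, by norm_num, fac4⟩, by decide, by decide, by decide⟩
  · exact ⟨⟨_, _, by norm_num, fac5⟩, by decide, by decide, by decide⟩
  · exact ⟨⟨_, _, by norm_num, fac6⟩, by decide, by decide, by decide⟩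
  · exact ⟨⟨_, _, by norm_num, fac7⟩, by decide, by decide, by decide⟩
  · exact ⟨⟨_, _, by norm_num, fac8⟩, by decide, by decide, by decide⟩
  · exact ⟨⟨_, _, by norm_num, fac9⟩, by decide, by decide, by decide⟩
  · exact ⟨⟨_, _, by norm_num, fac10⟩, by decide, by decide, by decide⟩
  · exact ⟨⟨_, _, by norm_num, fac11⟩, by decide, by decide, by decide⟩
  · exact ⟨⟨_, _, by norm_num, fac12⟩, by decide, by decide, by decide⟩
  · exact ⟨⟨_, _, by norm_num, fac13⟩, by decide, by decide, by decide⟩
  · exact ⟨⟨_, _, by norm_num, fac14⟩, by decide, by decide, by decide⟩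
  · exact ⟨⟨_, _, by norm_num, fac15⟩, by decide, by decide, by decide⟩
  · exact ⟨⟨_, _, by norm_num, fac16⟩, by decide, by decide, by decide⟩

end Pool.Agent.H4.RL
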