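import Pool.Agent.H4.RL.Laws

/-! The infinite law and the laws of type `A` and `D`; signs. -/

set_option autoImplicit false

namespace Pool.Agent.H4.RL

open Pool.Agent.H70.CS Pool.Agent.H4.ST Filter Topology ComplexConjugate

lemma re_two_sub (z : Circle) : (2 : ℂ) - conj (z : ℂ) - (z : ℂ) = ((2 - 2 * (z : ℂ).re : ℝ) : ℂ) := by
  have := Complex.add_conj (z : ℂ)
  push_cast
  push_cast at this
  linear_combination -this

lemma two_sub_nonneg (z : Circle) : 0 ≤ 2 - 2 * (z : ℂ).re := by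
  have := (Complex.re_le_norm (z : ℂ)).trans (Circle.norm_coe z).le
  linarith

lemma dens_A (z : Circle) : (([(2, 0), (-1, 1), (-1, -1)] : List (ℤ × ℤ)).map fun t =>
    (t.1 : ℂ) * conj ((z ^ t.2 : Circle) : ℂ)).sum = ((2 - 2 * (z : ℂ).re : ℝ) : ℂ) := by
  rw [← re_two_sub]
  simp only [List.map_cons, List.map_nil, List.sum_cons, List.sum_nil, zpow_zero, zpow_one, zpow_neg,
    Circle.coe_one, map_one, Circle.coe_inv_eq_conj, Complex.conj_conj]
  push_cast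
  ring

lemma gg_of {K : ℕ → ℤ} {pat : ℕ → ℤ} (h0 : pat 0 = 2) (hK : ∀ m, K (m + 1) - K m = pat (m + 1))
    (m : ℤ) : gg K m = pat m.natAbs := by
  unfold gg
  split_ifs with hm
  · rw [hm, Int.natAbs_zero, h0]
  · obtain ⟨i, hi⟩ : ∃ i, m.natAbs = i + 1 := ⟨m.natAbs - 1, by omega⟩
    rw [hi, Nat.add_sub_cancel, hK]

theorem occurs_zero {K : ℕ → ℤ} (hK0 : K 0 = 1) (hK : ∀ m, 1 ≤ m → K m = 0) : Occurs K := by
  refine occurs_of_density 0 [(2, 0), (-1, 1), (-1, -1)] (fun m => ?_) (fun z _ => ?_)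
  · simp only [List.map_cons, List.map_nil, List.sum_cons, List.sum_nil, Nat.cast_zero, zero_dvd_iff]
    unfold gg
    by_cases h0 : m = 0
    · subst h0; simp
    · rw [if_neg h0]
      rw [if_neg (by omega : ¬ (m - 0 = 0))]
      by_cases h1 : m.natAbs = 1
      · rw [h1, hK 1 le_rfl, hK0]
        rcases Int.natAbs_eq m with e | e
        · rw [h1] at e
          rw [if_pos (by omega), if_neg (by omega)]
          norm_num
        · rw [h1] at e
          rw [if_neg (by omega), if_pos (by omega)]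
          norm_num
      · rw [hK _ (by omega), hK _ (by omega), if_neg (by omega), if_neg (by omega)]
        norm_num
  · rw [dens_A, Complex.ofReal_re]
    exact two_sub_nonneg z

lemma dvd_natAbs_sub (N : ℕ) (m : ℤ) (c : ℤ) (h : m = -(m.natAbs : ℤ)) :
    (N : ℤ) ∣ m - c ↔ (N : ℤ) ∣ (m.natAbs : ℤ) + c := by
  rw [← dvd_neg]
  have : -(m - c) = (m.natAbs : ℤ) + c := by omega
  rw [this]

/-- divisibility and remainders -/
lemma dvd_iff_mod {P : ℕ} (k : ℕ) (c : ℤ) (r : ℕ) (hr : r < P) (h : (P : ℤ) ∣ c - r) :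
    (P : ℤ) ∣ (k : ℤ) - c ↔ k % P = r := by
  have e : (k : ℤ) - c = (k : ℤ) - r - (c - r) := by ring
  rw [e, dvd_sub_left h]
  constructor
  · intro hd
    have h1 : (r : ℤ) ≡ k [ZMOD P] := Int.modEq_iff_dvd.2 hd
    have h2 : r ≡ k [MOD P] := (Int.natCast_modEq_iff).1 h1
    rw [← h2, Nat.mod_eq_of_lt hr]
  · intro hk
    have h2 : r ≡ k [MOD P] := by
      unfold Nat.ModEq
      rw [hk, Nat.mod_eq_of_lt hr]
    exact Int.modEq_iff_dvd.1 ((Int.natCast_modEq_iff).2 h2)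

theorem occurs_A {N : ℕ} (hN : 4 ≤ N) {K : ℕ → ℤ} (hK0 : K 0 = 1)
    (hK : ∀ m, K (m + 1) - K m = patA N (m + 1)) : Occurs K := by
  refine occurs_of_density N [(2, 0), (-1, 1), (-1, -1)] (fun m => ?_) (fun z _ => ?_)
  · simp only [List.map_cons, List.map_nil, List.sum_cons, List.sum_nil]
    rw [gg_of (pat := patA N) (by simp [patA]) hK]
    have a0 : (N : ℤ) ∣ m - 0 ↔ m.natAbs % N = 0 := by
      rw [sub_zero, ← Int.dvd_natAbs, Int.natCast_dvd_natCast]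
      exact Nat.dvd_iff_mod_eq_zero
    have b1 : ∀ k : ℕ, (N : ℤ) ∣ (k : ℤ) - 1 ↔ k % N = 1 := fun k =>
      dvd_iff_mod k 1 1 (by omega) (by simp)
    have b2 : ∀ k : ℕ, (N : ℤ) ∣ (k : ℤ) - -1 ↔ k % N = N - 1 := fun k =>
      dvd_iff_mod k (-1) (N - 1) (by omega) (by
        rw [Nat.cast_sub (by omega)]
        exact ⟨-1, by push_cast; ring⟩)
    have a1 : ((N : ℤ) ∣ m - 1 ↔ m.natAbs % N = 1) ∧ ((N : ℤ) ∣ m - -1 ↔ m.natAbs % N = N - 1) ∨
        ((N : ℤ) ∣ m - 1 ↔ m.natAbs % N = N - 1) ∧ ((N : ℤ) ∣ m - -1 ↔ m.natAbs % N = 1) := by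
      rcases Int.natAbs_eq m with e | e
      · left
        rw [← b1, ← b2, ← e]
        exact ⟨Iff.rfl, Iff.rfl⟩
      · right
        rw [dvd_natAbs_sub N m 1 e, dvd_natAbs_sub N m (-1) e, ← b1, ← b2]
        constructor
        · rw [sub_neg_eq_add]
        · rw [sub_eq_add_neg]
    rw [if_congr a0 rfl rfl]
    unfold patA
    rcases a1 with ⟨h1, h2⟩ | ⟨h1, h2⟩
    · rw [if_congr h1 rfl rfl, if_congr h2 rfl rfl]
      split_ifs <;> omega
    · rw [if_congr h1 rfl rfl, if_congr h2 rfl rfl]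
      split_ifs <;> omega
  · rw [dens_A, Complex.ofReal_re]
    exact two_sub_nonneg z

lemma patD_eq {N : ℕ} (hN : 4 ≤ N) (k : ℕ) : patD N k =
    if k % (2 * N) = 0 then 2 else if k % (2 * N) = 1 ∨ k % (2 * N) = 2 * N - 1 then -1 else
      if k % (2 * N) = N then -2 else if k % (2 * N) = N + 1 ∨ k % (2 * N) = N - 1 then 1 else 0 := by
  have hlt : k % (2 * N) < 2 * N := Nat.mod_lt _ (by omega)
  have e := Nat.mod_add_div k (2 * N)
  set r := k % (2 * N) with hr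
  set t := k / (2 * N) with ht
  have hk : k = r + N * (2 * t) := by rw [← e]; ring
  unfold patD
  by_cases h : r < N
  · have h1 : k % N = r := by rw [hk, Nat.add_mul_mod_self_left, Nat.mod_eq_of_lt h]
    have h2 : k / N = 2 * t := by
      rw [hk, Nat.add_mul_div_left _ _ (by omega), Nat.div_eq_of_lt h, zero_add]
    rw [h1, h2, pow_mul]
    norm_num
    split_ifs <;> omega
  · have hk' : k = (r - N) + N * (2 * t + 1) := by
      rw [hk]
      have : r = (r - N) + N := by omega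
      conv_lhs => rw [this]
      ring
    have h1 : k % N = r - N := by
      rw [hk', Nat.add_mul_mod_self_left, Nat.mod_eq_of_lt (by omega)]
    have h2 : k / N = 2 * t + 1 := by
      rw [hk', Nat.add_mul_div_left _ _ (by omega), Nat.div_eq_of_lt (by omega), zero_add]
    rw [h1, h2, pow_succ, pow_mul]
    norm_num
    split_ifs <;> omega

theorem occurs_D {N : ℕ} (hN : 4 ≤ N) {K : ℕ → ℤ} (hK0 : K 0 = 1)
    (hK : ∀ m, K (m + 1) - K m = patD N (m + 1)) : Occurs K := by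
  refine occurs_of_density (2 * N) [(2, 0), (-1, 1), (-1, -1), (-2, (N : ℤ)), (1, (N : ℤ) + 1),
    (1, (N : ℤ) - 1)] (fun m => ?_) (fun z hz => ?_)
  · simp only [List.map_cons, List.map_nil, List.sum_cons, List.sum_nil]
    rw [gg_of (pat := patD N) (by simp [patD]) hK]
    have key : ∀ (k : ℕ) (c : ℤ) (r : ℕ), r < 2 * N → (∃ q : ℤ, c - r = (2 * N : ℕ) * q) →
        (((2 * N : ℕ) : ℤ) ∣ (k : ℤ) - c ↔ k % (2 * N) = r) := fun k c r hr hq =>
      dvd_iff_mod k c r hr hq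
    have a0 : ((2 * N : ℕ) : ℤ) ∣ m - 0 ↔ m.natAbs % (2 * N) = 0 := by
      rw [sub_zero, ← Int.dvd_natAbs, Int.natCast_dvd_natCast]
      exact Nat.dvd_iff_mod_eq_zero
    have b1 : ∀ k : ℕ, ((2 * N : ℕ) : ℤ) ∣ (k : ℤ) - 1 ↔ k % (2 * N) = 1 := fun k =>
      key k 1 1 (by omega) ⟨0, by simp⟩
    have b2 : ∀ k : ℕ, ((2 * N : ℕ) : ℤ) ∣ (k : ℤ) - -1 ↔ k % (2 * N) = 2 * N - 1 := fun k =>
      key k (-1) (2 * N - 1) (by omega) ⟨-1, by rw [Nat.cast_sub (by omega)]; push_cast; ring⟩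
    have b3 : ∀ k : ℕ, ((2 * N : ℕ) : ℤ) ∣ (k : ℤ) - N ↔ k % (2 * N) = N := fun k =>
      key k N N (by omega) ⟨0, by simp⟩
    have b4 : ∀ k : ℕ, ((2 * N : ℕ) : ℤ) ∣ (k : ℤ) - (N + 1) ↔ k % (2 * N) = N + 1 := fun k =>
      key k (N + 1) (N + 1) (by omega) ⟨0, by simp⟩
    have b5 : ∀ k : ℕ, ((2 * N : ℕ) : ℤ) ∣ (k : ℤ) - (N - 1) ↔ k % (2 * N) = N - 1 := fun k =>
      key k (N - 1) (N - 1) (by omega) ⟨0, by rw [Nat.cast_sub (by omega)]; simp⟩
    have c3 : ∀ k : ℕ, ((2 * N : ℕ) : ℤ) ∣ (k : ℤ) + N ↔ k % (2 * N) = N := fun k => by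
      rw [← b3, show (k : ℤ) + N = (k : ℤ) - N + (2 * N : ℕ) by push_cast; ring]
      exact dvd_add_left (dvd_refl _)
    have c4 : ∀ k : ℕ, ((2 * N : ℕ) : ℤ) ∣ (k : ℤ) + (N + 1) ↔ k % (2 * N) = N - 1 := fun k => by
      rw [← b5, show (k : ℤ) + (N + 1) = (k : ℤ) - (N - 1) + (2 * N : ℕ) by push_cast; ring]
      exact dvd_add_left (dvd_refl _)
    have c5 : ∀ k : ℕ, ((2 * N : ℕ) : ℤ) ∣ (k : ℤ) + (N - 1) ↔ k % (2 * N) = N + 1 := fun k => by
      rw [← b4, show (k : ℤ) + (N - 1) = (k : ℤ) - (N + 1) + (2 * N : ℕ) by push_cast; ring]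
      exact dvd_add_left (dvd_refl _)
    rw [if_congr a0 rfl rfl, patD_eq hN]
    rcases Int.natAbs_eq m with e | e
    · have h1 : ((2 * N : ℕ) : ℤ) ∣ m - 1 ↔ m.natAbs % (2 * N) = 1 := by rw [← b1, ← e]
      have h2 : ((2 * N : ℕ) : ℤ) ∣ m - -1 ↔ m.natAbs % (2 * N) = 2 * N - 1 := by rw [← b2, ← e]
      have h3 : ((2 * N : ℕ) : ℤ) ∣ m - N ↔ m.natAbs % (2 * N) = N := by rw [← b3, ← e]
      have h4 : ((2 * N : ℕ) : ℤ) ∣ m - (N + 1) ↔ m.natAbs % (2 * N) = N + 1 := by rw [← b4, ← e]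
      have h5 : ((2 * N : ℕ) : ℤ) ∣ m - (N - 1) ↔ m.natAbs % (2 * N) = N - 1 := by rw [← b5, ← e]
      rw [if_congr h1 rfl rfl, if_congr h2 rfl rfl, if_congr h3 rfl rfl, if_congr h4 rfl rfl,
        if_congr h5 rfl rfl]
      split_ifs <;> omega
    · have h1 : ((2 * N : ℕ) : ℤ) ∣ m - 1 ↔ m.natAbs % (2 * N) = 2 * N - 1 := by
        rw [dvd_natAbs_sub _ m 1 e, ← b2, sub_neg_eq_add]
      have h2 : ((2 * N : ℕ) : ℤ) ∣ m - -1 ↔ m.natAbs % (2 * N) = 1 := by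
        rw [dvd_natAbs_sub _ m (-1) e, ← b1, sub_eq_add_neg]
      have h3 : ((2 * N : ℕ) : ℤ) ∣ m - N ↔ m.natAbs % (2 * N) = N := by
        rw [dvd_natAbs_sub _ m N e, c3]
      have h4 : ((2 * N : ℕ) : ℤ) ∣ m - (N + 1) ↔ m.natAbs % (2 * N) = N - 1 := by
        rw [dvd_natAbs_sub _ m (N + 1) e, c4]
      have h5 : ((2 * N : ℕ) : ℤ) ∣ m - (N - 1) ↔ m.natAbs % (2 * N) = N + 1 := by
        rw [dvd_natAbs_sub _ m (N - 1) e, c5]
      rw [if_congr h1 rfl rfl, if_congr h2 rfl rfl, if_congr h3 rfl rfl, if_congr h4 rfl rfl,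
        if_congr h5 rfl rfl]
      split_ifs <;> omega
  · -- the density is a product
    have hw : (z ^ (N : ℤ)) * (z ^ (N : ℤ)) = 1 := by
      rw [← zpow_add]
      have : (N : ℤ) + N = ((2 * N : ℕ) : ℤ) := by push_cast; ring
      rw [this, zpow_natCast, hz]
    have hw2 : ((z ^ (N : ℤ) : Circle) : ℂ) * ((z ^ (N : ℤ) : Circle) : ℂ) = 1 := by
      rw [← Circle.coe_mul, hw, Circle.coe_one]
    have e : (([(2, 0), (-1, 1), (-1, -1), (-2, (N : ℤ)), (1, (N : ℤ) + 1), (1, (N : ℤ) - 1)] :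
        List (ℤ × ℤ)).map fun t => (t.1 : ℂ) * conj ((z ^ t.2 : Circle) : ℂ)).sum =
        ((2 - 2 * (z : ℂ).re : ℝ) : ℂ) * (1 - conj ((z ^ (N : ℤ) : Circle) : ℂ)) := by
      rw [← re_two_sub]
      simp only [List.map_cons, List.map_nil, List.sum_cons, List.sum_nil, zpow_zero, zpow_one,
        zpow_neg, Circle.coe_one, map_one, Circle.coe_inv_eq_conj, Complex.conj_conj, zpow_add,
        zpow_sub, Circle.coe_mul, map_mul]
      push_cast
      ring
    rw [e, Complex.re_ofReal_mul]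
    refine mul_nonneg (two_sub_nonneg z) ?_
    rw [Complex.sub_re, Complex.one_re, Complex.conj_re]
    have := (Complex.re_le_norm ((z ^ (N : ℤ) : Circle) : ℂ)).trans (Circle.norm_coe _).le
    linarith

end Pool.Agent.H4.RL
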