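import Pool.Agent.H4.RL.Laws2

/-! The final form of the classification. -/

set_option autoImplicit false

namespace Pool.Agent.H4.RL

open Pool.Agent.H70.CS Pool.Agent.H4.ST Filter Topology

lemma gg_succ (K : ℕ → ℤ) (m : ℕ) : gg K ((m + 1 : ℕ) : ℤ) = K (m + 1) - K m := by
  unfold gg
  rw [if_neg (by omega), Int.natAbs_natCast, Nat.add_sub_cancel]

theorem listed_of_pos {K : ℕ → ℤ} (h : Pos (gg K)) (h0 : K 0 = 1) (h1 : K 1 = 0) (h2 : K 2 = 0) :
    Listed K := by
  have g1 : gg K 1 = -1 := by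
    have := gg_succ K 0
    rw [zero_add, h0, h1] at this
    simpa using this
  have g2 : gg K 2 = 0 := by
    have := gg_succ K 1
    rw [h1, h2] at this
    simpa using this
  refine ⟨h0, ?_⟩
  rcases n_0 h g1 g2 with hc | ⟨N, hN, hc⟩ | ⟨N, hN, hc⟩ | ⟨l, hl, hc⟩
  · left
    intro m hm
    induction m, hm using Nat.le_induction with
    | base => exact h1
    | succ m hm ih =>
      have := hc (m + 1) (by omega)
      rw [gg_succ, ih] at this
      linarith
  · exact Or.inr (Or.inl ⟨N, hN, fun m => by rw [← gg_succ, hc]⟩)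
  · exact Or.inr (Or.inr (Or.inl ⟨N, hN, fun m => by rw [← gg_succ, hc]⟩))
  · exact Or.inr (Or.inr (Or.inr ⟨l, hl, fun m => by rw [← gg_succ, hc]⟩))

/-- **The orders of every family.** -/
theorem orders (α β : Nat.Primes → Circle)
    (h : ∀ m : ℕ, ∃ F : ℂ → ℂ, MeromorphicAt F 1 ∧ ∀ s : ℂ, 1 < s.re → F s = LSym α β m s) :
    ∃ K : ℕ → ℤ, (∀ (m : ℕ) (F : ℂ → ℂ), MeromorphicAt F 1 →
      (∀ s : ℂ, 1 < s.re → F s = LSym α β m s) → meromorphicOrderAt F 1 = ((-K m : ℤ) : WithTop ℤ)) ∧
      K 0 = 1 ∧ Pos (gg K) ∧ ∀ m : ℕ, Mean (fun p => ∑ j ∈ Finset.Icc (-(m : ℤ)) m,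
        (((α p / β p) ^ j : Circle) : ℂ).re) (K m : ℤ) := by
  choose F hF hFe using h
  choose k hk hM using fun m => mean_of_order (hF m) (hFe m)
  have hK0 : -k 0 = 1 := by
    have h1 := hM 0
    have h2 : Mean (fun _ => (1 : ℝ)) (1 : ℝ) := by
      refine ⟨⟨1, fun p => by simp⟩, ?_⟩
      refine tendsto_const_nhds.congr' ?_
      filter_upwards [self_mem_nhdsWithin] with σ hσ
      have := mn_one (σ := σ) hσ
      push_cast
      exact this.symm
    have h3 := h1.congr (c := fun _ => (1 : ℝ)) fun p => by simp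
    have h4 := tendsto_nhds_unique h3.2 h2.2
    have h5 : (((-k 0 : ℤ) : ℝ)) = 1 := by exact_mod_cast h4
    exact_mod_cast h5
  refine ⟨fun m => -k m, fun m F' hF' hFe' => ?_, hK0, pos_of_means hK0 hM, hM⟩
  obtain ⟨k', hk', hM'⟩ := mean_of_order hF' hFe'
  have h4 := tendsto_nhds_unique hM'.2 (hM m).2
  have h5 : (((-k' : ℤ) : ℝ)) = ((-k m : ℤ) : ℝ) := by exact_mod_cast h4
  have h6 : -k' = -k m := by exact_mod_cast h5
  rw [hk', neg_neg]
  congr 1
  omega

theorem occurs_of_listed {K : ℕ → ℤ} (h : Listed K) : Occurs K := by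
  obtain ⟨h0, h | ⟨N, hN, h⟩ | ⟨N, hN, h⟩ | ⟨l, hl, h⟩⟩ := h
  · exact occurs_zero h0 h
  · exact occurs_A hN h0 h
  · exact occurs_D hN h0 h
  · exact occurs_per (good_exc l hl) h0 h

/-! ### signs -/

lemma eq_psum {l : List ℤ} {K : ℕ → ℤ} (h0 : K 0 = 1) (h : ∀ m, K (m + 1) - K m = per l (m + 1))
    (m : ℕ) : K m = psum l m := by
  unfold psum
  induction m with
  | zero => simp [h0]
  | succ m ih =>
    rw [Finset.sum_range_succ]
    have := h m
    linarith

lemma psum_nonneg {l : List ℤ} (hl : 0 < l.length)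
    (hc : 0 ≤ ∑ j ∈ Finset.range l.length, per l (j + 1)) (hb : ∀ m < l.length, 0 ≤ psum l m) (m : ℕ) :
    0 ≤ psum l m := by
  have hshift : ∀ c : ℕ, ∑ j ∈ Finset.range l.length, per l (j + c + 1) =
      ∑ j ∈ Finset.range l.length, per l (j + 1) := by
    intro c
    induction c with
    | zero => simp
    | succ c ih =>
      have h1 := Finset.sum_range_succ (fun i => per l (i + c + 1)) l.length
      have h2 := Finset.sum_range_succ' (fun i => per l (i + c + 1)) l.length
      rw [h1] at h2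
      have h3 : per l (l.length + c + 1) = per l (0 + c + 1) := by
        unfold per
        rw [show l.length + c + 1 = 0 + c + 1 + l.length by ring, Nat.add_mod_right]
      rw [h3] at h2
      have h4 := add_right_cancel h2
      rw [← ih, h4]
      refine Finset.sum_congr rfl fun i _ => ?_
      congr 1
      ring
  induction m using Nat.strong_induction_on with
  | _ m ih =>
    by_cases hm : m < l.length
    · exact hb m hm
    · obtain ⟨i, rfl⟩ : ∃ i, m = i + l.length := ⟨m - l.length, by omega⟩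
      have h1 := ih i (by omega)
      unfold psum at h1 ⊢
      rw [Finset.sum_range_add]
      have h2 := hshift i
      have h3 : ∑ x ∈ Finset.range l.length, per l (i + x + 1) =
          ∑ j ∈ Finset.range l.length, per l (j + i + 1) :=
        Finset.sum_congr rfl fun x _ => by rw [add_comm i x]
      rw [h3, h2]
      linarith

lemma excPos_nonneg : ∀ l ∈ excPos, ∀ m, 0 ≤ psum l m := by
  intro l hl
  simp only [excPos, List.mem_cons, List.not_mem_nil, or_false] at hl
  rcases hl with rfl | rfl | rfl | rfl | rfl | rfl | rfl | rfl <;>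
    exact psum_nonneg (by decide) (by decide +kernel) (by decide +kernel)

lemma exc_neg : ∀ l ∈ exc, l ∈ excPos ∨ ∃ m, psum l m < 0 := by
  intro l hl
  simp only [exc, List.mem_cons, List.not_mem_nil, or_false] at hl
  rcases hl with rfl | rfl | rfl | rfl | rfl | rfl | rfl | rfl | rfl | rfl | rfl | rfl | rfl | rfl |
    rfl | rfl
  · left; simp [excPos]
  · right; exact ⟨15, by decide +kernel⟩
  · left; simp [excPos]
  · right; exact ⟨9, by decide +kernel⟩
  · right; exact ⟨12, by decide +kernel⟩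
  · left; simp [excPos]
  · left; simp [excPos]
  · right; exact ⟨8, by decide +kernel⟩
  · right; exact ⟨7, by decide +kernel⟩
  · right; exact ⟨10, by decide +kernel⟩
  · left; simp [excPos]
  · right; exact ⟨9, by decide +kernel⟩
  · right; exact ⟨15, by decide +kernel⟩
  · left; simp [excPos]
  · left; simp [excPos]
  · left; simp [excPos]

lemma patA_neg {N : ℕ} (hN : 4 ≤ N) {K : ℕ → ℤ} (h0 : K 0 = 1)
    (h : ∀ m, K (m + 1) - K m = patA N (m + 1)) : K (N - 1) = -1 := by
  have h1 : ∀ m, 1 ≤ m → m ≤ N - 2 → K m = 0 := by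
    intro m hm
    induction m, hm using Nat.le_induction with
    | base =>
      intro _
      have := h 0
      rw [h0, zero_add] at this
      unfold patA at this
      rw [Nat.mod_eq_of_lt (by omega : 1 < N), if_neg (by omega), if_pos (Or.inl rfl)] at this
      linarith
    | succ m hm ih =>
      intro hm2
      have := h m
      rw [ih (by omega)] at this
      unfold patA at this
      rw [Nat.mod_eq_of_lt (by omega : m + 1 < N), if_neg (by omega), if_neg (by omega)] at this
      linarith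
  have h2 := h (N - 2)
  rw [h1 (N - 2) (by omega) le_rfl] at h2
  have e : N - 2 + 1 = N - 1 := by omega
  rw [e] at h2
  unfold patA at h2
  rw [Nat.mod_eq_of_lt (by omega : N - 1 < N), if_neg (by omega), if_pos (Or.inr rfl)] at h2
  linarith

lemma patD_neg {N : ℕ} (hN : 4 ≤ N) {K : ℕ → ℤ} (h0 : K 0 = 1)
    (h : ∀ m, K (m + 1) - K m = patD N (m + 1)) : K N = -1 := by
  have h1 : ∀ m, 1 ≤ m → m ≤ N - 2 → K m = 0 := by
    intro m hm
    induction m, hm using Nat.le_induction with
    | base =>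
      intro _
      have := h 0
      rw [h0, zero_add, patD_eq hN] at this
      rw [Nat.mod_eq_of_lt (by omega : 1 < 2 * N), if_neg (by omega), if_pos (Or.inl rfl)] at this
      linarith
    | succ m hm ih =>
      intro hm2
      have := h m
      rw [ih (by omega), patD_eq hN] at this
      rw [Nat.mod_eq_of_lt (by omega : m + 1 < 2 * N), if_neg (by omega), if_neg (by omega),
        if_neg (by omega), if_neg (by omega)] at this
      linarith
  have h2 := h (N - 2)
  rw [h1 (N - 2) (by omega) le_rfl] at h2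
  have e : N - 2 + 1 = N - 1 := by omega
  rw [e, patD_eq hN] at h2
  rw [Nat.mod_eq_of_lt (by omega : N - 1 < 2 * N), if_neg (by omega), if_neg (by omega),
    if_neg (by omega), if_pos (Or.inr rfl)] at h2
  have h3 := h (N - 1)
  have e3 : N - 1 + 1 = N := by omega
  rw [e3, patD_eq hN] at h3
  rw [Nat.mod_eq_of_lt (by omega : N < 2 * N), if_neg (by omega), if_neg (by omega),
    if_pos rfl] at h3
  linarith

theorem nonneg_list {K : ℕ → ℤ} (h : Listed K) (hn : ∀ m, 0 ≤ K m) :
    (∀ m, 1 ≤ m → K m = 0) ∨ ∃ l ∈ excPos, ∀ m, K m = psum l m := by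
  obtain ⟨h0, h | ⟨N, hN, h⟩ | ⟨N, hN, h⟩ | ⟨l, hl, h⟩⟩ := h
  · exact Or.inl h
  · exfalso
    have := patA_neg hN h0 h
    have := hn (N - 1)
    omega
  · exfalso
    have := patD_neg hN h0 h
    have := hn N
    omega
  · right
    rcases exc_neg l hl with h1 | ⟨m, hm⟩
    · exact ⟨l, h1, eq_psum h0 h⟩
    · exfalso
      have := hn m
      rw [eq_psum h0 h m] at this
      omega

lemma excPos_six : ∀ l ∈ excPos, psum l 3 ≠ 0 ∨ psum l 4 ≠ 0 ∨ psum l 5 ≠ 0 ∨ psum l 6 ≠ 0 := by
  decide +kernel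

lemma excPos_four : ∀ l ∈ excPos, psum l 3 = 0 → psum l 4 = 0 → l = e1 ∨ l = e3 := by
  decide +kernel

lemma listed_one_two {K : ℕ → ℤ} (h : Listed K) : K 1 = 0 ∧ K 2 = 0 := by
  obtain ⟨h0, h | ⟨N, hN, h⟩ | ⟨N, hN, h⟩ | ⟨l, hl, h⟩⟩ := h
  · exact ⟨h 1 le_rfl, h 2 (by norm_num)⟩
  · have h1 := h 0
    have h2 := h 1
    unfold patA at h1 h2
    rw [zero_add, Nat.mod_eq_of_lt (by omega : 1 < N), if_neg (by omega), if_pos (Or.inl rfl)] at h1
    rw [Nat.mod_eq_of_lt (by omega : 1 + 1 < N), if_neg (by omega), if_neg (by omega)] at h2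
    norm_num at h2
    constructor <;> omega
  · have h1 := h 0
    have h2 := h 1
    rw [patD_eq hN] at h1 h2
    rw [zero_add, Nat.mod_eq_of_lt (by omega : 1 < 2 * N), if_neg (by omega), if_pos (Or.inl rfl)] at h1
    rw [Nat.mod_eq_of_lt (by omega : 1 + 1 < 2 * N), if_neg (by omega), if_neg (by omega),
      if_neg (by omega), if_neg (by omega)] at h2
    norm_num at h2
    constructor <;> omega
  · have h1 : ∀ l ∈ exc, psum l 1 = 0 ∧ psum l 2 = 0 := by decide +kernel
    rw [eq_psum h0 h 1, eq_psum h0 h 2]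
    exact h1 l hl

end Pool.Agent.H4.RL
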