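import Pool.Agent.H4.RL.Tree
import Pool.Agent.H4.ST.Main

/-! The even symmetric powers of a tempered family for `GL(2)`. -/

set_option autoImplicit false

namespace Pool.Agent.H4.RL

open Pool.Agent.H70.CS Pool.Agent.H4.ST Filter Topology

/-- `L(s, Sym^{2m} ⊗ det^{-m})` -/
noncomputable def LSym (α β : Nat.Primes → Circle) (m : ℕ) (s : ℂ) : ℂ :=
  ∏' p : Nat.Primes, ∏ j ∈ Finset.Icc (-(m : ℤ)) m,
    (1 - (((α p / β p) ^ j : Circle) : ℂ) * ((p : ℕ) : ℂ) ^ (-s))⁻¹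

/-- the weight `(0; j)` -/
def wt (j : ℤ) : Weight 1 := (0, fun _ => j)

lemma wt_injective : Function.Injective wt := fun _ _ h => congrFun (congrArg Prod.snd h) 0

def wtE : ℤ ↪ Weight 1 := ⟨wt, wt_injective⟩

/-- the weights of `Sym^{2m} ⊗ det^{-m}` -/
noncomputable def symF (m : ℕ) : Weight 1 →₀ ℤ :=
  Finsupp.indicator ((Finset.Icc (-(m : ℤ)) m).map wtE) fun _ _ => 1

lemma symF_prod {M : Type} [CommMonoid M] (m : ℕ) (h : Weight 1 → ℤ → M) :
    (symF m).prod h = ∏ j ∈ Finset.Icc (-(m : ℤ)) m, h (wt j) 1 := by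
  classical
  have hs : (symF m).support = (Finset.Icc (-(m : ℤ)) m).map wtE := by
    ext l
    rw [Finsupp.mem_support_iff, symF, Finsupp.indicator_apply]
    split_ifs with hl <;> simp [hl]
  unfold Finsupp.prod
  rw [hs, Finset.prod_map]
  refine Finset.prod_congr rfl fun j hj => ?_
  have : symF m (wtE j) = 1 := by
    rw [symF, Finsupp.indicator_apply, dif_pos (Finset.mem_map_of_mem _ hj)]
  rw [this]
  rfl

lemma symF_sum {M : Type} [AddCommMonoid M] (m : ℕ) (h : Weight 1 → ℤ → M) :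
    (symF m).sum h = ∑ j ∈ Finset.Icc (-(m : ℤ)) m, h (wt j) 1 :=
  symF_prod (M := Multiplicative M) m h

lemma chr_wt (y : Torus 1) (j : ℤ) : chr y (wt j) = y.2 0 ^ j := by
  simp [chr, wt]

lemma LFun_symF (A : Nat.Primes → Torus 1) (m : ℕ) (s : ℂ) :
    LFun A (symF m) s = LSym (fun p => (A p).1 * (A p).2 0) (fun p => (A p).1) m s := by
  unfold LFun LSym
  refine tprod_congr fun p => ?_
  rw [symF_prod]
  refine Finset.prod_congr rfl fun j _ => ?_
  rw [zpow_neg_one, chr_wt, mul_div_cancel_left]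

/-- the family with the Satake parameters `α`, `β` -/
noncomputable def fam (α β : Nat.Primes → Circle) (p : Nat.Primes) : Torus 1 := (β p, fun _ => α p / β p)

lemma LSym_eq (α β : Nat.Primes → Circle) (m : ℕ) (s : ℂ) :
    LSym α β m s = LFun (fam α β) (symF m) s := by
  rw [LFun_symF]
  congr 1
  funext p
  show α p = β p * (α p / β p)
  rw [mul_div_cancel]

lemma chF_symF (m : ℕ) (y : Torus 1) :
    chF (symF m) y = ∑ j ∈ Finset.Icc (-(m : ℤ)) m, ((y.2 0 ^ j : Circle) : ℂ) := by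
  rw [chF_apply, symF_sum]
  refine Finset.sum_congr rfl fun j _ => ?_
  rw [chr_wt, Int.cast_one, one_mul]

/-! ### means -/

/-- bounded real functions on the primes with a mean value -/
def Mean (b : Nat.Primes → ℝ) (l : ℝ) : Prop :=
  (∃ C, ∀ p, |b p| ≤ C) ∧ Tendsto (fun σ => mn (fun p => (b p : ℂ)) σ) (𝓝[>] 1) (𝓝 (l : ℂ))

lemma Mean.add {b c : Nat.Primes → ℝ} {l k : ℝ} (hb : Mean b l) (hc : Mean c k) :
    Mean (fun p => b p + c p) (l + k) := by
  obtain ⟨⟨C, hC⟩, h1⟩ := hb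
  obtain ⟨⟨D, hD⟩, h2⟩ := hc
  refine ⟨⟨C + D, fun p => (abs_add_le _ _).trans (add_le_add (hC p) (hD p))⟩, ?_⟩
  push_cast
  refine (h1.add h2).congr' ?_
  filter_upwards [self_mem_nhdsWithin] with σ hσ
  exact (mn_add (M := C) (M' := D) (fun p => by rw [Complex.norm_real]; exact hC p)
    (fun p => by rw [Complex.norm_real]; exact hD p) hσ).symm

lemma Mean.const_mul {b : Nat.Primes → ℝ} {l : ℝ} (c : ℝ) (hb : Mean b l) :
    Mean (fun p => c * b p) (c * l) := by
  obtain ⟨⟨C, hC⟩, h1⟩ := hb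
  refine ⟨⟨|c| * C, fun p => by
    rw [abs_mul]; exact mul_le_mul_of_nonneg_left (hC p) (abs_nonneg c)⟩, ?_⟩
  push_cast
  refine (h1.const_mul (c : ℂ)).congr fun σ => ?_
  rw [mn_smul]

lemma Mean.congr {b c : Nat.Primes → ℝ} {l : ℝ} (hb : Mean b l) (h : ∀ p, c p = b p) : Mean c l := by
  have : c = b := funext h
  rwa [this]

lemma Mean.zero : Mean (fun _ => 0) 0 := by
  refine ⟨⟨0, fun p => by simp⟩, ?_⟩
  have : (fun σ : ℝ => mn (fun _ : Nat.Primes => ((0 : ℝ) : ℂ)) σ) = fun _ => 0 := by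
    funext σ
    simp [mn]
  rw [this]
  simp

lemma Mean.nonneg {b : Nat.Primes → ℝ} {l : ℝ} (hb : Mean b l) (h : ∀ p, 0 ≤ b p) : 0 ≤ l := by
  have h1 := (Complex.continuous_re.tendsto _).comp hb.2
  rw [Complex.ofReal_re] at h1
  refine ge_of_tendsto h1 ?_
  filter_upwards [self_mem_nhdsWithin] with σ hσ
  have hσ' : (1 : ℝ) < σ := hσ
  show 0 ≤ (mn (fun p => (b p : ℂ)) σ).re
  rw [mn_ofReal, Complex.ofReal_re]
  exact div_nonneg (tsum_nonneg fun p => mul_nonneg (h p) (pw_pos σ p).le) (PP_pos hσ').le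

/-- orders and means -/
lemma mean_of_order {α β : Nat.Primes → Circle} {m : ℕ} {F : ℂ → ℂ} (hF : MeromorphicAt F 1)
    (h : ∀ s : ℂ, 1 < s.re → F s = LSym α β m s) :
    ∃ k : ℤ, meromorphicOrderAt F 1 = k ∧
      Mean (fun p => ∑ j ∈ Finset.Icc (-(m : ℤ)) m, (((α p / β p) ^ j : Circle) : ℂ).re) (-k : ℤ) := by
  obtain ⟨k, hk, hE⟩ := edge_dirA (fam α β) (symF m) hF fun s hs => by rw [h s hs, LSym_eq]
  refine ⟨k, hk, ⟨(Finset.Icc (-(m : ℤ)) m).card, fun p => ?_⟩, ?_⟩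
  · refine (Finset.abs_sum_le_sum_abs _ _).trans ?_
    rw [Finset.card_eq_sum_ones, Nat.cast_sum, Nat.cast_one]
    refine Finset.sum_le_sum fun j _ => (Complex.abs_re_le_norm _).trans ?_
    rw [Circle.norm_coe]
  · have h2 := tendsto_ratio hE edge_dir_one
    have h3 := (Complex.continuous_ofReal.tendsto _).comp ((Complex.continuous_re.tendsto _).comp h2)
    have e1 : (((-(k : ℂ)).re : ℝ) : ℂ) = (((-k : ℤ) : ℝ) : ℂ) := by
      push_cast
      simp
    rw [e1] at h3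
    refine h3.congr' ?_
    filter_upwards [self_mem_nhdsWithin] with σ hσ
    have hσ' : (1 : ℝ) < σ := hσ
    simp only [Function.comp_apply]
    rw [← mn_chF _ _ hσ']
    have hre : ∀ (b : Nat.Primes → ℂ) (M : ℝ), (∀ p, ‖b p‖ ≤ M) →
        (((mn b σ).re : ℝ) : ℂ) = mn (fun p => ((b p).re : ℂ)) σ := by
      intro b M hb
      have hb1 : ∀ p, ‖(((b p).re : ℝ) : ℂ)‖ ≤ M := fun p => by
        rw [Complex.norm_real]
        exact (Complex.abs_re_le_norm _).trans (hb p)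
      have hb2 : ∀ p, ‖Complex.I * (((b p).im : ℝ) : ℂ)‖ ≤ M := fun p => by
        rw [norm_mul, Complex.norm_I, one_mul, Complex.norm_real]
        exact (Complex.abs_im_le_norm _).trans (hb p)
      have e2 : b = fun p => (((b p).re : ℝ) : ℂ) + Complex.I * (((b p).im : ℝ) : ℂ) := by
        funext p
        rw [mul_comm, Complex.re_add_im]
      conv_lhs => rw [e2]
      rw [mn_add hb1 hb2 hσ', mn_smul, mn_ofReal, mn_ofReal, Complex.add_re, Complex.ofReal_re,
        Complex.re_mul_ofReal, Complex.I_re]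
      simp
    rw [hre _ ((Finset.Icc (-(m : ℤ)) m).card : ℝ) fun p => ?_]
    · congr 1
      funext p
      rw [chF_symF, Complex.re_sum]
      push_cast
      rfl
    · rw [chF_symF]
      refine (norm_sum_le _ _).trans ?_
      simp [Circle.norm_coe]

/-! ### positivity -/

/-- real versions -/
def rowR (g : ℤ → ℝ) (a : ℤ) : List (ℤ × ℤ) → ℝ
  | [] => 0
  | b :: l => b.2 * g (b.1 - a) + rowR g a l

def Q2R (g : ℤ → ℝ) : List (ℤ × ℤ) → ℝ
  | [] => 0
  | a :: l => a.2 ^ 2 * g 0 + 2 * a.2 * rowR g a.1 l + Q2R g l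

lemma cast_row (G : ℤ → ℤ) (a : ℤ) (l : List (ℤ × ℤ)) :
    (row G a l : ℝ) = rowR (fun k => (G k : ℝ)) a l := by
  induction l with
  | nil => simp [row, rowR]
  | cons b l ih => rw [row, rowR, ← ih]; push_cast; rfl

lemma cast_Q2 (G : ℤ → ℤ) (l : List (ℤ × ℤ)) : (Q2 G l : ℝ) = Q2R (fun k => (G k : ℝ)) l := by
  induction l with
  | nil => simp [Q2, Q2R]
  | cons b l ih => rw [Q2, Q2R, ← ih, ← cast_row]; push_cast; rfl

/-- the sum of the vectors -/
noncomputable def vec (z : Circle) : List (ℤ × ℤ) → ℂ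
  | [] => 0
  | a :: l => a.2 * ((z ^ a.1 : Circle) : ℂ) + vec z l

lemma rowR_circle (z : Circle) (a : ℤ) (l : List (ℤ × ℤ)) :
    rowR (fun k => 2 * (((z ^ k : Circle) : ℂ)).re) a l =
      2 * (vec z l * (starRingEnd ℂ) ((z ^ a : Circle) : ℂ)).re := by
  induction l with
  | nil => simp [rowR, vec]
  | cons b l ih =>
    rw [rowR, ih, vec, add_mul, Complex.add_re, zpow_sub]
    have e : ((z ^ b.1 * (z ^ a)⁻¹ : Circle) : ℂ) =
        ((z ^ b.1 : Circle) : ℂ) * (starRingEnd ℂ) ((z ^ a : Circle) : ℂ) := by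
      rw [Circle.coe_mul, Circle.coe_inv_eq_conj]
    rw [e, mul_assoc ((b.2 : ℤ) : ℂ)]
    have e2 : ((b.2 : ℂ) * (((z ^ b.1 : Circle) : ℂ) * (starRingEnd ℂ) ((z ^ a : Circle) : ℂ))).re =
        (b.2 : ℝ) * ((((z ^ b.1 : Circle) : ℂ) * (starRingEnd ℂ) ((z ^ a : Circle) : ℂ))).re := by
      have : ((b.2 : ℤ) : ℂ) = ((b.2 : ℝ) : ℂ) := by push_cast; rfl
      rw [this, Complex.re_ofReal_mul]
    rw [e2]
    ring

lemma Q2R_circle (z : Circle) (l : List (ℤ × ℤ)) :
    Q2R (fun k => 2 * (((z ^ k : Circle) : ℂ)).re) l = 2 * Complex.normSq (vec z l) := by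
  induction l with
  | nil => simp [Q2R, vec]
  | cons b l ih =>
    rw [Q2R, ih, rowR_circle, vec, Complex.normSq_add]
    have e0 : (((z ^ (0 : ℤ) : Circle) : ℂ)).re = 1 := by simp
    rw [e0]
    have e1 : Complex.normSq ((b.2 : ℂ) * ((z ^ b.1 : Circle) : ℂ)) = (b.2 : ℝ) ^ 2 := by
      rw [Complex.normSq_mul, Circle.normSq_coe, mul_one]
      have : ((b.2 : ℤ) : ℂ) = ((b.2 : ℝ) : ℂ) := by push_cast; rfl
      rw [this, Complex.normSq_ofReal]
      ring
    have e2 : ((b.2 : ℂ) * ((z ^ b.1 : Circle) : ℂ) * (starRingEnd ℂ) (vec z l)).re =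
        (b.2 : ℝ) * (vec z l * (starRingEnd ℂ) ((z ^ b.1 : Circle) : ℂ)).re := by
      have : ((b.2 : ℤ) : ℂ) = ((b.2 : ℝ) : ℂ) := by push_cast; rfl
      rw [this, mul_assoc, Complex.re_ofReal_mul]
      congr 1
      rw [← Complex.conj_re]
      congr 1
      rw [map_mul, Complex.conj_conj, mul_comm]
    rw [e1, e2]
    ring

lemma mean_Q2 {g : Nat.Primes → ℤ → ℝ} {G : ℤ → ℝ} (h : ∀ k, Mean (fun p => g p k) (G k))
    (l : List (ℤ × ℤ)) : Mean (fun p => Q2R (g p) l) (Q2R G l) := by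
  have hrow : ∀ a l, Mean (fun p => rowR (g p) a l) (rowR G a l) := by
    intro a l
    induction l with
    | nil => exact Mean.zero
    | cons b l ih =>
      simp only [rowR]
      exact ((h _).const_mul _).add ih
  induction l with
  | nil => exact Mean.zero
  | cons b l ih =>
    simp only [Q2R]
    exact (((h _).const_mul _).add ((hrow _ _).const_mul _)).add ih

/-- the function of the differences of the orders -/
def gg (K : ℕ → ℤ) (k : ℤ) : ℤ := if k = 0 then 2 else K k.natAbs - K (k.natAbs - 1)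

lemma Icc_succ (m : ℕ) : Finset.Icc (-((m + 1 : ℕ) : ℤ)) ((m + 1 : ℕ) : ℤ) =
    insert (((m + 1 : ℕ) : ℤ)) (insert (-((m + 1 : ℕ) : ℤ)) (Finset.Icc (-(m : ℤ)) m)) := by
  ext j
  simp only [Finset.mem_Icc, Finset.mem_insert]
  omega

/-- the means of the differences -/
theorem mean_gg {α β : Nat.Primes → Circle} {K : ℕ → ℤ} (hK0 : K 0 = 1)
    (h : ∀ m : ℕ, Mean (fun p => ∑ j ∈ Finset.Icc (-(m : ℤ)) m, (((α p / β p) ^ j : Circle) : ℂ).re)
      (K m : ℤ)) (k : ℤ) : Mean (fun p => 2 * (((α p / β p) ^ k : Circle) : ℂ).re) (gg K k : ℤ) := by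
  have h1 : ∀ m : ℕ, Mean (fun p => 2 * (((α p / β p) ^ ((m + 1 : ℕ) : ℤ) : Circle) : ℂ).re)
      ((K (m + 1) - K m : ℤ)) := by
    intro m
    have h2 := (h (m + 1)).add ((h m).const_mul (-1))
    have e1 : ((K (m + 1) : ℤ) : ℝ) + -1 * ((K m : ℤ) : ℝ) = ((K (m + 1) - K m : ℤ) : ℝ) := by
      push_cast; ring
    rw [e1] at h2
    refine h2.congr fun p => ?_
    rw [Icc_succ, Finset.sum_insert, Finset.sum_insert]
    · have e2 : (((α p / β p) ^ (-((m + 1 : ℕ) : ℤ)) : Circle) : ℂ).re =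
          (((α p / β p) ^ ((m + 1 : ℕ) : ℤ) : Circle) : ℂ).re := by
        rw [zpow_neg, Circle.coe_inv_eq_conj, Complex.conj_re]
      rw [e2]
      ring
    · simp only [Finset.mem_Icc]; omega
    · simp only [Finset.mem_Icc, Finset.mem_insert]; omega
  unfold gg
  split_ifs with hk
  · have h2 := (h 0).const_mul 2
    rw [hK0] at h2
    have e1 : (2 : ℝ) * ((1 : ℤ) : ℝ) = ((2 : ℤ) : ℝ) := by norm_num
    rw [e1] at h2
    refine h2.congr fun p => ?_
    subst hk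
    simp
  · obtain ⟨m, hm⟩ : ∃ m, k.natAbs = m + 1 := ⟨k.natAbs - 1, by omega⟩
    rw [hm, Nat.add_sub_cancel]
    refine (h1 m).congr fun p => ?_
    congr 1
    rcases Int.natAbs_eq k with e | e
    · rw [e, hm]
    · rw [e, hm, zpow_neg, Circle.coe_inv_eq_conj, Complex.conj_re]

/-- **From orders to positive definite functions.** -/
theorem pos_of_means {α β : Nat.Primes → Circle} {K : ℕ → ℤ} (hK0 : K 0 = 1)
    (h : ∀ m : ℕ, Mean (fun p => ∑ j ∈ Finset.Icc (-(m : ℤ)) m, (((α p / β p) ^ j : Circle) : ℂ).re)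
      (K m : ℤ)) : Pos (gg K) := by
  have key := mean_gg hK0 h
  refine ⟨by simp [gg], fun k => by simp [gg], fun l => ?_⟩
  have h2 := mean_Q2 (g := fun p k => 2 * (((α p / β p) ^ k : Circle) : ℂ).re)
    (G := fun k => (gg K k : ℝ)) key l
  have h3 := h2.nonneg fun p => by
    rw [Q2R_circle]
    exact mul_nonneg (by norm_num) (Complex.normSq_nonneg _)
  rw [← cast_Q2] at h3
  exact_mod_cast h3

end Pool.Agent.H4.RL
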