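import Pool.Agent.H4.RL.Twist

/-! Existence, for all representations of `GL(2)`, and the final forms. -/

set_option autoImplicit false

namespace Pool.Agent.H4.RL

open Pool.Agent.H70.CS Pool.Agent.H4.ST Filter Topology MeasureTheory Pool.Agent.H4.Coset
  ComplexConjugate

/-- the weights `(c; i)`, `a ≤ i ≤ b` -/
noncomputable def wtc (c : ℤ) (i : ℤ) : Weight 1 := (c, fun _ => i)

lemma wtc_injective (c : ℤ) : Function.Injective (wtc c) :=
  fun _ _ h => congrFun (congrArg Prod.snd h) 0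

noncomputable def indG (c a b : ℤ) : Weight 1 →₀ ℤ :=
  Finsupp.indicator ((Finset.Icc a b).map ⟨wtc c, wtc_injective c⟩) fun _ _ => 1

lemma indG_prod {M : Type} [CommMonoid M] (c a b : ℤ) (h : Weight 1 → ℤ → M) :
    (indG c a b).prod h = ∏ j ∈ Finset.Icc a b, h (wtc c j) 1 := by
  classical
  have hs : (indG c a b).support = (Finset.Icc a b).map ⟨wtc c, wtc_injective c⟩ := by
    ext l
    rw [Finsupp.mem_support_iff, indG, Finsupp.indicator_apply]
    split_ifs with hl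
    · exact ⟨fun _ => hl, fun _ => one_ne_zero⟩
    · exact ⟨fun h => absurd rfl h, fun h => absurd h hl⟩
  unfold Finsupp.prod
  rw [hs, Finset.prod_map]
  refine Finset.prod_congr rfl fun j hj => ?_
  have : indG c a b ((⟨wtc c, wtc_injective c⟩ : ℤ ↪ Weight 1) j) = 1 := by
    rw [indG, Finsupp.indicator_apply, dif_pos (Finset.mem_map_of_mem _ hj)]
  rw [this]
  rfl

lemma indG_sum {M : Type} [AddCommMonoid M] (c a b : ℤ) (h : Weight 1 → ℤ → M) :
    (indG c a b).sum h = ∑ j ∈ Finset.Icc a b, h (wtc c j) 1 :=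
  indG_prod (M := Multiplicative M) c a b h

lemma prod_range_Icc' {M : Type} [CommMonoid M] (f : ℤ → M) (k : ℕ) (a : ℤ) :
    ∏ j ∈ Finset.range (k + 1), f ((j : ℤ) + a) = ∏ i ∈ Finset.Icc a (a + k), f i := by
  refine Finset.prod_bij (fun j _ => (j : ℤ) + a) ?_ ?_ ?_ ?_
  · intro j hj
    have := Finset.mem_range.1 hj
    rw [Finset.mem_Icc]
    omega
  · intro j hj k hk h
    omega
  · intro i hi
    rw [Finset.mem_Icc] at hi
    refine ⟨(i - a).toNat, Finset.mem_range.2 (by omega), by omega⟩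
  · intro j hj
    rfl

lemma key_eq (A : Torus 1) (k : ℕ) (a : ℤ) {j : ℕ} (hj : j < k + 1) :
    (A.1 * A.2 0) ^ j * A.1 ^ (k - j) * (A.1 * A.2 0 * A.1) ^ a =
      chr A (wtc (k + 2 * a) ((j : ℤ) + a)) := by
  unfold chr wtc
  simp only [Finset.univ_unique, Fin.default_eq_zero, Fin.isValue, Finset.prod_singleton]
  rw [mul_pow, ← zpow_natCast, ← zpow_natCast, ← zpow_natCast, Nat.cast_sub (by omega), mul_zpow,
    mul_zpow]
  calc A.1 ^ (j : ℤ) * A.2 0 ^ (j : ℤ) * A.1 ^ ((k : ℤ) - j) * (A.1 ^ a * A.2 0 ^ a * A.1 ^ a)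
      = (A.1 ^ (j : ℤ) * A.1 ^ ((k : ℤ) - j) * A.1 ^ a * A.1 ^ a) * (A.2 0 ^ (j : ℤ) * A.2 0 ^ a) := by
        simp only [mul_assoc, mul_comm, mul_left_comm]
    _ = _ := by
        rw [← zpow_add, ← zpow_add, ← zpow_add, ← zpow_add]
        congr 2
        ring

lemma LFun_indG (A : Nat.Primes → Torus 1) (k : ℕ) (a : ℤ) (s : ℂ) :
    LS (fun p => (A p).1 * (A p).2 0) (fun p => (A p).1)
      (fun p => ((A p).1 * (A p).2 0 * (A p).1) ^ a) k s = LFun A (indG (k + 2 * a) a (a + k)) s := by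
  unfold LFun LS
  refine tprod_congr fun p => ?_
  rw [indG_prod, ← prod_range_Icc']
  refine Finset.prod_congr rfl fun j hj => ?_
  rw [key_eq (A p) k a (Finset.mem_range.1 hj), zpow_neg_one]

lemma LTwist_indG (A : Nat.Primes → Torus 1) {d : ℕ} (B : Nat.Primes → Fin d → ℂ) (k : ℕ) (a : ℤ)
    (s : ℂ) : LST (fun p => (A p).1 * (A p).2 0) (fun p => (A p).1)
      (fun p => ((A p).1 * (A p).2 0 * (A p).1) ^ a) B k s =
        LTwist A (indG (k + 2 * a) a (a + k)) B s := by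
  unfold LTwist LST
  refine tprod_congr fun p => ?_
  rw [indG_prod, ← prod_range_Icc' (fun i => ∏ j, (1 - (chr (A p) (wtc (k + 2 * a) i) : ℂ) * B p j *
    ((p : ℕ) : ℂ) ^ (-s)) ^ (-(1 : ℤ)))]
  refine Finset.prod_congr rfl fun j hj => Finset.prod_congr rfl fun i _ => ?_
  rw [key_eq (A p) k a (Finset.mem_range.1 hj), zpow_neg_one]

lemma sum_gg {K : ℕ → ℤ} (hK0 : K 0 = 1) (m : ℕ) :
    ∑ j ∈ Finset.Icc (-(m : ℤ)) m, ((gg K j : ℂ) / 2) = K m := by
  induction m with
  | zero => simp [gg, hK0]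
  | succ m ih =>
    rw [Icc_succ, Finset.sum_insert, Finset.sum_insert, ih]
    · have e1 : gg K ((m + 1 : ℕ) : ℤ) = K (m + 1) - K m := gg_succ K m
      have e2 : gg K (-((m + 1 : ℕ) : ℤ)) = K (m + 1) - K m := by
        unfold gg
        rw [if_neg (by omega)]
        simp only [Int.natAbs_neg, Int.natAbs_natCast, Nat.add_sub_cancel]
      rw [e1, e2]
      push_cast
      ring
    · simp only [Finset.mem_Icc]; omega
    · simp only [Finset.mem_Icc, Finset.mem_insert]; omega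

lemma occursAll_of_measure {K : ℕ → ℤ} (hK0 : K 0 = 1) (μ : Measure (Torus 1))
    [IsProbabilityMeasure μ]
    (h : ∀ l : Weight 1, ∫ y, (chr y l : ℂ) ∂μ = if l.1 = 0 then (gg K (l.2 0) : ℂ) / 2 else 0) :
    OccursAll K := by
  intro ι _ d B hB
  obtain ⟨A, -, -, -, hA⟩ := exists_of_law μ d B hB
  refine ⟨fun p => (A p).1 * (A p).2 0, fun p => (A p).1, fun k a => ?_⟩
  have hK : ∫ y, chF (indG (k + 2 * a) a (a + k)) y ∂μ = ordK K k a := by
    have e : ∫ y, chF (indG (k + 2 * a) a (a + k)) y ∂μ = ∑ j ∈ Finset.Icc a (a + k),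
        (if (k : ℤ) + 2 * a = 0 then (gg K j : ℂ) / 2 else 0) := by
      simp only [chF_apply, indG_sum]
      rw [integral_finsetSum]
      · refine Finset.sum_congr rfl fun j _ => ?_
        simp only [Int.cast_one, one_mul]
        rw [h]
        rfl
      · intro j _
        simp only [Int.cast_one, one_mul]
        exact integrable_chr μ _
    rw [e]
    unfold ordK
    split_ifs with hk
    · have h1 : a = -((k / 2 : ℕ) : ℤ) := by omega
      have h2 : a + k = ((k / 2 : ℕ) : ℤ) := by omega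
      rw [h2]
      conv_lhs => rw [h1]
      exact sum_gg hK0 _
    · simp
  obtain ⟨h1, h2⟩ := hA _ _ hK
  refine ⟨?_, fun i => ?_⟩
  · obtain ⟨g, hg, hg2⟩ := h1
    exact ⟨g, hg, fun s hs => by
      rw [← hg2 s hs, ← LFun_indG]⟩
  · obtain ⟨g, hg, hg2⟩ := h2 i
    exact ⟨g, hg, fun s hs => by rw [← hg2 s hs, ← LTwist_indG]⟩

theorem occursAll {K : ℕ → ℤ} (h : Listed K) : OccursAll K := by
  obtain ⟨μ, hμ, hl⟩ := occurs_of_listed h
  exact occursAll_of_measure h.1 μ hl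

end Pool.Agent.H4.RL
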