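import Pool.Agent.H4.RL.Defs

/-! Integer-valued positive definite functions on the integers: basic lemmas.

A function `G` with `G 0 = 2` defines vectors `v_k`, `k ∈ ℤ`, of square norm two with integral inner products
`⟪v_i, v_j⟫ = G (i - j)`, so these vectors generate a (possibly degenerate) root lattice. -/

set_option autoImplicit false

namespace Pool.Agent.H4.RL

/-- the inner product of `v_{a.1}` and `∑ b.2 v_{b.1}` -/
def row (G : ℤ → ℤ) (a : ℤ) : List (ℤ × ℤ) → ℤ
  | [] => 0
  | b :: l => b.2 * G (b.1 - a) + row G a l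

/-- the square norm of `∑ a.2 v_{a.1}` -/
def Q2 (G : ℤ → ℤ) : List (ℤ × ℤ) → ℤ
  | [] => 0
  | a :: l => a.2 ^ 2 * G 0 + 2 * a.2 * row G a.1 l + Q2 G l

/-- the inner product of `v_0` and `∑ c_j v_{k+j}` -/
def lin (G : ℤ → ℤ) (k : ℤ) : List ℤ → ℤ
  | [] => 0
  | c :: l => c * G k + lin G (k + 1) l

/-- the square norm of `∑ c_j v_j` -/
def Q (G : ℤ → ℤ) : List ℤ → ℤ
  | [] => 0
  | c :: l => c ^ 2 * G 0 + 2 * c * lin G 1 l + Q G l

/-- `G` is positive definite with `G 0 = 2` -/
structure Pos (G : ℤ → ℤ) : Prop where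
  zero : G 0 = 2
  even : ∀ k, G (-k) = G k
  pos : ∀ l, 0 ≤ Q2 G l

/-- the list with consecutive indices -/
def idx (t : ℤ) (k : ℤ) : List ℤ → List (ℤ × ℤ)
  | [] => []
  | c :: l => (k, t * c) :: idx t (k + 1) l

lemma row_idx (G : ℤ → ℤ) (t a k : ℤ) (c : List ℤ) : row G a (idx t k c) = t * lin G (k - a) c := by
  induction c generalizing k with
  | nil => simp [row, idx, lin]
  | cons x c ih =>
    rw [idx, row, ih, lin]
    rw [show k + 1 - a = k - a + 1 by ring]
    ring

lemma Q2_idx (G : ℤ → ℤ) (t k : ℤ) (c : List ℤ) : Q2 G (idx t k c) = t ^ 2 * Q G c := by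
  induction c generalizing k with
  | nil => simp [Q2, idx, Q]
  | cons x c ih =>
    rw [idx, Q2, ih, Q, row_idx]
    simp only
    rw [show k + 1 - k = (1 : ℤ) by ring]
    ring

lemma Pos.Q_nonneg {G : ℤ → ℤ} (h : Pos G) (c : List ℤ) : 0 ≤ Q G c := by
  have := h.pos (idx 1 0 c)
  rw [Q2_idx] at this
  simpa using this

/-- a vector of norm zero is orthogonal to everything -/
lemma Pos.lin_eq_zero {G : ℤ → ℤ} (h : Pos G) {c : List ℤ} (hc : Q G c = 0) (k : ℤ) :
    lin G k c = 0 := by
  have h1 := h.pos ((0, 1) :: idx 2 k c)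
  have h2 := h.pos ((0, 1) :: idx (-2) k c)
  rw [Q2, Q2_idx, row_idx, hc, h.zero, sub_zero] at h1 h2
  simp only at h1 h2
  omega

/-- multiply the coefficients -/
def smul (t : ℤ) : List (ℤ × ℤ) → List (ℤ × ℤ)
  | [] => []
  | a :: l => (a.1, t * a.2) :: smul t l

lemma row_smul (G : ℤ → ℤ) (t a : ℤ) (l : List (ℤ × ℤ)) : row G a (smul t l) = t * row G a l := by
  induction l with
  | nil => simp [row, smul]
  | cons x l ih => rw [smul, row, row, ih]; ring

lemma Q2_smul (G : ℤ → ℤ) (t : ℤ) (l : List (ℤ × ℤ)) : Q2 G (smul t l) = t ^ 2 * Q2 G l := by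
  induction l with
  | nil => simp [Q2, smul]
  | cons x l ih =>
    rw [smul, Q2, Q2, ih, row_smul]
    ring

lemma Pos.row_eq_zero {G : ℤ → ℤ} (h : Pos G) {l : List (ℤ × ℤ)} (hl : Q2 G l = 0) (k : ℤ) :
    row G k l = 0 := by
  have h1 := h.pos ((k, 1) :: smul 2 l)
  have h2 := h.pos ((k, 1) :: smul (-2) l)
  rw [Q2, Q2_smul, row_smul, hl, h.zero] at h1 h2
  simp only at h1 h2
  omega

lemma Pos.le_two {G : ℤ → ℤ} (h : Pos G) (k : ℤ) : G k ≤ 2 := by
  have := h.pos [(0, 1), (k, -1)]
  simp only [Q2, row, h.zero] at this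
  rw [sub_zero] at this
  omega

lemma Pos.ge_two {G : ℤ → ℤ} (h : Pos G) (k : ℤ) : -2 ≤ G k := by
  have := h.pos [(0, 1), (k, 1)]
  simp only [Q2, row, h.zero] at this
  rw [sub_zero] at this
  omega

lemma Pos.periodic {G : ℤ → ℤ} (h : Pos G) {N : ℤ} (hN : G N = 2) (k : ℤ) : G (k + N) = G k := by
  have h0 : Q2 G [(0, 1), (N, -1)] = 0 := by
    simp only [Q2, row, h.zero]
    rw [sub_zero, hN]
    norm_num
  have := h.row_eq_zero h0 (-k)
  simp only [row] at this
  rw [show (0 : ℤ) - -k = k by ring, show N - -k = k + N by ring] at this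
  omega

lemma Pos.antiperiodic {G : ℤ → ℤ} (h : Pos G) {N : ℤ} (hN : G N = -2) (k : ℤ) :
    G (k + N) = -G k := by
  have h0 : Q2 G [(0, 1), (N, 1)] = 0 := by
    simp only [Q2, row, h.zero]
    rw [sub_zero, hN]
    norm_num
  have := h.row_eq_zero h0 (-k)
  simp only [row] at this
  rw [show (0 : ℤ) - -k = k by ring, show N - -k = k + N by ring] at this
  omega

lemma patA_of {G : ℤ → ℤ} (h : Pos G) (h1 : G 1 = -1) {N : ℕ} (hN : 4 ≤ N) (hG : G N = 2)
    (hz : ∀ j : ℕ, 2 ≤ j → j + 2 ≤ N → G j = 0) (m : ℕ) : G m = patA N m := by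
  have hm : G m = G (m % N : ℕ) := by
    have key : ∀ q r : ℕ, G ((r : ℤ) + N * q) = G r := by
      intro q r
      induction q with
      | zero => simp
      | succ q ih =>
        calc G ((r : ℤ) + N * (q + 1 : ℕ)) = G ((r : ℤ) + N * q + N) := by
              congr 1
              push_cast
              ring
          _ = G ((r : ℤ) + N * q) := h.periodic hG _
          _ = G r := ih
    have := key (m / N) (m % N)
    rw [← this]
    congr 1
    exact_mod_cast (Nat.mod_add_div m N).symm
  rw [hm]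
  have hlt : m % N < N := Nat.mod_lt _ (by omega)
  unfold patA
  generalize m % N = r at *
  by_cases hr0 : r = 0
  · rw [if_pos hr0, hr0]; exact h.zero
  · rw [if_neg hr0]
    by_cases hr1 : r = 1
    · rw [if_pos (Or.inl hr1), hr1]; exact h1
    · by_cases hr2 : r = N - 1
      · rw [if_pos (Or.inr hr2), hr2]
        have := h.periodic hG (-1)
        rw [h.even 1, h1] at this
        rw [← this]
        congr 1
        omega
      · rw [if_neg (by tauto)]
        exact hz r (by omega) (by omega)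

lemma patD_of {G : ℤ → ℤ} (h : Pos G) (h1 : G 1 = -1) {N : ℕ} (hN : 4 ≤ N) (hG : G N = -2)
    (hz : ∀ j : ℕ, 2 ≤ j → j + 2 ≤ N → G j = 0) (m : ℕ) : G m = patD N m := by
  have hm : G m = (-1) ^ (m / N) * G (m % N : ℕ) := by
    have key : ∀ q r : ℕ, G ((r : ℤ) + N * q) = (-1) ^ q * G r := by
      intro q r
      induction q with
      | zero => simp
      | succ q ih =>
        rw [pow_succ, mul_right_comm, ← ih]
        have := h.antiperiodic hG ((r : ℤ) + N * q)
        rw [mul_neg_one, ← this]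
        congr 1
        push_cast
        ring
    have := key (m / N) (m % N)
    rw [← this]
    congr 1
    exact_mod_cast (Nat.mod_add_div m N).symm
  rw [hm]
  have hlt : m % N < N := Nat.mod_lt _ (by omega)
  unfold patD
  congr 1
  generalize m % N = r at *
  by_cases hr0 : r = 0
  · rw [if_pos hr0, hr0]; exact h.zero
  · rw [if_neg hr0]
    by_cases hr1 : r = 1
    · rw [if_pos hr1, hr1]; exact h1
    · rw [if_neg hr1]
      by_cases hr2 : r = N - 1
      · rw [if_pos hr2, hr2]
        have := h.antiperiodic hG (-1)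
        rw [h.even 1, h1, neg_neg] at this
        rw [← this]
        congr 1
        omega
      · rw [if_neg hr2]
        exact hz r (by omega) (by omega)

/-- evaluation of a recursion -/
def ev (P : ℕ → ℤ) (k : ℕ) : List ℤ → ℤ
  | [] => 0
  | c :: l => c * P k + ev P (k + 1) l

lemma lin_eq_ev (G : ℤ → ℤ) (k : ℕ) (c : List ℤ) : lin G k c = ev (fun m => G m) k c := by
  induction c generalizing k with
  | nil => rfl
  | cons x c ih =>
    rw [lin, ev, ← ih]
    push_cast
    rfl

lemma ev_append (P : ℕ → ℤ) (k : ℕ) (c : List ℤ) (x : ℤ) :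
    ev P k (c ++ [x]) = ev P k c + x * P (k + c.length) := by
  induction c generalizing k with
  | nil => simp [ev]
  | cons y c ih =>
    rw [List.cons_append, ev, ih, ev, List.length_cons]
    rw [show k + 1 + c.length = k + (c.length + 1) by ring]
    ring

lemma ev_congr {P P' : ℕ → ℤ} {k : ℕ} {c : List ℤ} (h : ∀ j < k + c.length, P j = P' j) :
    ev P k c = ev P' k c := by
  induction c generalizing k with
  | nil => rfl
  | cons y c ih =>
    rw [ev, ev, h k (by simp), ih (k := k + 1) (fun j hj => h j (by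
      rw [List.length_cons]; omega))]

/-- two solutions of a monic recursion agree -/
lemma eq_of_ev {P P' : ℕ → ℤ} {c : List ℤ} (h : ∀ k, ev P k (c ++ [1]) = 0)
    (h' : ∀ k, ev P' k (c ++ [1]) = 0) (h0 : ∀ j < c.length, P j = P' j) (m : ℕ) : P m = P' m := by
  induction m using Nat.strong_induction_on with
  | _ m ih =>
    by_cases hm : m < c.length
    · exact h0 m hm
    · obtain ⟨k, rfl⟩ : ∃ k, m = k + c.length := ⟨m - c.length, by omega⟩
      have h1 := h k
      have h2 := h' k
      rw [ev_append] at h1 h2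
      rw [ev_congr (P' := P') (fun j hj => ih j hj)] at h1
      linarith

lemma per_mod (l : List ℤ) (m : ℕ) : per l (m % l.length) = per l m := by
  unfold per
  rw [Nat.mod_mod]

lemma ev_per_mod (l : List ℤ) (k : ℕ) (c : List ℤ) : ev (per l) (k % l.length) c = ev (per l) k c := by
  induction c generalizing k with
  | nil => rfl
  | cons y c ih =>
    rw [ev, ev, per_mod, ← ih (k % l.length + 1), ← ih (k + 1)]
    rw [Nat.mod_add_mod]

/-- **periodic functions** -/
lemma per_of {G : ℤ → ℤ} (h : Pos G) {c l : List ℤ} (hc : Q G (c ++ [1]) = 0) (hl : 0 < l.length)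
    (hp : ∀ k < l.length, ev (per l) k (c ++ [1]) = 0) (h0 : ∀ j < c.length, G (j : ℕ) = per l j)
    (m : ℕ) : G m = per l m := by
  refine eq_of_ev (P := fun m : ℕ => G m) (P' := per l) (c := c) (fun k => ?_) (fun k => ?_) h0 m
  · rw [← lin_eq_ev]
    exact h.lin_eq_zero hc k
  · rw [← ev_per_mod]
    exact hp _ (Nat.mod_lt _ hl)

end Pool.Agent.H4.RL
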