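import Pool.Agent.H4.RL.PD

/-! Positive definite functions on an interval. -/

set_option autoImplicit false

namespace Pool.Agent.H4.RL

/-- `G` is positive definite on `0, …, M` with `G 0 = 2` -/
structure PosM (G : ℤ → ℤ) (M : ℕ) : Prop where
  zero : G 0 = 2
  pos : ∀ l : List (ℤ × ℤ), (∀ a ∈ l, 0 ≤ a.1 ∧ a.1 ≤ M) → 0 ≤ Q2 G l

lemma mem_idx {t k : ℤ} {c : List ℤ} {a : ℤ × ℤ} (h : a ∈ idx t k c) :
    k ≤ a.1 ∧ a.1 < k + c.length := by
  induction c generalizing k with
  | nil => simp [idx] at h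
  | cons x c ih =>
    rw [idx, List.mem_cons] at h
    rw [List.length_cons]
    push_cast
    rcases h with rfl | h
    · simp only
      omega
    · have := ih h
      omega

lemma mem_smul {t : ℤ} {l : List (ℤ × ℤ)} {a : ℤ × ℤ} (h : a ∈ smul t l) :
    ∃ b ∈ l, a.1 = b.1 := by
  induction l with
  | nil => simp [smul] at h
  | cons x l ih =>
    rw [smul, List.mem_cons] at h
    rcases h with rfl | h
    · exact ⟨x, List.mem_cons_self .., rfl⟩
    · obtain ⟨b, hb, hab⟩ := ih h
      exact ⟨b, List.mem_cons_of_mem _ hb, hab⟩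

section
variable {G : ℤ → ℤ} {M : ℕ}

lemma PosM.Q_nonneg (h : PosM G M) (c : List ℤ) (hc : c.length ≤ M + 1) : 0 ≤ Q G c := by
  have := h.pos (idx 1 0 c) fun a ha => by
    have := mem_idx ha
    omega
  rw [Q2_idx] at this
  simpa using this

lemma PosM.lin_eq_zero (h : PosM G M) {c : List ℤ} (hc : Q G c = 0) (k : ℕ)
    (hk : k + c.length ≤ M + 1) : lin G k c = 0 := by
  have hmem : ∀ t : ℤ, ∀ a ∈ ((0, 1) :: idx t k c : List (ℤ × ℤ)), 0 ≤ a.1 ∧ a.1 ≤ M := by
    intro t a ha
    rw [List.mem_cons] at ha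
    rcases ha with rfl | ha
    · simp
    · have := mem_idx ha
      omega
  have h1 := h.pos ((0, 1) :: idx 2 k c) (hmem 2)
  have h2 := h.pos ((0, 1) :: idx (-2) k c) (hmem (-2))
  rw [Q2, Q2_idx, row_idx, hc, h.zero, sub_zero] at h1 h2
  simp only at h1 h2
  omega

lemma PosM.row_eq_zero (h : PosM G M) {l : List (ℤ × ℤ)} (hl : Q2 G l = 0) (k : ℤ)
    (hk : 0 ≤ k ∧ k ≤ M) (hm : ∀ a ∈ l, 0 ≤ a.1 ∧ a.1 ≤ M) : row G k l = 0 := by
  have hmem : ∀ t : ℤ, ∀ a ∈ ((k, 1) :: smul t l : List (ℤ × ℤ)), 0 ≤ a.1 ∧ a.1 ≤ M := by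
    intro t a ha
    rw [List.mem_cons] at ha
    rcases ha with rfl | ha
    · exact hk
    · obtain ⟨b, hb, hab⟩ := mem_smul ha
      rw [hab]
      exact hm b hb
  have h1 := h.pos ((k, 1) :: smul 2 l) (hmem 2)
  have h2 := h.pos ((k, 1) :: smul (-2) l) (hmem (-2))
  rw [Q2, Q2_smul, row_smul, hl, h.zero] at h1 h2
  simp only at h1 h2
  omega

lemma PosM.le_two (h : PosM G M) (k : ℕ) (hk : k ≤ M) : G k ≤ 2 := by
  have := h.pos [(0, 1), ((k : ℤ), -1)] (by
    intro a ha
    simp only [List.mem_cons, List.not_mem_nil, or_false] at ha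
    rcases ha with rfl | rfl <;> simp <;> omega)
  simp only [Q2, row, h.zero] at this
  rw [sub_zero] at this
  omega

lemma PosM.ge_two (h : PosM G M) (k : ℕ) (hk : k ≤ M) : -2 ≤ G k := by
  have := h.pos [(0, 1), ((k : ℤ), 1)] (by
    intro a ha
    simp only [List.mem_cons, List.not_mem_nil, or_false] at ha
    rcases ha with rfl | rfl <;> simp <;> omega)
  simp only [Q2, row, h.zero] at this
  rw [sub_zero] at this
  omega

lemma PosM.periodic (h : PosM G M) {N : ℕ} (hN : G N = 2) (k : ℕ) (hk : k + N ≤ M) :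
    G ((k + N : ℕ) : ℤ) = G k := by
  have e : ((k : ℤ) + N) - k = N := by ring
  have h0 : Q2 G [((k : ℤ), 1), ((k : ℤ) + N, -1)] = 0 := by
    simp only [Q2, row, h.zero]
    rw [e, hN]
    norm_num
  have := h.row_eq_zero h0 0 ⟨le_rfl, by positivity⟩ (by
    intro a ha
    simp only [List.mem_cons, List.not_mem_nil, or_false] at ha
    rcases ha with rfl | rfl <;> simp only <;> omega)
  simp only [row, sub_zero] at this
  push_cast
  omega

lemma PosM.antiperiodic (h : PosM G M) {N : ℕ} (hN : G N = -2) (k : ℕ) (hk : k + N ≤ M) :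
    G ((k + N : ℕ) : ℤ) = -G k := by
  have e : ((k : ℤ) + N) - k = N := by ring
  have h0 : Q2 G [((k : ℤ), 1), ((k : ℤ) + N, 1)] = 0 := by
    simp only [Q2, row, h.zero]
    rw [e, hN]
    norm_num
  have := h.row_eq_zero h0 0 ⟨le_rfl, by positivity⟩ (by
    intro a ha
    simp only [List.mem_cons, List.not_mem_nil, or_false] at ha
    rcases ha with rfl | rfl <;> simp only <;> omega)
  simp only [row, sub_zero] at this
  push_cast
  omega

lemma PosM.patA_of (h : PosM G M) (h1 : G 1 = -1) {N : ℕ} (hN : 4 ≤ N)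
    (hz : ∀ j : ℕ, 2 ≤ j → j + 2 ≤ N → j ≤ M → G j = 0) (hl : N ≤ M + 1 → G ((N - 1 : ℕ) : ℤ) = -1)
    (hG : N ≤ M → G N = 2) (m : ℕ) (hm : m ≤ M) : G m = patA N m := by
  induction m using Nat.strong_induction_on with
  | _ m ih =>
    by_cases hmN : m < N
    · unfold patA
      rw [Nat.mod_eq_of_lt hmN]
      by_cases hr0 : m = 0
      · rw [if_pos hr0, hr0]; exact h.zero
      · rw [if_neg hr0]
        by_cases hr1 : m = 1
        · rw [if_pos (Or.inl hr1), hr1]; exact h1
        · by_cases hr2 : m = N - 1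
          · rw [if_pos (Or.inr hr2), hr2]
            exact hl (by omega)
          · rw [if_neg (by tauto)]
            exact hz m (by omega) (by omega) hm
    · obtain ⟨k, rfl⟩ : ∃ k, m = k + N := ⟨m - N, by omega⟩
      rw [h.periodic (hG (by omega)) k hm, ih k (by omega) (by omega)]
      unfold patA
      rw [Nat.add_mod_right]

lemma PosM.patD_of (h : PosM G M) (h1 : G 1 = -1) {N : ℕ} (hN : 4 ≤ N)
    (hz : ∀ j : ℕ, 2 ≤ j → j + 2 ≤ N → j ≤ M → G j = 0) (hl : N ≤ M + 1 → G ((N - 1 : ℕ) : ℤ) = 1)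
    (hG : N ≤ M → G N = -2) (m : ℕ) (hm : m ≤ M) : G m = patD N m := by
  induction m using Nat.strong_induction_on with
  | _ m ih =>
    by_cases hmN : m < N
    · unfold patD
      rw [Nat.mod_eq_of_lt hmN, Nat.div_eq_of_lt hmN, pow_zero, one_mul]
      by_cases hr0 : m = 0
      · rw [if_pos hr0, hr0]; exact h.zero
      · rw [if_neg hr0]
        by_cases hr1 : m = 1
        · rw [if_pos hr1, hr1]; exact h1
        · rw [if_neg hr1]
          by_cases hr2 : m = N - 1
          · rw [if_pos hr2, hr2]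
            exact hl (by omega)
          · rw [if_neg hr2]
            exact hz m (by omega) (by omega) hm
    · obtain ⟨k, rfl⟩ : ∃ k, m = k + N := ⟨m - N, by omega⟩
      rw [h.antiperiodic (hG (by omega)) k hm, ih k (by omega) (by omega)]
      unfold patD
      rw [Nat.add_mod_right, Nat.add_div_right _ (by omega), pow_succ]
      ring

lemma PosM.per_of (h : PosM G M) {c l : List ℤ} (hc : Q G (c ++ [1]) = 0) (hl : 0 < l.length)
    (hp : ∀ k < l.length, ev (per l) k (c ++ [1]) = 0)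
    (h0 : ∀ j < c.length, j ≤ M → G (j : ℕ) = per l j) (m : ℕ) (hm : m ≤ M) : G m = per l m := by
  induction m using Nat.strong_induction_on with
  | _ m ih =>
    by_cases hmc : m < c.length
    · exact h0 m hmc hm
    · obtain ⟨k, rfl⟩ : ∃ k, m = k + c.length := ⟨m - c.length, by omega⟩
      have h1 : ev (fun m : ℕ => G m) k (c ++ [1]) = 0 := by
        rw [← lin_eq_ev]
        exact h.lin_eq_zero hc k (by rw [List.length_append]; simp; omega)
      have h2 : ev (per l) k (c ++ [1]) = 0 := by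
        rw [← ev_per_mod]
        exact hp _ (Nat.mod_lt _ hl)
      rw [ev_append] at h1 h2
      rw [ev_congr (P' := per l) (fun j hj => ih j hj (by omega))] at h1
      linarith

/-- the long chain -/
lemma PosM.chain (h : PosM G M) {d : ℕ} (h1 : G 1 = -1) (hd : 8 ≤ d)
    (hz : ∀ j : ℤ, 2 ≤ j → j < d → G j = 0) (hne : G d ≠ 0) (hdM : d + 1 ≤ M) :
    (G d = -1 ∧ G (d + 1) = 2) ∨ (G d = 1 ∧ G (d + 1) = -2) := by
  have e0 : ∀ j : ℤ, j = 0 → G j = 2 := fun j hj => by rw [hj]; exact h.zero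
  have e1 : ∀ j : ℤ, j = 1 → G j = -1 := fun j hj => by rw [hj]; exact h1
  have e2 : ∀ j : ℤ, 2 ≤ j ∧ j < d → G j = 0 := fun j hj => hz j hj.1 hj.2
  obtain ⟨y, hy⟩ : ∃ y, G d = y := ⟨_, rfl⟩
  obtain ⟨x, hx⟩ : ∃ x, G (d + 1) = x := ⟨_, rfl⟩
  have e3 : ∀ j : ℤ, j = d → G j = y := fun j hj => by rw [hj]; exact hy
  have e4 : ∀ j : ℤ, j = d + 1 → G j = x := fun j hj => by rw [hj]; exact hx
  have b1 := h.le_two d (by omega)
  have b2 := h.ge_two d (by omega)
  have b3 := h.le_two (d + 1) (by omega)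
  have b4 := h.ge_two (d + 1) (by omega)
  push_cast at b3 b4
  rw [hy] at b1 b2 hne ⊢
  rw [hx] at b3 b4 ⊢
  have c1 := h.pos [(0, 2), (1, 1), ((d : ℤ), -2)] (by
    intro a ha
    simp only [List.mem_cons, List.not_mem_nil, or_false] at ha
    rcases ha with rfl | rfl | rfl <;> simp only <;> omega)
  simp (disch := omega) only [Q2, row, e0, e1, e2, e3, e4] at c1
  have c2 := h.pos [(0, 2), (1, 1), ((d : ℤ), 2)] (by
    intro a ha
    simp only [List.mem_cons, List.not_mem_nil, or_false] at ha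
    rcases ha with rfl | rfl | rfl <;> simp only <;> omega)
  simp (disch := omega) only [Q2, row, e0, e1, e2, e3, e4] at c2
  have c3 := h.pos [(0, 2), ((d : ℤ), 1), ((d : ℤ) + 1, 2)] (by
    intro a ha
    simp only [List.mem_cons, List.not_mem_nil, or_false] at ha
    rcases ha with rfl | rfl | rfl <;> simp only <;> omega)
  simp (disch := omega) only [Q2, row, e0, e1, e2, e3, e4] at c3
  have c4 := h.pos [(0, 1), (1, 1), ((d : ℤ), 1), ((d : ℤ) + 1, 1)] (by
    intro a ha
    simp only [List.mem_cons, List.not_mem_nil, or_false] at ha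
    rcases ha with rfl | rfl | rfl | rfl <;> simp only <;> omega)
  simp (disch := omega) only [Q2, row, e0, e1, e2, e3, e4] at c4
  have c5 := h.pos [(0, 2), (1, 2), (2, 1), ((d : ℤ), 2), ((d : ℤ) + 1, 2)] (by
    intro a ha
    simp only [List.mem_cons, List.not_mem_nil, or_false] at ha
    rcases ha with rfl | rfl | rfl | rfl | rfl <;> simp only <;> omega)
  simp (disch := omega) only [Q2, row, e0, e1, e2, e3, e4] at c5
  have c6 := h.pos [(0, 4), (1, 6), (2, 4), (3, 2), ((d : ℤ) - 3, 1), ((d : ℤ) - 2, 2),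
    ((d : ℤ) - 1, 4), ((d : ℤ), 6), ((d : ℤ) + 1, 4)] (by
    intro a ha
    simp only [List.mem_cons, List.not_mem_nil, or_false] at ha
    rcases ha with rfl | rfl | rfl | rfl | rfl | rfl | rfl | rfl | rfl <;> simp only <;> omega)
  simp (disch := omega) only [Q2, row, e0, e1, e2, e3, e4] at c6
  have c7 := h.pos [(0, 2), ((d : ℤ), -1), ((d : ℤ) + 1, -2)] (by
    intro a ha
    simp only [List.mem_cons, List.not_mem_nil, or_false] at ha
    rcases ha with rfl | rfl | rfl <;> simp only <;> omega)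
  simp (disch := omega) only [Q2, row, e0, e1, e2, e3, e4] at c7
  have c8 := h.pos [(0, 1), (1, 1), ((d : ℤ), -1), ((d : ℤ) + 1, -1)] (by
    intro a ha
    simp only [List.mem_cons, List.not_mem_nil, or_false] at ha
    rcases ha with rfl | rfl | rfl | rfl <;> simp only <;> omega)
  simp (disch := omega) only [Q2, row, e0, e1, e2, e3, e4] at c8
  have c9 := h.pos [(0, 2), (1, 2), (2, 1), ((d : ℤ), -2), ((d : ℤ) + 1, -2)] (by
    intro a ha
    simp only [List.mem_cons, List.not_mem_nil, or_false] at ha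
    rcases ha with rfl | rfl | rfl | rfl | rfl <;> simp only <;> omega)
  simp (disch := omega) only [Q2, row, e0, e1, e2, e3, e4] at c9
  have c10 := h.pos [(0, 4), (1, 6), (2, 4), (3, 2), ((d : ℤ) - 3, -1), ((d : ℤ) - 2, -2),
    ((d : ℤ) - 1, -4), ((d : ℤ), -6), ((d : ℤ) + 1, -4)] (by
    intro a ha
    simp only [List.mem_cons, List.not_mem_nil, or_false] at ha
    rcases ha with rfl | rfl | rfl | rfl | rfl | rfl | rfl | rfl | rfl <;> simp only <;> omega)
  simp (disch := omega) only [Q2, row, e0, e1, e2, e3, e4] at c10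
  omega

/-- the last step -/
lemma PosM.last (h : PosM G M) (h1 : G 1 = -1) (hd : 3 ≤ M)
    (hz : ∀ j : ℤ, 2 ≤ j → j < M → G j = 0) (hne : G M ≠ 0) : G M = -1 ∨ G M = 1 := by
  have e0 : ∀ j : ℤ, j = 0 → G j = 2 := fun j hj => by rw [hj]; exact h.zero
  have e1 : ∀ j : ℤ, j = 1 → G j = -1 := fun j hj => by rw [hj]; exact h1
  have e2 : ∀ j : ℤ, 2 ≤ j ∧ j < M → G j = 0 := fun j hj => hz j hj.1 hj.2
  obtain ⟨y, hy⟩ : ∃ y, G M = y := ⟨_, rfl⟩
  have e3 : ∀ j : ℤ, j = M → G j = y := fun j hj => by rw [hj]; exact hy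
  have b1 := h.le_two M le_rfl
  have b2 := h.ge_two M le_rfl
  rw [hy] at b1 b2 hne ⊢
  have c1 := h.pos [(0, 2), (1, 1), ((M : ℤ), -2)] (by
    intro a ha
    simp only [List.mem_cons, List.not_mem_nil, or_false] at ha
    rcases ha with rfl | rfl | rfl <;> simp only <;> omega)
  simp (disch := omega) only [Q2, row, e0, e1, e2, e3] at c1
  have c2 := h.pos [(0, 2), (1, 1), ((M : ℤ), 2)] (by
    intro a ha
    simp only [List.mem_cons, List.not_mem_nil, or_false] at ha
    rcases ha with rfl | rfl | rfl <;> simp only <;> omega)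
  simp (disch := omega) only [Q2, row, e0, e1, e2, e3] at c2
  omega

end

end Pool.Agent.H4.RL
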