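import Pool.Agent.H4.RL.Main
import Pool.Agent.H4.RL.Gram

/-! All symmetric powers and their twists. -/

set_option autoImplicit false

namespace Pool.Agent.H4.RL

open Pool.Agent.H70.CS Pool.Agent.H4.ST Filter Topology ComplexConjugate

/-- an auxiliary form -/
noncomputable def LW (z u : Nat.Primes → Circle) (a b : ℤ) (s : ℂ) : ℂ :=
  ∏' p : Nat.Primes, ∏ i ∈ Finset.Icc a b,
    (1 - ((z p ^ i * u p : Circle) : ℂ) * ((p : ℕ) : ℂ) ^ (-s))⁻¹

lemma prod_range_Icc {M : Type} [CommMonoid M] (f : ℤ → M) (m e : ℕ) :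
    ∏ j ∈ Finset.range (2 * m + e + 1), f ((j : ℤ) - m) = ∏ i ∈ Finset.Icc (-(m : ℤ)) (m + e), f i := by
  refine Finset.prod_bij (fun j _ => (j : ℤ) - m) ?_ ?_ ?_ ?_
  · intro j hj
    have := Finset.mem_range.1 hj
    rw [Finset.mem_Icc]
    omega
  · intro j hj k hk h
    omega
  · intro i hi
    rw [Finset.mem_Icc] at hi
    refine ⟨(i + m).toNat, Finset.mem_range.2 (by omega), by omega⟩
  · intro j hj
    rfl

lemma LS_eq (α β ω : Nat.Primes → Circle) (m e : ℕ) (s : ℂ) :
    LS α β (fun p => ω p * ((α p * β p) ^ m)⁻¹) (2 * m + e) s =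
      LW (fun p => α p / β p) (fun p => β p ^ e * ω p) (-(m : ℤ)) (m + e) s := by
  unfold LS LW
  refine tprod_congr fun p => ?_
  rw [← prod_range_Icc (fun i => (1 - (((α p / β p) ^ i * (β p ^ e * ω p) : Circle) : ℂ) *
    ((p : ℕ) : ℂ) ^ (-s))⁻¹)]
  refine Finset.prod_congr rfl fun j hj => ?_
  have hj' := Finset.mem_range.1 hj
  have key : α p ^ j * β p ^ (2 * m + e - j) * (ω p * ((α p * β p) ^ m)⁻¹) =
      (α p / β p) ^ ((j : ℤ) - m) * (β p ^ e * ω p) := by
    have h1 : β p ^ (2 * m + e - j) = β p ^ (2 * m + e) * (β p ^ j)⁻¹ := by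
      rw [← div_eq_mul_inv]
      exact (pow_sub _ (by omega)).trans (by rw [div_eq_mul_inv])
    rw [h1, zpow_sub, div_zpow, div_zpow, zpow_natCast, zpow_natCast, zpow_natCast, zpow_natCast,
      mul_pow, pow_add, pow_mul']
    simp only [div_eq_mul_inv, mul_inv_rev, inv_inv, pow_two]
    calc α p ^ j * (β p ^ m * β p ^ m * β p ^ e * (β p ^ j)⁻¹) * (ω p * ((β p ^ m)⁻¹ * (α p ^ m)⁻¹))
        = α p ^ j * (β p ^ m * (β p ^ m)⁻¹ * β p ^ m * β p ^ e * (β p ^ j)⁻¹) *
          (ω p * (α p ^ m)⁻¹) := by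
            simp only [mul_assoc, mul_comm, mul_left_comm]
      _ = α p ^ j * (β p ^ m * β p ^ e * (β p ^ j)⁻¹) * (ω p * (α p ^ m)⁻¹) := by
            rw [mul_inv_cancel, one_mul]
      _ = _ := by simp only [mul_assoc, mul_comm, mul_left_comm]
  rw [key]

lemma LSym_eq_LW (α β : Nat.Primes → Circle) (m : ℕ) (s : ℂ) :
    LSym α β m s = LW (fun p => α p / β p) (fun _ => 1) (-(m : ℤ)) m s := by
  unfold LSym LW
  refine tprod_congr fun p => Finset.prod_congr rfl fun j _ => ?_
  rw [mul_one]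

lemma LS_ad (α β : Nat.Primes → Circle) (m : ℕ) (s : ℂ) :
    LS α β (fun p => ((α p * β p) ^ m)⁻¹) (2 * m) s = LSym α β m s := by
  have h := LS_eq α β (fun _ => 1) m 0 s
  simp only [one_mul, add_zero, pow_zero, Nat.cast_zero] at h
  rw [h, LSym_eq_LW]

/-! ### means -/

/-- the weights `(1; i)` -/
def wt1 (i : ℤ) : Weight 1 := (1, fun _ => i)

lemma wt1_injective : Function.Injective wt1 := fun _ _ h => congrFun (congrArg Prod.snd h) 0

def wt1E : ℤ ↪ Weight 1 := ⟨wt1, wt1_injective⟩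

noncomputable def indF (a b : ℤ) : Weight 1 →₀ ℤ :=
  Finsupp.indicator ((Finset.Icc a b).map wt1E) fun _ _ => 1

lemma indF_prod {M : Type} [CommMonoid M] (a b : ℤ) (h : Weight 1 → ℤ → M) :
    (indF a b).prod h = ∏ j ∈ Finset.Icc a b, h (wt1 j) 1 := by
  classical
  have hs : (indF a b).support = (Finset.Icc a b).map wt1E := by
    ext l
    rw [Finsupp.mem_support_iff, indF, Finsupp.indicator_apply]
    split_ifs with hl <;> simp [hl]
  unfold Finsupp.prod
  rw [hs, Finset.prod_map]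
  refine Finset.prod_congr rfl fun j hj => ?_
  have : indF a b (wt1E j) = 1 := by
    rw [indF, Finsupp.indicator_apply, dif_pos (Finset.mem_map_of_mem _ hj)]
  rw [this]
  rfl

lemma indF_sum {M : Type} [AddCommMonoid M] (a b : ℤ) (h : Weight 1 → ℤ → M) :
    (indF a b).sum h = ∑ j ∈ Finset.Icc a b, h (wt1 j) 1 :=
  indF_prod (M := Multiplicative M) a b h

lemma chr_wt1 (y : Torus 1) (j : ℤ) : chr y (wt1 j) = y.2 0 ^ j * y.1 := by
  simp [chr, wt1, mul_comm]

lemma LW_eq (z u : Nat.Primes → Circle) (a b : ℤ) (s : ℂ) :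
    LW z u a b s = LFun (fun p => ((u p, fun _ => z p) : Torus 1)) (indF a b) s := by
  unfold LFun LW
  refine tprod_congr fun p => ?_
  rw [indF_prod]
  refine Finset.prod_congr rfl fun j _ => ?_
  rw [zpow_neg_one, chr_wt1]

lemma mean_of_order' {z u : Nat.Primes → Circle} {a b : ℤ} {F : ℂ → ℂ} (hF : MeromorphicAt F 1)
    (h : ∀ s : ℂ, 1 < s.re → F s = LW z u a b s) :
    ∃ k : ℤ, meromorphicOrderAt F 1 = k ∧
      Mean (fun p => ∑ j ∈ Finset.Icc a b, ((z p ^ j * u p : Circle) : ℂ).re) (-k : ℤ) := by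
  set A : Nat.Primes → Torus 1 := fun p => (u p, fun _ => z p) with hA
  obtain ⟨k, hk, hE⟩ := edge_dirA A (indF a b) hF fun s hs => by rw [h s hs, LW_eq]
  have hch : ∀ p, chF (indF a b) (A p) = ∑ j ∈ Finset.Icc a b, ((z p ^ j * u p : Circle) : ℂ) := by
    intro p
    rw [chF_apply, indF_sum]
    refine Finset.sum_congr rfl fun j _ => ?_
    rw [chr_wt1, Int.cast_one, one_mul]
  refine ⟨k, hk, ⟨(Finset.Icc a b).card, fun p => ?_⟩, ?_⟩
  · refine (Finset.abs_sum_le_sum_abs _ _).trans ?_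
    rw [Finset.card_eq_sum_ones, Nat.cast_sum, Nat.cast_one]
    refine Finset.sum_le_sum fun j _ => (Complex.abs_re_le_norm _).trans ?_
    rw [Circle.norm_coe]
  · have h2 := tendsto_ratio hE edge_dir_one
    have h3 := (Complex.continuous_ofReal.tendsto _).comp ((Complex.continuous_re.tendsto _).comp h2)
    have e1 : (((-(k : ℂ)).re : ℝ) : ℂ) = (((-k : ℤ) : ℝ) : ℂ) := by
      push_cast
      simp
    rw [e1] at h3
    refine h3.congr' ?_
    filter_upwards [self_mem_nhdsWithin] with σ hσ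
    have hσ' : (1 : ℝ) < σ := hσ
    simp only [Function.comp_apply]
    rw [← mn_chF _ _ hσ']
    have hre : ∀ (b : Nat.Primes → ℂ) (M : ℝ), (∀ p, ‖b p‖ ≤ M) →
        (((mn b σ).re : ℝ) : ℂ) = mn (fun p => ((b p).re : ℂ)) σ := by
      intro b M hb
      have hb1 : ∀ p, ‖(((b p).re : ℝ) : ℂ)‖ ≤ M := fun p => by
        rw [Complex.norm_real]
        exact (Complex.abs_re_le_norm _).trans (hb p)
      have hb2 : ∀ p, ‖Complex.I * (((b p).im : ℝ) : ℂ)‖ ≤ M := fun p => by
        rw [norm_mul, Complex.norm_I, one_mul, Complex.norm_real]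
        exact (Complex.abs_im_le_norm _).trans (hb p)
      have e2 : b = fun p => (((b p).re : ℝ) : ℂ) + Complex.I * (((b p).im : ℝ) : ℂ) := by
        funext p
        rw [mul_comm, Complex.re_add_im]
      conv_lhs => rw [e2]
      rw [mn_add hb1 hb2 hσ', mn_smul, mn_ofReal, mn_ofReal, Complex.add_re, Complex.ofReal_re,
        Complex.re_mul_ofReal, Complex.I_re]
      simp
    rw [hre _ ((Finset.Icc a b).card : ℝ) fun p => ?_]
    · congr 1
      funext p
      rw [hch, Complex.re_sum]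
    · rw [hch]
      refine (norm_sum_le _ _).trans ?_
      simp [Circle.norm_coe]

/-! ### positivity of the two chains -/

section gramR
variable {I : Type}

def rowIR (g : I → I → ℝ) (a : I) : List (I × ℤ) → ℝ
  | [] => 0
  | b :: l => b.2 * g a b.1 + rowIR g a l

def QIR (g : I → I → ℝ) : List (I × ℤ) → ℝ
  | [] => 0
  | a :: l => a.2 ^ 2 * g a.1 a.1 + 2 * a.2 * rowIR g a.1 l + QIR g l

lemma cast_rowI (g : I → I → ℤ) (a : I) (l : List (I × ℤ)) :
    (rowI g a l : ℝ) = rowIR (fun a b => (g a b : ℝ)) a l := by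
  induction l with
  | nil => simp [rowI, rowIR]
  | cons b l ih => rw [rowI, rowIR, ← ih]; push_cast; rfl

lemma cast_QI (g : I → I → ℤ) (l : List (I × ℤ)) :
    (QI g l : ℝ) = QIR (fun a b => (g a b : ℝ)) l := by
  induction l with
  | nil => simp [QI, QIR]
  | cons b l ih => rw [QI, QIR, ← ih, ← cast_rowI]; push_cast; rfl

noncomputable def vecI (x : I → ℂ) : List (I × ℤ) → ℂ
  | [] => 0
  | a :: l => a.2 * x a.1 + vecI x l

lemma rowIR_vec (x y : I → ℂ) (a : I) (l : List (I × ℤ)) :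
    rowIR (fun a b => (x a * conj (x b)).re + (y a * conj (y b)).re) a l =
      (x a * conj (vecI x l)).re + (y a * conj (vecI y l)).re := by
  induction l with
  | nil => simp [rowIR, vecI]
  | cons b l ih =>
    rw [rowIR, ih, vecI, vecI]
    have e2 : ∀ c d : ℂ, (c * conj ((b.2 : ℂ) * d)).re = b.2 * (c * conj d).re := by
      intro c d
      rw [map_mul, map_intCast, ← mul_assoc, mul_comm c, mul_assoc]
      have : ((b.2 : ℤ) : ℂ) = ((b.2 : ℝ) : ℂ) := by push_cast; rfl
      rw [this, Complex.re_ofReal_mul]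
    simp only [map_add, mul_add, Complex.add_re, e2]
    ring

lemma QIR_vec (x y : I → ℂ) (l : List (I × ℤ)) :
    QIR (fun a b => (x a * conj (x b)).re + (y a * conj (y b)).re) l =
      Complex.normSq (vecI x l) + Complex.normSq (vecI y l) := by
  induction l with
  | nil => simp [QIR, vecI]
  | cons b l ih =>
    rw [QIR, ih, rowIR_vec, vecI, vecI, Complex.normSq_add, Complex.normSq_add]
    have e1 : ∀ d : ℂ, Complex.normSq ((b.2 : ℂ) * d) = (b.2 : ℝ) ^ 2 * (d * conj d).re := by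
      intro d
      rw [Complex.normSq_mul, Complex.mul_conj, Complex.ofReal_re]
      have : ((b.2 : ℤ) : ℂ) = ((b.2 : ℝ) : ℂ) := by push_cast; rfl
      rw [this, Complex.normSq_ofReal]
      ring
    have e2 : ∀ d v : ℂ, ((b.2 : ℂ) * d * conj v).re = b.2 * (d * conj v).re := by
      intro d v
      have : ((b.2 : ℤ) : ℂ) = ((b.2 : ℝ) : ℂ) := by push_cast; rfl
      rw [this, mul_assoc, Complex.re_ofReal_mul]
    rw [e1, e1, e2, e2]
    ring

lemma mean_QI {g : Nat.Primes → I → I → ℝ} {G : I → I → ℝ}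
    (h : ∀ a b, Mean (fun p => g p a b) (G a b)) (l : List (I × ℤ)) :
    Mean (fun p => QIR (g p) l) (QIR G l) := by
  have hrow : ∀ a l, Mean (fun p => rowIR (g p) a l) (rowIR G a l) := by
    intro a l
    induction l with
    | nil => exact Mean.zero
    | cons b l ih =>
      simp only [rowIR]
      exact ((h _ _).const_mul _).add ih
  induction l with
  | nil => exact Mean.zero
  | cons b l ih =>
    simp only [QIR]
    exact (((h _ _).const_mul _).add ((hrow _ _).const_mul _)).add ih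

end gramR

lemma Mean.unique {b : Nat.Primes → ℝ} {l k : ℝ} (h : Mean b l) (h' : Mean b k) : l = k := by
  have := tendsto_nhds_unique h.2 h'.2
  exact_mod_cast this

/-- the vectors of the two chains -/
noncomputable def X1 (z u : Circle) : Two → ℂ
  | Sum.inl i => ((z ^ i : Circle) : ℂ)
  | Sum.inr k => ((z ^ k * u⁻¹ : Circle) : ℂ)

noncomputable def X2 (z u : Circle) (e : ℤ) : Two → ℂ
  | Sum.inl i => ((z ^ (-i) : Circle) : ℂ)
  | Sum.inr k => ((z ^ (-k - e) * u⁻¹ : Circle) : ℂ)

lemma re_mul_conj (x y : Circle) : ((x : ℂ) * conj (y : ℂ)).re = ((x * y⁻¹ : Circle) : ℂ).re := by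
  rw [Circle.coe_mul, Circle.coe_inv_eq_conj]

lemma re_inv (x : Circle) : ((x⁻¹ : Circle) : ℂ).re = (x : ℂ).re := by
  rw [Circle.coe_inv_eq_conj, Complex.conj_re]

/-- **The Gram matrix of the two chains is the mean of Gram matrices.** -/
theorem gram_pos {z u : Nat.Primes → Circle} {G b : ℤ → ℤ} {e : ℤ}
    (hG : ∀ k : ℤ, Mean (fun p => 2 * ((z p ^ k : Circle) : ℂ).re) (G k : ℤ))
    (hb : ∀ i : ℤ, Mean (fun p => ((z p ^ i * u p : Circle) : ℂ).re +
      ((z p ^ (e - i) * u p : Circle) : ℂ).re) (b i : ℤ)) (l : List (Two × ℤ)) :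
    0 ≤ QI (gram G b) l := by
  have h1 : ∀ a c : Two, Mean (fun p => (X1 (z p) (u p) a * conj (X1 (z p) (u p) c)).re +
      (X2 (z p) (u p) e a * conj (X2 (z p) (u p) e c)).re) (gram G b a c : ℤ) := by
    rintro (i | i) (j | j)
    · refine (hG (i - j)).congr fun p => ?_
      simp only [X1, X2]
      rw [re_mul_conj, re_mul_conj]
      have e1 : z p ^ i * (z p ^ j)⁻¹ = z p ^ (i - j) := (zpow_sub _ _ _).symm
      have e2 : z p ^ (-i) * (z p ^ (-j))⁻¹ = (z p ^ (i - j))⁻¹ := by
        rw [← zpow_neg, ← zpow_neg, ← zpow_add]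
        congr 1
        ring
      rw [e1, e2, re_inv]
      ring
    · refine (hb (i - j)).congr fun p => ?_
      simp only [X1, X2]
      rw [re_mul_conj, re_mul_conj]
      have e1 : z p ^ i * (z p ^ j * (u p)⁻¹)⁻¹ = z p ^ (i - j) * u p := by
        rw [zpow_sub, mul_inv, inv_inv, mul_assoc]
      have e2 : z p ^ (-i) * (z p ^ (-j - e) * (u p)⁻¹)⁻¹ = z p ^ (e - (i - j)) * u p := by
        rw [mul_inv, inv_inv, ← mul_assoc, ← zpow_neg, ← zpow_add]
        congr 2
        ring
      rw [e1, e2]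
    · refine (hb (j - i)).congr fun p => ?_
      simp only [X1, X2]
      rw [re_mul_conj, re_mul_conj]
      have e1 : z p ^ i * (u p)⁻¹ * (z p ^ j)⁻¹ = (z p ^ (j - i) * u p)⁻¹ := by
        rw [zpow_sub, mul_inv, mul_inv, inv_inv]
        simp only [mul_assoc, mul_comm, mul_left_comm]
      have e2 : z p ^ (-i - e) * (u p)⁻¹ * (z p ^ (-j))⁻¹ = (z p ^ (e - (j - i)) * u p)⁻¹ := by
        rw [mul_inv, ← zpow_neg, ← zpow_neg, mul_right_comm, ← zpow_add]
        congr 2
        ring
      rw [e1, e2, re_inv, re_inv]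
    · refine (hG (i - j)).congr fun p => ?_
      simp only [X1, X2]
      rw [re_mul_conj, re_mul_conj]
      have e1 : z p ^ i * (u p)⁻¹ * (z p ^ j * (u p)⁻¹)⁻¹ = z p ^ (i - j) := by
        rw [zpow_sub, mul_inv, inv_inv]
        calc z p ^ i * (u p)⁻¹ * ((z p ^ j)⁻¹ * u p) = z p ^ i * (z p ^ j)⁻¹ * ((u p)⁻¹ * u p) := by
              simp only [mul_assoc, mul_comm, mul_left_comm]
          _ = _ := by rw [inv_mul_cancel, mul_one]
      have e2 : z p ^ (-i - e) * (u p)⁻¹ * (z p ^ (-j - e) * (u p)⁻¹)⁻¹ = (z p ^ (i - j))⁻¹ := by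
        rw [mul_inv, inv_inv]
        calc z p ^ (-i - e) * (u p)⁻¹ * ((z p ^ (-j - e))⁻¹ * u p) =
              z p ^ (-i - e) * (z p ^ (-j - e))⁻¹ * ((u p)⁻¹ * u p) := by
              simp only [mul_assoc, mul_comm, mul_left_comm]
          _ = z p ^ (-i - e) * (z p ^ (-j - e))⁻¹ := by rw [inv_mul_cancel, mul_one]
          _ = _ := by
            rw [← zpow_neg, ← zpow_neg, ← zpow_add]
            congr 1
            ring
      rw [e1, e2, re_inv]
      ring
  have h2 := mean_QI (I := Two) (G := fun a c => ((gram G b a c : ℤ) : ℝ)) h1 l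
  have h3 := h2.nonneg fun p => by
    rw [QIR_vec]
    exact add_nonneg (Complex.normSq_nonneg _) (Complex.normSq_nonneg _)
  rw [← cast_QI] at h3
  exact_mod_cast h3

/-- **Twists in the Sato-Tate case.** -/
theorem twist_orders {α β ω : Nat.Primes → Circle} {K : ℕ → ℤ}
    (hM : ∀ m : ℕ, Mean (fun p => ∑ j ∈ Finset.Icc (-(m : ℤ)) m, (((α p / β p) ^ j : Circle) : ℂ).re)
      (K m : ℤ)) (hK0 : K 0 = 1) (hz : ∀ m, 1 ≤ m → K m = 0) {e : ℕ} (he : e ≤ 1)
    (h : ∀ m : ℕ, ∃ F : ℂ → ℂ, MeromorphicAt F 1 ∧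
      ∀ s : ℂ, 1 < s.re → F s = LS α β (fun p => ω p * ((α p * β p) ^ m)⁻¹) (2 * m + e) s)
    (m : ℕ) (hm : 1 ≤ 2 * m + e) (F : ℂ → ℂ) (hF : MeromorphicAt F 1)
    (hFe : ∀ s : ℂ, 1 < s.re → F s = LS α β (fun p => ω p * ((α p * β p) ^ m)⁻¹) (2 * m + e) s) :
    meromorphicOrderAt F 1 = 0 := by
  set z : Nat.Primes → Circle := fun p => α p / β p with hzdef
  set u : Nat.Primes → Circle := fun p => β p ^ e * ω p with hudef
  choose F' hF' hFe' using h
  choose k hk hkM using fun m : ℕ => mean_of_order' (z := z) (u := u) (a := -(m : ℤ)) (b := m + e)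
    (hF' m) (fun s hs => by rw [hFe' m s hs, LS_eq])
  set T : ℕ → ℤ := fun m => -k m with hT
  have hTM : ∀ m : ℕ, Mean (fun p => ∑ j ∈ Finset.Icc (-(m : ℤ)) (m + e),
      ((z p ^ j * u p : Circle) : ℂ).re) (T m : ℤ) := hkM
  have hpair : ∀ m : ℕ, Mean (fun p => ((z p ^ ((m : ℤ) + 1 + e) * u p : Circle) : ℂ).re +
      ((z p ^ (-((m : ℤ) + 1)) * u p : Circle) : ℂ).re) (T (m + 1) - T m : ℤ) := by
    intro m
    have h2 := (hTM (m + 1)).add ((hTM m).const_mul (-1))
    have e1 : ((T (m + 1) : ℤ) : ℝ) + -1 * ((T m : ℤ) : ℝ) = ((T (m + 1) - T m : ℤ) : ℝ) := by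
      push_cast; ring
    rw [e1] at h2
    refine h2.congr fun p => ?_
    have hI : Finset.Icc (-((m + 1 : ℕ) : ℤ)) (((m + 1 : ℕ) : ℤ) + e) =
        insert ((m : ℤ) + 1 + e) (insert (-((m : ℤ) + 1)) (Finset.Icc (-(m : ℤ)) (m + e))) := by
      ext j
      simp only [Finset.mem_Icc, Finset.mem_insert]
      omega
    rw [hI, Finset.sum_insert, Finset.sum_insert]
    · ring
    · simp only [Finset.mem_Icc]; omega
    · simp only [Finset.mem_Icc, Finset.mem_insert]; omega
  let b : ℤ → ℤ := fun i => if (max (i - e) (-i)).toNat = 0 then (if e = 0 then 2 * T 0 else T 0)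
    else T (max (i - e) (-i)).toNat - T ((max (i - e) (-i)).toNat - 1)
  have hbM : ∀ i : ℤ, Mean (fun p => ((z p ^ i * u p : Circle) : ℂ).re +
      ((z p ^ ((e : ℤ) - i) * u p : Circle) : ℂ).re) (b i : ℤ) := by
    intro i
    simp only [b]
    split_ifs with c1 c2
    · have h2 := (hTM 0).const_mul 2
      have e1 : (2 : ℝ) * ((T 0 : ℤ) : ℝ) = ((2 * T 0 : ℤ) : ℝ) := by push_cast; ring
      rw [e1] at h2
      refine h2.congr fun p => ?_
      have hi : i = 0 := by omega
      subst hi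
      rw [c2]
      simp only [Nat.cast_zero, neg_zero, add_zero, Finset.Icc_self, Finset.sum_singleton, sub_zero]
      ring
    · have he1 : e = 1 := by omega
      refine (hTM 0).congr fun p => ?_
      have hI : Finset.Icc (-((0 : ℕ) : ℤ)) (((0 : ℕ) : ℤ) + e) = {0, 1} := by
        rw [he1]; rfl
      rw [hI, Finset.sum_pair (by norm_num)]
      have hi : i = 0 ∨ i = 1 := by omega
      rcases hi with rfl | rfl
      · rw [he1]; norm_num
      · rw [he1]; norm_num [add_comm]
    · obtain ⟨m, hm⟩ : ∃ m, (max (i - e) (-i)).toNat = m + 1 := ⟨(max (i - e) (-i)).toNat - 1, by omega⟩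
      rw [hm, Nat.add_sub_cancel]
      refine (hpair m).congr fun p => ?_
      have hi : i = (m : ℤ) + 1 + e ∨ i = -((m : ℤ) + 1) := by omega
      rcases hi with hi | hi
      · rw [hi]
        congr 4
        ring
      · rw [hi, add_comm]
        congr 4
        ring
  have hgg := mean_gg hK0 hM
  have hpos := gram_pos (z := z) (u := u) (G := gg K) (b := b) (e := (e : ℤ)) hgg hbM
  have hG0 : gg K 0 = 2 := by simp [gg]
  have hG1 : gg K 1 = -1 := by
    have := gg_succ K 0
    rw [zero_add, hz 1 le_rfl, hK0] at this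
    simpa using this
  have hG2 : ∀ k : ℤ, 2 ≤ k → gg K k = 0 := by
    intro k hk
    obtain ⟨i, rfl⟩ : ∃ i : ℕ, k = ((i + 1 : ℕ) : ℤ) := ⟨(k - 1).toNat, by omega⟩
    rw [gg_succ, hz _ (by omega), hz _ (by omega), sub_zero]
  have hsymm : ∀ i, b ((e : ℤ) - i) = b i := by
    intro i
    have : max ((e : ℤ) - i - e) (-((e : ℤ) - i)) = max (i - e) (-i) := by omega
    simp only [b, this]
  have hb0 : (e : ℤ) = 0 → ∃ k, b 0 = 2 * k := by
    intro he0
    have he0' : e = 0 := by exact_mod_cast he0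
    refine ⟨T 0, ?_⟩
    simp [b, he0']
  have hcross := cross (G := gg K) (b := b) (e := (e : ℤ)) (by omega) hG0 hG1 (fun k => by simp [gg])
    hG2 hsymm hb0 hpos
  have hstep : ∀ m : ℕ, b ((m : ℤ) + 1 + e) = T (m + 1) - T m := by
    intro m
    have h1 : (max ((m : ℤ) + 1 + e - e) (-((m : ℤ) + 1 + e))).toNat = m + 1 := by omega
    simp only [b, h1, Nat.add_sub_cancel]
    rw [if_neg (by omega)]
  have hT0 : T m = 0 := by
    rcases hcross with hc | ⟨he0, σ, hσ, hc⟩
    · have hbase : T 0 = 0 := by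
        have := hc 0
        have h1 : (max ((0 : ℤ) - e) (-0)).toNat = 0 := by omega
        simp only [b, h1, if_true] at this
        split_ifs at this <;> omega
      clear hm hF hFe
      induction m with
      | zero => exact hbase
      | succ m ih =>
        have := hstep m
        rw [hc, ih] at this
        omega
    · have he0' : e = 0 := by exact_mod_cast he0
      have hT1 : T 0 = σ := by
        have := hc 0
        rw [hG0] at this
        simp [b, he0'] at this
        omega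
      have hall : ∀ m : ℕ, 1 ≤ m → T m = 0 := by
        intro m hm
        induction m, hm using Nat.le_induction with
        | base =>
          have := hstep 0
          rw [hc, he0'] at this
          simp only [Nat.cast_zero, zero_add, add_zero] at this
          rw [hG1, hT1] at this
          omega
        | succ m hm ih =>
          have := hstep m
          rw [hc, he0', hG2 _ (by push_cast; omega), ih] at this
          omega
      exact hall m (by omega)
  obtain ⟨k', hk', hM'⟩ := mean_of_order' (z := z) (u := u) (a := -(m : ℤ)) (b := m + e)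
    hF (fun s hs => by rw [hFe s hs, LS_eq])
  have h5 := hM'.unique (hTM m)
  rw [hT0] at h5
  have h6 : -k' = 0 := by exact_mod_cast h5
  rw [hk']
  have : k' = 0 := by omega
  rw [this]
  rfl

end Pool.Agent.H4.RL
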